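import Mathlib
import Pool.Agent.W484.TB.Pair

/-!
# Angle relations between the roots of Weil polynomials, over a field of numbers: definitions
-/

set_option autoImplicit false

namespace Pool.Agent.T2h14.NR

open Polynomial Module Submodule

/-- The field of algebraic numbers in `ℂ`. -/
noncomputable abbrev QBar : IntermediateField ℚ ℂ := algebraicClosure ℚ ℂ

/-- There are no multiplicative relations between the roots of the `f i` except the trivial ones: if
a power of a product of roots `z 1 ⋯ z n`, `n > 0`, is a power of `q`, then `z k * z l = q` for some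
`k ≠ l`. -/
def Neat (q : ℕ) {I : Type} (f : I → ℤ[X]) : Prop :=
  ∀ (n : ℕ) (z : Fin n → ℂ) (N : ℕ) (c : ℤ), 0 < n → 0 < N → (∀ k, ∃ i, aeval (z k) (f i) = 0) →
    (∏ k, z k) ^ N = (q : ℂ) ^ c → ∃ k l, k ≠ l ∧ z k * z l = q

/-- All roots `z` of the `f i` are conjugate to `q / z` over `E`: there is an automorphism `σ` of the
field of algebraic numbers that is the identity on the algebraic numbers in `E`, with
`σ z = q / z`. -/
def ConjugateOver (E : IntermediateField ℚ ℂ) (q : ℕ) {I : Type} (f : I → ℤ[X]) : Prop :=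
  ∀ z : QBar, (∃ i, aeval z (f i) = 0) →
    ∃ σ : QBar ≃ₐ[ℚ] QBar, (∀ e : QBar, (e : ℂ) ∈ E → σ e = e) ∧ σ z = q / z

/-- `w` is an odd function on the set of the roots of the `f i`: it vanishes outside this set, and
`w (q / z) = -w z`. -/
def IsOdd (q : ℕ) {I : Type} (f : I → ℤ[X]) (w : QBar → ℚ) : Prop :=
  (∀ z, w z ≠ 0 → ∃ i, aeval z (f i) = 0) ∧ ∀ z, w (q / z) = -w z

/-- The conjugates `w ∘ σ` of every nonzero odd function `w` on the set of the roots span a vector
space over `ℚ` of dimension larger than `r`; in other words, all nonzero Galois-stable spaces of odd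
functions have dimension larger than `r`. -/
def LargeSpans (q r : ℕ) {I : Type} (f : I → ℤ[X]) : Prop :=
  ∀ w : QBar → ℚ, IsOdd q f w → w ≠ 0 →
    r < finrank ℚ (span ℚ {v : QBar → ℚ | ∃ σ : QBar ≃ₐ[ℚ] QBar, v = w ∘ σ})

/-- `z ↦ q / z` permutes the roots of each `f i`, and `0` is not a root. -/
def SelfDual (q : ℕ) {I : Type} (f : I → ℤ[X]) : Prop :=
  ∀ i, ∀ z : ℂ, aeval z (f i) = 0 → z ≠ 0 ∧ aeval ((q : ℂ) / z) (f i) = 0

end Pool.Agent.T2h14.NR
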