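import Mathlib

/-!
# Monomials in a finite set of numbers, and odd exponents
-/

set_option autoImplicit false
set_option linter.unusedSectionVars false

namespace Pool.Agent.T2h14.NR

variable {Ω : Type*} [Field Ω] [Algebra ℚ Ω]

section mon

variable (R : Finset Ω)

/-- The product of the `z ^ w z`, `z` in `R`. -/
noncomputable def mon (w : Ω → ℤ) : Ω := ∏ z ∈ R, z ^ w z

variable {R}

theorem mon_ne_zero (h0 : ∀ z ∈ R, z ≠ 0) (w : Ω → ℤ) : mon R w ≠ 0 :=
  Finset.prod_ne_zero_iff.2 fun z hz => zpow_ne_zero _ (h0 z hz)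

theorem mon_add (h0 : ∀ z ∈ R, z ≠ 0) (w v : Ω → ℤ) : mon R (w + v) = mon R w * mon R v := by
  rw [mon, mon, mon, ← Finset.prod_mul_distrib]
  exact Finset.prod_congr rfl fun z hz => zpow_add₀ (h0 z hz) _ _

theorem mon_zero : mon R 0 = 1 := by
  simp [mon]

theorem mon_smul (c : ℤ) (w : Ω → ℤ) : mon R (c • w) = mon R w ^ c := by
  rw [mon, mon, ← Finset.prod_zpow]
  refine Finset.prod_congr rfl fun z _ => ?_
  rw [Pi.smul_apply, smul_eq_mul, mul_comm, zpow_mul]

theorem mon_sum {ι : Type*} (h0 : ∀ z ∈ R, z ≠ 0) (s : Finset ι) (w : ι → Ω → ℤ) :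
    mon R (∑ i ∈ s, w i) = ∏ i ∈ s, mon R (w i) := by
  classical
  induction s using Finset.induction_on with
  | empty => simp [mon_zero]
  | insert a s ha ih => rw [Finset.sum_insert ha, Finset.prod_insert ha, mon_add h0, ih]

theorem map_mon (hR : ∀ σ : Ω ≃ₐ[ℚ] Ω, ∀ z ∈ R, σ z ∈ R) (σ : Ω ≃ₐ[ℚ] Ω) (w : Ω → ℤ) :
    σ (mon R w) = mon R (w ∘ σ.symm) := by
  classical
  rw [mon, mon, map_prod]
  refine Finset.prod_bij' (fun z _ => σ z) (fun z _ => σ.symm z) (fun z hz => hR σ z hz)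
    (fun z hz => hR σ.symm z hz) (fun z _ => σ.symm_apply_apply z)
    (fun z _ => σ.apply_symm_apply z) fun z _ => ?_
  rw [map_zpow₀, Function.comp_apply, σ.symm_apply_apply]

end mon

/-- `w` vanishes outside `R` and is odd for `z ↦ q / z`. -/
structure IsOddOn {A : Type*} [Zero A] [Neg A] (R : Finset Ω) (q : ℕ) (w : Ω → A) : Prop where
  supp : ∀ z, z ∉ R → w z = 0
  odd : ∀ z, w (q / z) = -w z

section odd

variable {R : Finset Ω} {q : ℕ}

theorem IsOddOn.zero : IsOddOn R q (0 : Ω → ℤ) := ⟨fun _ _ => rfl, fun _ => by simp⟩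

theorem IsOddOn.add {w v : Ω → ℤ} (hw : IsOddOn R q w) (hv : IsOddOn R q v) :
    IsOddOn R q (w + v) :=
  ⟨fun z hz => by rw [Pi.add_apply, hw.supp z hz, hv.supp z hz, add_zero], fun z => by
    rw [Pi.add_apply, Pi.add_apply, hw.odd, hv.odd]
    ring⟩

theorem IsOddOn.smul {w : Ω → ℤ} (hw : IsOddOn R q w) (c : ℤ) : IsOddOn R q (c • w) :=
  ⟨fun z hz => by rw [Pi.smul_apply, hw.supp z hz, smul_zero], fun z => by
    rw [Pi.smul_apply, Pi.smul_apply, hw.odd, smul_neg]⟩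

theorem IsOddOn.sum {ι : Type*} {s : Finset ι} {w : ι → Ω → ℤ} (h : ∀ i ∈ s, IsOddOn R q (w i)) :
    IsOddOn R q (∑ i ∈ s, w i) := by
  classical
  induction s using Finset.induction_on with
  | empty => simpa using IsOddOn.zero
  | insert a s ha ih =>
    rw [Finset.sum_insert ha]
    exact (h a (by simp)).add (ih fun i hi => h i (by simp [hi]))

theorem IsOddOn.comp {A : Type*} [Zero A] [Neg A] (hR : ∀ σ : Ω ≃ₐ[ℚ] Ω, ∀ z ∈ R, σ z ∈ R)
    {w : Ω → A} (hw : IsOddOn R q w) (σ : Ω ≃ₐ[ℚ] Ω) : IsOddOn R q (w ∘ σ) :=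
  ⟨fun z hz => hw.supp _ fun h => hz (by simpa using hR σ.symm _ h), fun z => by
    rw [Function.comp_apply, map_div₀, map_natCast, hw.odd, Function.comp_apply]⟩

/-- There are no relations between the elements of `R` except the consequences of
`z * (q / z) = q`. -/
def NeatOn (R : Finset Ω) (q : ℕ) : Prop :=
  ∀ (n : ℕ) (z : Fin n → Ω) (N : ℕ) (c : ℤ), 0 < n → 0 < N → (∀ k, z k ∈ R) →
    (∏ k, z k) ^ N = (q : Ω) ^ c → ∃ k l, k ≠ l ∧ z k * z l = q

/-- From exponents to tuples. -/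
theorem exists_tuple (R : Finset Ω) (m : Ω → ℕ) :
    ∃ (n : ℕ) (z : Fin n → Ω), n = ∑ y ∈ R, m y ∧ (∀ k, z k ∈ R ∧ m (z k) ≠ 0) ∧
      ∏ k, z k = ∏ y ∈ R, y ^ m y := by
  classical
  induction R using Finset.induction_on with
  | empty => exact ⟨0, fun k => k.elim0, by simp, fun k => k.elim0, by simp⟩
  | insert a s ha ih =>
    obtain ⟨n, z, h1, h2, h3⟩ := ih
    refine ⟨m a + n, Fin.append (fun _ : Fin (m a) => a) z, ?_, ?_, ?_⟩
    · rw [Finset.sum_insert ha, h1]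
    · intro k
      induction k using Fin.addCases with
      | left i =>
        rw [Fin.append_left]
        refine ⟨by simp, fun h => ?_⟩
        have := i.2
        omega
      | right i =>
        rw [Fin.append_right]
        exact ⟨by simp [(h2 i).1], (h2 i).2⟩
    · rw [Fin.prod_univ_add, Finset.prod_insert ha]
      congr 1
      · simp
      · rw [← h3]
        exact Finset.prod_congr rfl fun i _ => by rw [Fin.append_right]

variable (hq : q ≠ 0) (h0 : ∀ z ∈ R, z ≠ 0) (hdual : ∀ z ∈ R, (q : Ω) / z ∈ R)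

include hq h0 hdual in
/-- The negative part of an odd exponent. -/
theorem mon_neg_part {w : Ω → ℤ} (hw : IsOddOn R q w) :
    (∏ z ∈ R, z ^ (-w z).toNat) * (∏ z ∈ R, z ^ (w z).toNat) =
      (q : Ω) ^ (∑ z ∈ R, (w z).toNat) := by
  classical
  have hqΩ : (q : Ω) ≠ 0 := by
    have : CharZero Ω := algebraRat.charZero Ω
    exact_mod_cast hq
  have h1 : ∏ z ∈ R, z ^ (-w z).toNat = ∏ z ∈ R, ((q : Ω) / z) ^ (w z).toNat := by
    refine Finset.prod_bij' (fun z _ => (q : Ω) / z) (fun z _ => (q : Ω) / z) (fun z hz => hdual z hz)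
      (fun z hz => hdual z hz) (fun z hz => ?_) (fun z hz => ?_) fun z hz => ?_
    · exact div_div_cancel₀ hqΩ
    · exact div_div_cancel₀ hqΩ
    · rw [div_div_cancel₀ hqΩ, hw.odd]
  rw [h1, ← Finset.prod_mul_distrib, ← Finset.prod_pow_eq_pow_sum]
  refine Finset.prod_congr rfl fun z hz => ?_
  rw [← mul_pow, div_mul_cancel₀ _ (h0 z hz)]

include hq h0 hdual in
theorem mon_eq {w : Ω → ℤ} (hw : IsOddOn R q w) :
    mon R w * (q : Ω) ^ (∑ z ∈ R, (w z).toNat) = (∏ z ∈ R, z ^ (w z).toNat) ^ 2 := by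
  have h1 : mon R w * (∏ z ∈ R, z ^ (-w z).toNat) = ∏ z ∈ R, z ^ (w z).toNat := by
    rw [mon, ← Finset.prod_mul_distrib]
    refine Finset.prod_congr rfl fun z hz => ?_
    rw [← zpow_natCast, ← zpow_natCast, ← zpow_add₀ (h0 z hz)]
    congr 1
    rcases le_total 0 (w z) with h | h
    · rw [Int.toNat_of_nonneg h, Int.toNat_of_nonpos (by omega)]
      simp
    · rw [Int.toNat_of_nonneg (by omega : 0 ≤ -w z), Int.toNat_of_nonpos h]
      simp
  rw [← mon_neg_part hq h0 hdual hw, ← mul_assoc, h1, sq]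

include hq h0 hdual in
/-- **Odd exponents and neatness.** -/
theorem eq_zero_of_neat (hneat : NeatOn R q) {w : Ω → ℤ} (hw : IsOddOn R q w) {N : ℕ} (hN : 0 < N)
    {c : ℤ} (h : mon R w ^ N = (q : Ω) ^ c) : w = 0 := by
  classical
  have : CharZero Ω := algebraRat.charZero Ω
  have hqΩ : (q : Ω) ≠ 0 := by exact_mod_cast hq
  obtain ⟨n, z, hn, hz, hprod⟩ := exists_tuple R (fun y => (w y).toNat)
  have hpos : ∀ y ∈ R, (w y).toNat = 0 := by
    by_contra hne
    push Not at hne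
    obtain ⟨y, hy, hy0⟩ := hne
    have hn0 : 0 < n := by
      rw [hn]
      exact lt_of_lt_of_le (Nat.pos_of_ne_zero hy0)
        (Finset.single_le_sum (f := fun y => (w y).toNat) (fun _ _ => Nat.zero_le _) hy)
    obtain ⟨k, l, hkl, hz2⟩ := hneat n z (2 * N) (c + n * N) hn0 (by omega) (fun k => (hz k).1) (by
      rw [hprod, pow_mul, ← mon_eq hq h0 hdual hw, mul_pow, h, ← hn, zpow_add₀ hqΩ]
      congr 1
      rw [← pow_mul]
      exact_mod_cast rfl)
    have h1 := (hz k).2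
    have h2 := (hz l).2
    have h3 : z l = q / z k := by
      rw [eq_div_iff (h0 _ (hz k).1), mul_comm, hz2]
    rw [h3, hw.odd] at h2
    omega
  funext y
  by_cases hy : y ∈ R
  · have h1 := hpos y hy
    have h2 := hpos _ (hdual y hy)
    rw [hw.odd] at h2
    change w y = 0
    omega
  · exact hw.supp y hy

include hq h0 hdual in
/-- **Odd exponents and a field.** -/
theorem eq_zero_of_mem (hR : ∀ σ : Ω ≃ₐ[ℚ] Ω, ∀ z ∈ R, σ z ∈ R) (hneat : NeatOn R q)
    (E : Set Ω) (hE : ∀ z ∈ R, ∃ σ : Ω ≃ₐ[ℚ] Ω, (∀ e ∈ E, σ e = e) ∧ σ z = q / z)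
    {w : Ω → ℤ} (hw : IsOddOn R q w) {N : ℕ} (hN : 0 < N) (h : mon R w ^ N ∈ E) : w = 0 := by
  classical
  have hinv : ∀ σ : Ω ≃ₐ[ℚ] Ω, (∀ e ∈ E, σ e = e) → w ∘ σ = w := by
    intro σ hσ
    have h1 := hσ _ h
    rw [map_pow, map_mon hR] at h1
    have hw' := hw.comp hR σ.symm
    have h2 : w ∘ σ.symm + (-1 : ℤ) • w = 0 := by
      refine eq_zero_of_neat hq h0 hdual hneat (hw'.add (hw.smul (-1))) hN (c := 0) ?_
      rw [mon_add h0, mon_smul, mul_pow, h1, zpow_neg_one, inv_pow, zpow_zero]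
      exact mul_inv_cancel₀ (pow_ne_zero _ (mon_ne_zero h0 w))
    have h3 : w ∘ σ.symm = w := by
      rw [neg_one_smul, ← sub_eq_add_neg, sub_eq_zero] at h2
      exact h2
    funext z
    have h4 := congrFun h3 (σ z)
    rw [Function.comp_apply, σ.symm_apply_apply] at h4
    exact h4.symm
  funext z
  by_cases hz : z ∈ R
  · obtain ⟨σ, hσ, h1⟩ := hE z hz
    have h2 := congrFun (hinv σ hσ) z
    rw [Function.comp_apply, h1, hw.odd] at h2
    change w z = 0
    omega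
  · exact hw.supp z hz

end odd

end Pool.Agent.T2h14.NR
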