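import Mathlib
import Pool.Agent.T2h14.NR.Mon
import Pool.Agent.W484.AA.Rank

/-!
# Relations with numbers of small rank
-/

set_option autoImplicit false
set_option linter.unusedSectionVars false

namespace Pool.Agent.T2h14.NR

open Module Submodule Pool.Agent.W484.AA

variable {Ω : Type} [Field Ω] [Algebra ℚ Ω] {R : Finset Ω} {q : ℕ}

/-- Up to a power, `y` is in the group generated by the nonzero elements of `E` and the `u j`. -/
def InGroup (E : IntermediateField ℚ ℂ) {r : ℕ} (u : Fin r → ℂ) (y : ℂ) : Prop :=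
  ∃ (N : ℕ) (e : ℂ) (m : Fin r → ℤ), 0 < N ∧ e ∈ E ∧ e ≠ 0 ∧ y ^ N = e * ∏ j, u j ^ m j

theorem zpow_prod_zpow {r : ℕ} (u : Fin r → ℂ) (m : Fin r → ℤ) (k : ℤ) :
    (∏ j, u j ^ m j) ^ k = ∏ j, u j ^ (m j * k) := by
  rw [← Finset.prod_zpow]
  exact Finset.prod_congr rfl fun j _ => (zpow_mul _ _ _).symm

section

variable (hq : q ≠ 0) (h0 : ∀ z ∈ R, z ≠ 0) (hdual : ∀ z ∈ R, (q : Ω) / z ∈ R)
  (hR : ∀ σ : Ω ≃ₐ[ℚ] Ω, ∀ z ∈ R, σ z ∈ R) (hneat : NeatOn R q)
  (ι : Ω →+* ℂ) (E : IntermediateField ℚ ℂ)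
  (hE : ∀ z ∈ R, ∃ σ : Ω ≃ₐ[ℚ] Ω, (∀ e : Ω, ι e ∈ E → σ e = e) ∧ σ z = q / z)

include hq h0 hdual hR hneat hE in
theorem dependent {r : ℕ} (u : Fin r → ℂ) (hu : ∀ j, u j ≠ 0) {κ : Type*} [Fintype κ]
    (hκ : r < Fintype.card κ) (w : κ → Ω → ℤ) (hw : ∀ i, IsOddOn R q (w i))
    (hG : ∀ i, InGroup E u (ι (mon R (w i)))) :
    ∃ b : κ → ℤ, b ≠ 0 ∧ ∑ i, b i • w i = 0 := by
  classical
  choose N e m hN heE he0 hrel using hG
  obtain ⟨b, hb0, hb⟩ := exists_int_relation r hκ m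
  refine ⟨fun i => b i * N i, ?_, ?_⟩
  · intro h
    apply hb0
    funext i
    have h1 := congrFun h i
    simp only [Pi.zero_apply] at h1 ⊢
    rcases mul_eq_zero.1 h1 with h2 | h2
    · exact h2
    · exact absurd h2 (by have := hN i; omega)
  · refine eq_zero_of_mem (E := {x : Ω | ι x ∈ E}) hq h0 hdual hR hneat hE
      (IsOddOn.sum fun i _ => (hw i).smul _) one_pos ?_
    change ι (_ ^ 1) ∈ E
    rw [pow_one, mon_sum h0, map_prod]
    have h1 : ∀ i, ι (mon R ((b i * N i : ℤ) • w i)) = e i ^ b i * ∏ j, u j ^ (m i j * b i) := by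
      intro i
      rw [mon_smul, map_zpow₀, mul_comm, zpow_mul, zpow_natCast, hrel i, mul_zpow, zpow_prod_zpow]
    rw [Finset.prod_congr rfl fun i _ => h1 i, Finset.prod_mul_distrib, Finset.prod_comm]
    have h2 : ∏ j, ∏ i, u j ^ (m i j * b i) = 1 := by
      refine Finset.prod_eq_one fun j _ => ?_
      have h3 : ∀ s : Finset κ, ∏ i ∈ s, u j ^ (m i j * b i) = u j ^ (∑ i ∈ s, b i * m i j) := by
        intro s
        induction s using Finset.induction_on with
        | empty => simp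
        | insert a s ha ih =>
          rw [Finset.prod_insert ha, Finset.sum_insert ha, ih, zpow_add₀ (hu j), mul_comm (m a j)]
      rw [h3, hb j, zpow_zero]
    rw [h2, mul_one]
    exact prod_mem fun i _ => zpow_mem (heE i) _

/-- The exponent of a tuple. -/
noncomputable def expo {n : ℕ} (q : ℕ) (z : Fin n → Ω) (y : Ω) : ℤ := by
  classical
  exact (Finset.univ.filter fun k => z k = y).card - (Finset.univ.filter fun k => z k = q / y).card

include hq in
theorem dd (y : Ω) : (q : Ω) / (q / y) = y := by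
  have : CharZero Ω := algebraRat.charZero Ω
  have hqΩ : (q : Ω) ≠ 0 := by exact_mod_cast hq
  exact div_div_cancel₀ hqΩ

include hq hdual in
theorem expo_odd {n : ℕ} (z : Fin n → Ω) (hz : ∀ k, z k ∈ R) : IsOddOn R q (expo q z) := by
  classical
  constructor
  · intro y hy
    have h1 : (Finset.univ.filter fun k => z k = y) = ∅ := by
      ext k
      simp only [Finset.mem_filter, Finset.mem_univ, true_and, Finset.notMem_empty, iff_false]
      rintro rfl
      exact hy (hz k)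
    have h2 : (Finset.univ.filter fun k => z k = q / y) = ∅ := by
      ext k
      simp only [Finset.mem_filter, Finset.mem_univ, true_and, Finset.notMem_empty, iff_false]
      intro h
      apply hy
      have h3 := hdual _ (hz k)
      rwa [h, dd hq] at h3
    unfold expo
    rw [h1, h2]
    simp
  · intro y
    unfold expo
    rw [dd hq]
    ring

theorem prod_zpow_card {n : ℕ} (z : Fin n → Ω) (hz : ∀ k, z k ∈ R) [DecidableEq Ω] :
    ∏ y ∈ R, y ^ (((Finset.univ.filter fun k => z k = y).card : ℕ) : ℤ) = ∏ k, z k := by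
  have h1 : ∀ y ∈ R, y ^ (((Finset.univ.filter fun k => z k = y).card : ℕ) : ℤ) =
      ∏ k ∈ Finset.univ.filter (fun k => z k = y), z k := by
    intro y _
    rw [zpow_natCast, ← Finset.prod_const]
    exact Finset.prod_congr rfl fun k hk => (Finset.mem_filter.1 hk).2.symm
  rw [Finset.prod_congr rfl h1]
  exact Finset.prod_fiberwise_of_maps_to (fun k _ => hz k) z

include hq h0 hdual in
theorem mon_expo {n : ℕ} (z : Fin n → Ω) (hz : ∀ k, z k ∈ R) :
    mon R (expo q z) * (q : Ω) ^ n = (∏ k, z k) ^ 2 := by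
  classical
  have h1 : mon R (expo q z) * ∏ y ∈ R, y ^ (((Finset.univ.filter fun k => z k = q / y).card : ℕ) : ℤ) =
      ∏ k, z k := by
    rw [mon, ← Finset.prod_mul_distrib, ← prod_zpow_card z hz]
    refine Finset.prod_congr rfl fun y hy => ?_
    rw [← zpow_add₀ (h0 y hy)]
    congr 1
    unfold expo
    ring_nf
  have h2 : ∏ y ∈ R, y ^ (((Finset.univ.filter fun k => z k = q / y).card : ℕ) : ℤ) =
      ∏ k, (q : Ω) / z k := by
    rw [← prod_zpow_card (fun k => (q : Ω) / z k) fun k => hdual _ (hz k)]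
    refine Finset.prod_congr rfl fun y hy => ?_
    congr 3
    ext k
    simp only [Finset.mem_filter, Finset.mem_univ, true_and]
    constructor
    · intro h
      rw [h, dd hq]
    · intro h
      rw [← h, dd hq]
  have h3 : (∏ k, (q : Ω) / z k) * ∏ k, z k = (q : Ω) ^ n := by
    rw [← Finset.prod_mul_distrib, Finset.prod_congr rfl fun k _ => div_mul_cancel₀ _ (h0 _ (hz k))]
    simp
  rw [← h3, ← mul_assoc, ← h2, h1, sq]

theorem expo_ne_zero' {n : ℕ} (hn : 0 < n) (z : Fin n → Ω) (hz : ∀ k, z k ∈ R)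
    (h0 : ∀ z ∈ R, z ≠ 0) (hsq : ∀ y ∈ R, y * y ≠ q)
    (hno : ∀ k l, k ≠ l → z k * z l ≠ q) : expo q z ≠ 0 := by
  classical
  intro h
  have h1 := congrFun h (z ⟨0, hn⟩)
  unfold expo at h1
  have h2 : (Finset.univ.filter fun k => z k = q / z ⟨0, hn⟩) = ∅ := by
    ext k
    simp only [Finset.mem_filter, Finset.mem_univ, true_and, Finset.notMem_empty, iff_false]
    intro h
    rw [eq_div_iff (h0 _ (hz _))] at h
    by_cases hk : k = ⟨0, hn⟩
    · subst hk
      exact hsq _ (hz _) h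
    · exact hno _ _ hk h
  rw [h2] at h1
  have h3 : 0 < (Finset.univ.filter fun k => z k = z ⟨0, hn⟩).card :=
    Finset.card_pos.2 ⟨⟨0, hn⟩, by simp⟩
  simp only [Finset.card_empty, Nat.cast_zero, sub_zero, Pi.zero_apply] at h1
  omega

include hneat in
theorem expo_ne_zero {n : ℕ} (hn : 0 < n) (z : Fin n → Ω) (hz : ∀ k, z k ∈ R) (h0 : ∀ z ∈ R, z ≠ 0)
    (hno : ∀ k l, k ≠ l → z k * z l ≠ q) : expo q z ≠ 0 := by
  refine expo_ne_zero' hn z hz h0 (fun y hy h => ?_) hno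
  obtain ⟨k', l', hkl, -⟩ := hneat 1 (fun _ => y) 2 1 one_pos two_pos (fun _ => hy) (by
    simp [sq, h])
  exact hkl (Subsingleton.elim _ _)

include hq h0 hdual hR hneat hE in
/-- **No relations with numbers of small rank.** -/
theorem exists_pair {r : ℕ} (u : Fin r → ℂ) (hu : ∀ j, u j ≠ 0)
    (hbig : ∀ w : Ω → ℚ, IsOddOn R q w → w ≠ 0 →
      r < finrank ℚ (span ℚ {v : Ω → ℚ | ∃ σ : Ω ≃ₐ[ℚ] Ω, v = w ∘ σ}))
    (ρ : Ω) (hρ : ∀ σ : Ω ≃ₐ[ℚ] Ω, InGroup E u (ι (σ ρ))) {s : ℕ} (hs : 0 < s) {n : ℕ} (hn : 0 < n)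
    (c : ℤ) {N : ℕ} (hN : 0 < N) (z : Fin n → Ω) (hz : ∀ k, z k ∈ R)
    (hrel : ((∏ k, z k) ^ s * ρ) ^ N = (((q : Ω) ^ s) ^ c) ^ N) :
    ∃ k l, k ≠ l ∧ z k * z l = q := by
  classical
  by_contra hno
  push Not at hno
  have : CharZero Ω := algebraRat.charZero Ω
  have hqΩ : (q : Ω) ≠ 0 := by exact_mod_cast hq
  have hqC : (q : ℂ) ≠ 0 := by exact_mod_cast hq
  set w := expo q z with hw
  have hodd : IsOddOn R q w := expo_odd hq hdual z hz
  have hw0 : w ≠ 0 := expo_ne_zero hneat hn z hz h0 hno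
  set wq : Ω → ℚ := fun y => w y with hwq
  have hoddq : IsOddOn R q wq := ⟨fun y hy => by simp [hwq, hodd.supp y hy], fun y => by
    simp [hwq, hodd.odd y]⟩
  have hwq0 : wq ≠ 0 := by
    intro h
    apply hw0
    funext y
    have := congrFun h y
    simpa [hwq] using this
  have h1 := hbig wq hoddq hwq0
  have hfin : Module.Finite ℚ (span ℚ {v : Ω → ℚ | ∃ σ : Ω ≃ₐ[ℚ] Ω, v = wq ∘ σ}) :=
    Module.finite_of_finrank_pos (by omega)
  obtain ⟨f, hf1, -, hf3⟩ := exists_fun_fin_finrank_span_eq ℚ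
    {v : Ω → ℚ | ∃ σ : Ω ≃ₐ[ℚ] Ω, v = wq ∘ σ}
  choose σ hσ using hf1
  -- the relation
  have hP0 : (∏ k, z k) ≠ 0 := Finset.prod_ne_zero_iff.2 fun k _ => h0 _ (hz k)
  have hρ0 : ρ ≠ 0 := by
    rintro rfl
    rw [mul_zero, zero_pow hN.ne'] at hrel
    exact pow_ne_zero _ (zpow_ne_zero _ (pow_ne_zero _ hqΩ)) hrel.symm
  have hmon : mon R w ^ (s * N) * ρ ^ (2 * N) = (q : Ω) ^ (2 * s * c * N - n * s * N) := by
    have h2 := mon_expo hq h0 hdual z hz
    rw [← hw] at h2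
    have h3 : (q : Ω) ^ (2 * s * c * N - n * s * N) = (((q : Ω) ^ s) ^ c) ^ (2 * N) /
        (q : Ω) ^ (n * s * N) := by
      rw [zpow_sub₀ hqΩ]
      congr 1
      · rw [← zpow_natCast, ← zpow_natCast, ← zpow_mul, ← zpow_mul]
        congr 1
        push_cast
        ring
      · exact_mod_cast zpow_natCast (q : Ω) (n * s * N)
    rw [h3, eq_div_iff (pow_ne_zero _ hqΩ)]
    calc mon R w ^ (s * N) * ρ ^ (2 * N) * (q : Ω) ^ (n * s * N)
        = (mon R w * (q : Ω) ^ n) ^ (s * N) * ρ ^ (2 * N) := by ring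
      _ = (((∏ k, z k) ^ s * ρ) ^ N) ^ 2 := by rw [h2]; ring
      _ = _ := by rw [hrel]; ring
  have hG : ∀ i, InGroup E u (ι (mon R (w ∘ σ i))) := by
    intro i
    obtain ⟨M, e, m, hM, he, he0, h4⟩ := hρ (σ i).symm
    have h5 := congrArg (fun x => ι ((σ i).symm x)) hmon
    simp only [map_mul, map_pow, map_mon hR, AlgEquiv.symm_symm, map_zpow₀, map_natCast] at h5
    refine ⟨s * N * M, (q : ℂ) ^ ((2 * s * c * N - n * s * N) * M) * e ^ (-(2 * N : ℤ)),
      fun j => m j * (-(2 * N : ℤ)), by positivity, ?_, ?_, ?_⟩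
    · exact mul_mem (zpow_mem (natCast_mem E q) _) (zpow_mem he _)
    · exact mul_ne_zero (zpow_ne_zero _ hqC) (zpow_ne_zero _ he0)
    · have h6 : ι ((σ i).symm ρ) ≠ 0 := by
        rw [Ne, map_eq_zero, map_eq_zero]
        exact hρ0
      have h7 : (ι ((σ i).symm ρ) ^ M) ^ (2 * N : ℤ) = (ι ((σ i).symm ρ) ^ (2 * N)) ^ M := by
        rw [← pow_mul, mul_comm (2 * N) M, pow_mul]
        exact_mod_cast rfl
      have h8 : (e * ∏ j, u j ^ m j) ^ (-(2 * N : ℤ)) = e ^ (-(2 * N : ℤ)) *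
          ∏ j, u j ^ (m j * (-(2 * N : ℤ))) := by rw [mul_zpow, zpow_prod_zpow]
      have h9 : ι (mon R (w ∘ (σ i))) ^ (s * N * M) =
          (q : ℂ) ^ ((2 * s * c * N - n * s * N) * M : ℤ) * (e ^ (-(2 * N : ℤ)) *
            ∏ j, u j ^ (m j * (-(2 * N : ℤ)))) := by
        rw [← h8, ← h4, zpow_mul, ← h5, zpow_neg, h7, zpow_natCast, mul_pow, pow_mul _ (s * N) M]
        field_simp
      exact h9.trans (mul_assoc _ _ _).symm
  obtain ⟨b, hb0, hb⟩ := dependent hq h0 hdual hR hneat ι E hE u hu (κ := Fin _)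
    (by rw [Fintype.card_fin]; exact h1) (fun i => w ∘ σ i) (fun i => hodd.comp hR (σ i)) hG
  apply hb0
  have h8 := Fintype.linearIndependent_iff.1 hf3 (fun i => (b i : ℚ)) (by
    funext y
    have h9 := congrFun hb y
    rw [Finset.sum_apply] at h9 ⊢
    simp only [Pi.smul_apply, Function.comp_apply, smul_eq_mul, Pi.zero_apply] at h9 ⊢
    have h10 : ∀ i, f i y = w (σ i y) := fun i => by rw [hσ i]; rfl
    rw [Finset.sum_congr rfl fun i _ => by rw [h10 i]]
    exact_mod_cast h9)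
  funext i
  have := h8 i
  exact_mod_cast this

end

end Pool.Agent.T2h14.NR
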