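import Mathlib
import Pool.Agent.T2h14.NR.Defs
import Pool.Agent.T2h14.NR.Rank

/-!
# The relations that occur in the cohomology
-/

set_option autoImplicit false
set_option linter.unusedSectionVars false

namespace Pool.Agent.T2h14.NR

open Polynomial Module Submodule Pool.Agent.W484.AA Pool.Agent.W484.HS Pool.Agent.W484.TB

theorem mem_qbar {z : ℂ} {p : ℚ[X]} (hp : p ≠ 0) (hz : aeval z p = 0) : z ∈ QBar := by
  rw [mem_algebraicClosure_iff]
  exact ⟨p, hp, hz⟩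

theorem aeval_coe_int (p : ℤ[X]) (z : QBar) : aeval (z : ℂ) p = 0 ↔ aeval z p = 0 := by
  have h := Polynomial.aeval_algebraMap_apply ℂ z p
  constructor
  · intro h1
    apply (algebraMap QBar ℂ).injective
    rw [map_zero, ← h]
    exact h1
  · intro h1
    have h2 : aeval ((algebraMap QBar ℂ) z) p = 0 := by rw [h, h1, map_zero]
    exact h2

theorem aeval_coe_rat (p : ℚ[X]) (z : QBar) : aeval (z : ℂ) p = 0 ↔ aeval z p = 0 := by
  have h := Polynomial.aeval_algebraMap_apply ℂ z p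
  constructor
  · intro h1
    apply (algebraMap QBar ℂ).injective
    rw [map_zero, ← h]
    exact h1
  · intro h1
    have h2 : aeval ((algebraMap QBar ℂ) z) p = 0 := by rw [h, h1, map_zero]
    exact h2

theorem mem_qbar_int {z : ℂ} {p : ℤ[X]} (hp : p ≠ 0) (hz : aeval z p = 0) : z ∈ QBar := by
  refine mem_qbar (p := p.map (algebraMap ℤ ℚ)) ?_ ?_
  · exact (Polynomial.map_ne_zero_iff (algebraMap ℤ ℚ).injective_int).2 hp
  · rw [aeval_map_algebraMap]
    exact hz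

section

variable {I : Type} [Finite I] {f : I → ℤ[X]} (hf : ∀ i, f i ≠ 0)

include hf in
theorem finite_roots : {z : QBar | ∃ i, aeval z (f i) = 0}.Finite := by
  have h : {z : QBar | ∃ i, aeval z (f i) = 0} = ⋃ i, {z : QBar | aeval z (f i) = 0} := by
    ext z
    simp
  rw [h]
  refine Set.finite_iUnion fun i => ?_
  have h1 : (f i).map (algebraMap ℤ QBar) ≠ 0 :=
    (Polynomial.map_ne_zero_iff (algebraMap ℤ QBar).injective_int).2 (hf i)
  refine (((f i).map (algebraMap ℤ QBar)).roots.toFinset.finite_toSet).subset fun z hz => ?_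
  rw [Finset.mem_coe, Multiset.mem_toFinset, mem_roots h1, IsRoot.def, eval_map]
  exact hz

/-- The set of the roots. -/
noncomputable def rts (hf : ∀ i, f i ≠ 0) : Finset QBar := (finite_roots hf).toFinset

theorem mem_rts {z : QBar} : z ∈ rts hf ↔ ∃ i, aeval z (f i) = 0 := by
  rw [rts, Set.Finite.mem_toFinset]
  rfl

variable {q : ℕ} (hq : q ≠ 0) (hdual : SelfDual q f)

include hdual in
theorem rts_ne_zero : ∀ z ∈ rts hf, z ≠ 0 := by
  rintro z hz rfl
  obtain ⟨i, hi⟩ := (mem_rts hf).1 hz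
  exact (hdual i 0 ((aeval_coe_int (f i) 0).2 hi)).1 rfl

include hdual in
theorem rts_dual : ∀ z ∈ rts hf, (q : QBar) / z ∈ rts hf := by
  intro z hz
  obtain ⟨i, hi⟩ := (mem_rts hf).1 hz
  refine (mem_rts hf).2 ⟨i, (aeval_coe_int _ _).1 ?_⟩
  have h := (hdual i z ((aeval_coe_int (f i) z).2 hi)).2
  push_cast
  exact h

theorem rts_stable (σ : QBar ≃ₐ[ℚ] QBar) : ∀ z ∈ rts hf, σ z ∈ rts hf := by
  intro z hz
  obtain ⟨i, hi⟩ := (mem_rts hf).1 hz
  refine (mem_rts hf).2 ⟨i, ?_⟩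
  have h := Polynomial.hom_eval₂ (f i) (algebraMap ℤ QBar) (σ : QBar →+* QBar) z
  rw [RingHom.ext_int ((σ : QBar →+* QBar).comp (algebraMap ℤ QBar)) (algebraMap ℤ QBar)] at h
  have h2 : eval₂ (algebraMap ℤ QBar) z (f i) = 0 := hi
  rw [h2, map_zero] at h
  exact h.symm

theorem rts_neat (hneat : Neat q f) : NeatOn (rts hf) q := by
  intro n z N c hn hN hz hrel
  obtain ⟨k, l, hkl, h⟩ := hneat n (fun k => z k) N c hn hN (fun k => by
    obtain ⟨i, hi⟩ := (mem_rts hf).1 (hz k)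
    exact ⟨i, (aeval_coe_int (f i) (z k)).2 hi⟩) (by
    have h1 := congrArg (algebraMap QBar ℂ) hrel
    rw [map_pow, map_prod, map_zpow₀, map_natCast] at h1
    exact h1)
  refine ⟨k, l, hkl, ?_⟩
  apply (algebraMap QBar ℂ).injective
  rw [map_mul, map_natCast]
  exact h

theorem isOddOn_rts {w : QBar → ℚ} : IsOddOn (rts hf) q w ↔ IsOdd q f w := by
  constructor
  · intro h
    refine ⟨fun z hz => ?_, h.odd⟩
    by_contra h1
    exact hz (h.supp z fun h2 => h1 ((mem_rts hf).1 h2))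
  · intro h
    refine ⟨fun z hz => ?_, h.2⟩
    by_contra h1
    exact hz ((mem_rts hf).2 (h.1 z h1))

variable (E : IntermediateField ℚ ℂ) {r : ℕ}

include hf hq hdual in
/-- **The relations over the complex numbers.** -/
theorem exists_pair_complex (h1 : Neat q f) (h2 : ConjugateOver E q f) (h3 : LargeSpans q r f)
    {χ : ℚ[X]} (hχ : χ ≠ 0) (hrank : RankLEOver E r {ρ : ℂ | aeval ρ χ = 0}) {ρ : ℂ}
    (hρ : aeval ρ χ = 0) {s : ℕ} (hs : 0 < s) {n : ℕ} (hn : 0 < n) (c : ℤ) {N : ℕ} (hN : 0 < N)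
    (z : Fin n → ℂ) (hz : ∀ k, ∃ i, aeval (z k) (f i) = 0)
    (hrel : ((∏ k, z k) ^ s * ρ) ^ N = (((q : ℂ) ^ s) ^ c) ^ N) :
    ∃ k l, k ≠ l ∧ z k * z l = q := by
  obtain ⟨u, hu, hu2⟩ := hrank
  have hz' : ∀ k, z k ∈ QBar := fun k => by
    obtain ⟨i, hi⟩ := hz k
    exact mem_qbar_int (hf i) hi
  have hρ' : ρ ∈ QBar := mem_qbar hχ hρ
  obtain ⟨k, l, hkl, h⟩ := exists_pair (R := rts hf) hq (rts_ne_zero hf hdual) (rts_dual hf hdual)
    (rts_stable hf) (rts_neat hf h1) (algebraMap QBar ℂ) E (fun z hz => by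
      obtain ⟨σ, hσ1, hσ2⟩ := h2 z ((mem_rts hf).1 hz)
      exact ⟨σ, fun e he => hσ1 e he, hσ2⟩) u hu (fun w hw hw0 => h3 w ((isOddOn_rts hf).1 hw) hw0)
    ⟨ρ, hρ'⟩ (fun σ => by
      refine hu2 (algebraMap QBar ℂ (σ ⟨ρ, hρ'⟩)) ?_
      change aeval ((σ ⟨ρ, hρ'⟩ : QBar) : ℂ) χ = 0
      rw [aeval_coe_rat]
      have h4 := Polynomial.aeval_algHom_apply (σ : QBar →ₐ[ℚ] QBar) ⟨ρ, hρ'⟩ χ
      have h5 : aeval (⟨ρ, hρ'⟩ : QBar) χ = 0 := (aeval_coe_rat χ ⟨ρ, hρ'⟩).1 hρ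
      rw [h5, map_zero] at h4
      exact h4) hs hn c hN (fun k => ⟨z k, hz' k⟩) (fun k => by
      obtain ⟨i, hi⟩ := hz k
      exact (mem_rts hf).2 ⟨i, (aeval_coe_int (f i) ⟨z k, hz' k⟩).1 hi⟩) (by
      apply (algebraMap QBar ℂ).injective
      rw [map_pow, map_mul, map_pow, map_prod, map_pow, map_zpow₀, map_pow, map_natCast]
      exact hrel)
  refine ⟨k, l, hkl, ?_⟩
  have h4 := congrArg (algebraMap QBar ℂ) h
  rw [map_mul, map_natCast] at h4
  exact h4

end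

/-- No relations. -/
def NoRelations (E : IntermediateField ℚ ℂ) (q r : ℕ) {I : Type} (f : I → ℤ[X]) : Prop :=
  ∀ χ : ℚ[X], χ ≠ 0 → RankLEOver E r {ρ : ℂ | aeval ρ χ = 0} → ∀ ρ : ℂ, aeval ρ χ = 0 →
    ∀ s : ℕ, 0 < s → ∀ n : ℕ, 0 < n → ∀ (c : ℤ) (N : ℕ), 0 < N → ∀ z : Fin n → ℂ,
      (∀ k, ∃ i, aeval (z k) (f i) = 0) →
      ((∏ k, z k) ^ s * ρ) ^ N = (((q : ℂ) ^ s) ^ c) ^ N → ∃ k l, k ≠ l ∧ z k * z l = q

section pair

variable {I : Type} {f : I → ℤ[X]} {q : ℕ} (E : IntermediateField ℚ ℂ) {r : ℕ}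

theorem exactPair_of (h : NoRelations E q r f) {s : ℕ} (hs : 0 < s) {χ : ℚ[X]} (hχ : χ ≠ 0)
    (hrank : RankLEOver E r {ρ : ℂ | aeval ρ χ = 0}) {ρ : ℂ} (hρ : aeval ρ χ = 0) :
    ExactPair (fun z : {z : ℂ // ∃ i, aeval z (f i) = 0} => (z : ℂ) ^ s) ((q : ℂ) ^ s) ρ := by
  intro n c N hN hn ys hlen hrel hpw
  let X := {z : ℂ // ∃ i, aeval z (f i) = 0}
  obtain ⟨k, l, hkl, hkl2⟩ := h χ hχ hrank ρ hρ s hs n hn c N hN
    (fun l => ((ys.get (Fin.cast hlen.symm l) : X) : ℂ))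
    (fun l => (ys.get (Fin.cast hlen.symm l)).2) (by
    rw [← hrel]
    congr 2
    have h6 : ∏ l : Fin n, ((ys.get (Fin.cast hlen.symm l) : X) : ℂ) =
        (ys.map (fun y : X => (y : ℂ))).prod := by
      have h61 : ∏ l : Fin n, ((ys.get (Fin.cast hlen.symm l) : X) : ℂ) =
          ∏ l : Fin ys.length, ((ys.get l : X) : ℂ) :=
        Fintype.prod_equiv (finCongr hlen.symm) _ _ fun l => rfl
      rw [h61, ← List.prod_ofFn]
      congr 1
      apply List.ext_getElem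
      · simp
      · intro i h1 h2
        simp
    rw [h6]
    have h7 : ∀ ys : List X, (ys.map (fun y : X => (y : ℂ))).prod ^ s =
        (ys.map (fun y : X => (y : ℂ) ^ s)).prod := by
      intro ys
      induction ys with
      | nil => simp
      | cons y ys ih =>
        rw [List.map_cons, List.prod_cons, mul_pow, ih, List.map_cons, List.prod_cons]
    exact h7 ys)
  have hbad : ∀ k' l' : Fin ys.length, k' < l' →
      ((ys.get k' : X) : ℂ) * ((ys.get l' : X) : ℂ) ≠ q := by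
    intro k' l' hkl h8
    refine (List.pairwise_iff_get.1 hpw) k' l' hkl ?_
    change ((ys.get k' : X) : ℂ) ^ s * ((ys.get l' : X) : ℂ) ^ s = _
    rw [← mul_pow, h8]
  rcases lt_or_gt_of_ne hkl with h1 | h1
  · exact hbad _ _ h1 hkl2
  · rw [mul_comm] at hkl2
    exact hbad _ _ h1 hkl2

/-- The relations for a field of characteristic zero. -/
theorem exactPairK_of (hf : ∀ i, f i ≠ 0) (h : NoRelations E q r f) {s : ℕ} (hs : 0 < s)
    {χ : ℚ[X]} (hχ : χ ≠ 0) (hrank : RankLEOver E r {ρ : ℂ | aeval ρ χ = 0})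
    {K : Type*} [Field K] [CharZero K] {ρ : K} (hρ : aeval ρ χ = 0) :
    ExactPairK (fun z : {z : K // ∃ i, aeval z (f i) = 0} => (z : K) ^ s) ((q : K) ^ s) ρ := by
  classical
  have hmem : ∀ z : K, (∃ p : ℚ[X], p ≠ 0 ∧ aeval z p = 0) → z ∈ algebraicClosure ℚ K := by
    rintro z ⟨p, hp, hz⟩
    rw [mem_algebraicClosure_iff]
    exact ⟨p, hp, hz⟩
  have halg : Algebra.IsAlgebraic ℚ (algebraicClosure ℚ K) := algebraicClosure.isAlgebraic ℚ K
  let j : algebraicClosure ℚ K →ₐ[ℚ] ℂ := IsAlgClosed.lift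
  have hρm := hmem ρ ⟨χ, hχ, hρ⟩
  have hρj : aeval (j ⟨ρ, hρm⟩) χ = 0 := by
    rw [Polynomial.aeval_algHom_apply]
    have h1 : aeval (⟨ρ, hρm⟩ : algebraicClosure ℚ K) χ = 0 := by
      apply (algebraMap (algebraicClosure ℚ K) K).injective
      rw [← Polynomial.aeval_algebraMap_apply, map_zero]
      exact hρ
    rw [h1, map_zero]
  have h0 := exactPair_of E h hs hχ hrank hρj
  have hzm : ∀ z : {z : K // ∃ i, aeval z (f i) = 0}, (z : K) ∈ algebraicClosure ℚ K := by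
    rintro ⟨z, i, hi⟩
    refine hmem z ⟨(f i).map (algebraMap ℤ ℚ), ?_, ?_⟩
    · exact (Polynomial.map_ne_zero_iff (algebraMap ℤ ℚ).injective_int).2 (hf i)
    · rw [aeval_map_algebraMap]
      exact hi
  have hz : ∀ z : {z : K // ∃ i, aeval z (f i) = 0}, ∃ i, aeval (j ⟨z, hzm z⟩) (f i) = 0 := by
    rintro ⟨z, i, hi⟩
    refine ⟨i, ?_⟩
    have h2 := Polynomial.hom_eval₂ (f i) (algebraMap ℤ _)
      (j : algebraicClosure ℚ K →+* ℂ) ⟨z, hzm ⟨z, i, hi⟩⟩
    rw [RingHom.ext_int ((j : algebraicClosure ℚ K →+* ℂ).comp (algebraMap ℤ _))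
      (algebraMap ℤ ℂ)] at h2
    have h3 : eval₂ (algebraMap ℤ (algebraicClosure ℚ K)) (⟨z, hzm ⟨z, i, hi⟩⟩ :
        algebraicClosure ℚ K) (f i) = 0 := by
      apply (algebraMap (algebraicClosure ℚ K) K).injective
      rw [map_zero, Polynomial.hom_eval₂, RingHom.ext_int ((algebraMap (algebraicClosure ℚ K)
        K).comp (algebraMap ℤ _)) (algebraMap ℤ K)]
      exact hi
    rw [h3, map_zero] at h2
    exact h2.symm
  intro n c N hN hn ys hlen hrel hpw
  let φ : {z : K // ∃ i, aeval z (f i) = 0} → {z : ℂ // ∃ i, aeval z (f i) = 0} :=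
    fun z => ⟨j ⟨z, hzm z⟩, hz z⟩
  have hrel0 : ((ys.map (fun z : {z : K // ∃ i, aeval z (f i) = 0} =>
      (⟨z, hzm z⟩ : algebraicClosure ℚ K) ^ s)).prod * ⟨ρ, hρm⟩) ^ N =
      (((q : algebraicClosure ℚ K) ^ s) ^ c) ^ N := by
    apply (algebraMap (algebraicClosure ℚ K) K).injective
    rw [map_pow, map_mul, _root_.map_list_prod, List.map_map, map_pow, map_zpow₀, map_pow,
      map_natCast]
    exact hrel
  refine h0 n c N hN hn (ys.map φ) (by rw [List.length_map, hlen]) ?_ ?_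
  · have h4 := congrArg j hrel0
    rw [map_pow, map_mul, _root_.map_list_prod j, List.map_map, map_pow, map_zpow₀, map_pow,
      map_natCast] at h4
    rw [List.map_map, ← h4]
    congr 4
    funext z
    change (j ⟨z, hzm z⟩) ^ s = j (⟨z, hzm z⟩ ^ s)
    rw [map_pow]
  · rw [List.pairwise_map]
    refine hpw.imp ?_
    intro a b hab h5
    apply hab
    change (j ⟨a, hzm a⟩) ^ s * (j ⟨b, hzm b⟩) ^ s = (q : ℂ) ^ s at h5
    have h6 : (⟨a, hzm a⟩ : algebraicClosure ℚ K) ^ s * ⟨b, hzm b⟩ ^ s =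
        (q : algebraicClosure ℚ K) ^ s := by
      apply (j : algebraicClosure ℚ K →+* ℂ).injective
      rw [map_mul, map_pow, map_pow, map_pow, map_natCast]
      exact h5
    have h7 := congrArg (algebraMap (algebraicClosure ℚ K) K) h6
    rw [map_mul, map_pow, map_pow, map_pow, map_natCast] at h7
    exact h7

end pair

end Pool.Agent.T2h14.NR
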