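import Mathlib
import Pool.Agent.T2h14.NR.Over

/-!
# The conditions are necessary
-/

set_option autoImplicit false
set_option linter.unusedSectionVars false

namespace Pool.Agent.T2h14.NR

open Polynomial Module Submodule Pool.Agent.W484.AA Pool.Agent.W484.HS Pool.Agent.W484.TB

instance isAlgClosureQBar : IsAlgClosure ℚ QBar := algebraicClosure.isAlgClosure ℚ ℂ

instance normalQBar : Normal ℚ QBar := IsAlgClosure.normal ℚ QBar

instance isGaloisQBar : IsGalois ℚ QBar where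

variable {I : Type} {f : I → ℤ[X]} {q : ℕ} {E : IntermediateField ℚ ℂ} {r : ℕ}

/-- Neatness is necessary. -/
theorem neat_of (hq : q ≠ 0) (h : NoRelations E q r f) : Neat q f := by
  intro n z N c hn hN hz hrel
  have hqC : (q : ℂ) ≠ 0 := by exact_mod_cast hq
  have hP : ∏ k, z k ≠ 0 := by
    intro h0
    rw [h0, zero_pow hN.ne'] at hrel
    exact zpow_ne_zero _ hqC hrel.symm
  set χ : ℚ[X] := X ^ N - Polynomial.C ((q : ℚ) ^ (-c)) with hχ
  have hroot : ∀ ρ : ℂ, aeval ρ χ = 0 ↔ ρ ^ N = (q : ℂ) ^ (-c) := by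
    intro ρ
    rw [hχ, map_sub, map_pow, aeval_X, aeval_C, sub_eq_zero]
    simp
  refine h χ (X_pow_sub_C_ne_zero hN _) ⟨fun _ => 1, fun _ => one_ne_zero, fun ρ hρ =>
    ⟨N, (q : ℂ) ^ (-c), fun _ => 0, hN, zpow_mem (natCast_mem E q) _, zpow_ne_zero _ hqC, ?_⟩⟩
    (∏ k, z k)⁻¹ ?_ 1 one_pos n hn 0 1 one_pos z hz ?_
  · rw [(hroot ρ).1 hρ]
    simp
  · rw [hroot, inv_pow, hrel, zpow_neg]
  · simp only [pow_one, zpow_zero]
    exact mul_inv_cancel₀ hP

variable [Finite I] (hm : ∀ i, f i ≠ 0)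

/-- All complex roots of the minimal polynomial are conjugates. -/
theorem exists_conj (ρ : QBar) {y : ℂ} (hy : aeval y (minpoly ℚ ρ) = 0) :
    ∃ σ : QBar ≃ₐ[ℚ] QBar, ((σ ρ : QBar) : ℂ) = y := by
  have hint : IsAlgebraic ℚ ρ := Algebra.IsAlgebraic.isAlgebraic ρ
  have hy' : y ∈ QBar := mem_qbar (minpoly.ne_zero hint.isIntegral) hy
  obtain ⟨σ, hσ⟩ := minpoly.exists_algEquiv_of_root' (x := (⟨y, hy'⟩ : QBar)) hint
    ((aeval_coe_rat _ ⟨y, hy'⟩).1 hy)
  exact ⟨σ, by rw [hσ]⟩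

theorem minpoly_ne (ρ : QBar) : minpoly ℚ ρ ≠ 0 :=
  minpoly.ne_zero (Algebra.IsAlgebraic.isAlgebraic ρ : IsAlgebraic ℚ ρ).isIntegral

theorem aeval_minpoly_coe (ρ : QBar) : aeval (ρ : ℂ) (minpoly ℚ ρ) = 0 :=
  (aeval_coe_rat _ _).2 (minpoly.aeval ℚ ρ)

theorem normal_stable (E : IntermediateField ℚ ℂ) [Normal ℚ E] (σ : QBar ≃ₐ[ℚ] QBar) (e : QBar)
    (he : (e : ℂ) ∈ E) : ((σ e : QBar) : ℂ) ∈ E := by
  set x : E := ⟨e, he⟩ with hx
  have h1 := Normal.splits (F := ℚ) (K := E) inferInstance x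
  have h2 : aeval ((σ e : QBar) : ℂ) (minpoly ℚ x) = 0 := by
    rw [aeval_coe_rat]
    have h3 := Polynomial.aeval_algHom_apply (σ : QBar →ₐ[ℚ] QBar) e (minpoly ℚ x)
    have h4 : aeval e (minpoly ℚ x) = 0 := by
      rw [← aeval_coe_rat]
      have h5 := Polynomial.aeval_algebraMap_apply ℂ x (minpoly ℚ x)
      rw [minpoly.aeval, map_zero] at h5
      exact h5
    rw [h4, map_zero] at h3
    exact h3
  have h3 : (minpoly ℚ x).map (algebraMap ℚ E) ≠ 0 :=
    (Polynomial.map_ne_zero_iff (algebraMap ℚ E).injective).2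
      (minpoly.ne_zero (Normal.isIntegral inferInstance x))
  have h4 := h1.mem_range_of_isRoot (S := ℂ) (x := ((σ e : QBar) : ℂ)) h3 (by
    rw [IsRoot.def, eval_map_algebraMap, aeval_map_algebraMap]
    exact h2)
  obtain ⟨y, hy⟩ := h4
  rw [← hy]
  exact y.2

include hm in
/-- Conjugacy over `E` is necessary if `E` is normal. -/
theorem conjugateOver_of (hd : SelfDual q f)
    (hE : ∀ σ : QBar ≃ₐ[ℚ] QBar, ∀ e : QBar, (e : ℂ) ∈ E → ((σ e : QBar) : ℂ) ∈ E)
    (h : NoRelations E q r f) : ConjugateOver E q f := by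
  classical
  intro z hz
  set S : Set (QBar ≃ₐ[ℚ] QBar) := {σ | ∀ e : QBar, (e : ℂ) ∈ E → σ e = e} with hS
  have hmul : ∀ σ ∈ S, ∀ τ ∈ S, σ.trans τ ∈ S := fun σ hσ τ hτ e he => by
    rw [AlgEquiv.trans_apply, hσ e he, hτ e he]
  have hinv : ∀ σ ∈ S, σ.symm ∈ S := fun σ hσ e he => by
    rw [AlgEquiv.symm_apply_eq, hσ e he]
  set O : Finset QBar := (rts hm).filter (fun y => ∃ σ ∈ S, y = σ z) with hO
  have hzR : z ∈ rts hm := (mem_rts hm).2 hz
  have hzO : z ∈ O := Finset.mem_filter.2 ⟨hzR, AlgEquiv.refl, fun e _ => rfl, rfl⟩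
  have h0 := rts_ne_zero hm hd
  set P : QBar := ∏ y ∈ O, y with hP
  have hP0 : P ≠ 0 := Finset.prod_ne_zero_iff.2 fun y hy => h0 y (Finset.mem_filter.1 hy).1
  have hfix : ∀ σ ∈ S, σ P = P := by
    intro σ hσ
    rw [hP, map_prod]
    refine Finset.prod_bij' (fun y _ => σ y) (fun y _ => σ.symm y) ?_ ?_
      (fun y _ => σ.symm_apply_apply y) (fun y _ => σ.apply_symm_apply y) (fun y _ => rfl)
    · intro y hy
      obtain ⟨h1, τ, hτ, h2⟩ := Finset.mem_filter.1 hy
      refine Finset.mem_filter.2 ⟨rts_stable hm σ y h1, τ.trans σ, hmul τ hτ σ hσ, ?_⟩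
      rw [h2]
      rfl
    · intro y hy
      obtain ⟨h1, τ, hτ, h2⟩ := Finset.mem_filter.1 hy
      refine Finset.mem_filter.2 ⟨rts_stable hm σ.symm y h1, τ.trans σ.symm,
        hmul τ hτ _ (hinv σ hσ), ?_⟩
      rw [h2]
      rfl
  let E' : IntermediateField ℚ QBar := E.comap QBar.val
  have hPE : P ∈ E' := by
    rw [← InfiniteGalois.fixedField_fixingSubgroup E', IntermediateField.mem_fixedField_iff]
    intro σ hσ
    exact hfix σ fun e he => (IntermediateField.mem_fixingSubgroup_iff E' σ).1 hσ e he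
  have hPE' : (P : ℂ) ∈ E := hPE
  obtain ⟨n, y, hn, hy, hprod⟩ := exists_tuple (rts hm) (fun y => if y ∈ O then 1 else 0)
  have hn0 : 0 < n := by
    rw [hn]
    refine lt_of_lt_of_le ?_ (Finset.single_le_sum (f := fun y => if y ∈ O then 1 else 0)
      (fun _ _ => Nat.zero_le _) hzR)
    simp [hzO]
  have hyO : ∀ k, y k ∈ O := fun k => by
    by_contra h1
    exact (hy k).2 (if_neg h1)
  have hPprod : ∏ k, y k = P := by
    rw [hprod, hP]
    have h1 : ∀ y ∈ rts hm, y ^ (if y ∈ O then 1 else 0) = if y ∈ O then y else 1 := by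
      intro y _
      split_ifs <;> simp
    rw [Finset.prod_congr rfl h1, ← Finset.prod_filter]
    congr 1
    ext y
    rw [Finset.mem_filter]
    exact ⟨fun h => h.2, fun h => ⟨(Finset.mem_filter.1 h).1, h⟩⟩
  obtain ⟨k, l, hkl, h1⟩ := h (minpoly ℚ P⁻¹) (minpoly_ne _) ⟨fun _ => 1, fun _ => one_ne_zero,
    fun ρ hρ => by
      obtain ⟨σ, hσ⟩ := exists_conj P⁻¹ hρ
      refine ⟨1, ρ, fun _ => 0, one_pos, ?_, ?_, by simp⟩
      · rw [← hσ]
        exact hE σ _ (inv_mem (S := IntermediateField ℚ QBar) (s := E') hPE)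
      · rw [← hσ]
        have h2 : σ P⁻¹ ≠ 0 := by
          rw [Ne, map_eq_zero]
          exact inv_ne_zero hP0
        intro h3
        exact h2 ((algebraMap QBar ℂ).injective (by rw [map_zero]; exact h3))⟩
    ((P⁻¹ : QBar) : ℂ) (aeval_minpoly_coe _) 1 one_pos n hn0 0 1 one_pos (fun k => y k)
    (fun k => by
      obtain ⟨i, hi⟩ := (mem_rts hm).1 (Finset.mem_filter.1 (hyO k)).1
      exact ⟨i, (aeval_coe_int _ _).2 hi⟩) (by
      have h2 : (∏ k, y k) * P⁻¹ = 1 := by rw [hPprod, mul_inv_cancel₀ hP0]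
      have h3 := congrArg (algebraMap QBar ℂ) h2
      rw [map_mul, map_prod, map_one] at h3
      simp only [pow_one, zpow_zero]
      exact h3)
  have h2 : y k * y l = (q : QBar) := by
    apply (algebraMap QBar ℂ).injective
    rw [map_mul, map_natCast]
    exact h1
  obtain ⟨-, σ, hσ, h3⟩ := Finset.mem_filter.1 (hyO k)
  obtain ⟨-, τ, hτ, h4⟩ := Finset.mem_filter.1 (hyO l)
  refine ⟨τ.trans σ.symm, hmul τ hτ _ (hinv σ hσ), ?_⟩
  rw [AlgEquiv.trans_apply, ← h4, AlgEquiv.symm_apply_eq, map_div₀, map_natCast, ← h3,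
    eq_div_iff (h0 _ (Finset.mem_filter.1 (hyO k)).1), mul_comm, h2]

include hm in
/-- The condition on the dimensions is necessary. -/
theorem largeSpans_of (hd : SelfDual q f) (hq : q ≠ 0) (h : NoRelations E q r f) :
    LargeSpans q r f := by
  classical
  intro w hw hw0
  by_contra hlt
  push Not at hlt
  have h0 := rts_ne_zero hm hd
  have hdual := rts_dual hm hd
  have hR := rts_stable hm
  have hodd : IsOddOn (rts hm) q w := (isOddOn_rts hm).2 hw
  have hqC : (q : ℂ) ≠ 0 := by exact_mod_cast hq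
  -- an integral multiple
  set D : ℕ := ∏ y ∈ rts hm, (w y).den with hD
  have hD0 : D ≠ 0 := Finset.prod_ne_zero_iff.2 fun y _ => (w y).den_nz
  have hint : ∀ y, ∃ a : ℤ, (a : ℚ) = D * w y := by
    intro y
    by_cases hy : y ∈ rts hm
    · obtain ⟨b, hb⟩ := Finset.dvd_prod_of_mem (fun y => (w y).den) hy
      refine ⟨b * (w y).num, ?_⟩
      rw [hD, hb]
      have h1 : ((w y).den : ℚ) * w y = (w y).num := by
        rw [mul_comm]
        exact Rat.mul_den_eq_num (w y)
      push_cast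
      rw [mul_comm ((w y).den : ℚ) b, mul_assoc, h1]
    · exact ⟨0, by rw [hodd.supp y hy]; simp⟩
  choose v hv using hint
  have hvodd : IsOddOn (rts hm) q v := by
    constructor
    · intro y hy
      have h1 := hv y
      rw [hodd.supp y hy, mul_zero] at h1
      exact_mod_cast h1
    · intro y
      have h1 := hv (q / y)
      rw [hodd.odd, mul_neg, ← hv y] at h1
      exact_mod_cast h1
  have hv0 : v ≠ 0 := by
    intro h1
    apply hw0
    funext y
    have h2 := hv y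
    rw [h1] at h2
    simp only [Pi.zero_apply, Int.cast_zero] at h2 ⊢
    rcases mul_eq_zero.1 h2.symm with h3 | h3
    · exact absurd h3 (by exact_mod_cast hD0)
    · exact h3
  -- the span
  set T : Set (QBar → ℚ) := {v : QBar → ℚ | ∃ σ : QBar ≃ₐ[ℚ] QBar, v = w ∘ σ} with hT
  have hfin : Module.Finite ℚ (span ℚ T) := by
    let φ : (rts hm → ℚ) →ₗ[ℚ] (QBar → ℚ) :=
      { toFun := fun a y => if hy : y ∈ rts hm then a ⟨y, hy⟩ else 0
        map_add' := fun a b => by
          funext y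
          by_cases hy : y ∈ rts hm <;> simp [hy]
        map_smul' := fun c a => by
          funext y
          by_cases hy : y ∈ rts hm <;> simp [hy] }
    have hle : span ℚ T ≤ LinearMap.range φ := by
      rw [span_le]
      rintro _ ⟨σ, rfl⟩
      refine ⟨fun y => w (σ y), ?_⟩
      funext y
      by_cases hy : y ∈ rts hm
      · simp [φ, hy]
      · have h1 := (hodd.comp hR σ).supp y hy
        simp only [Function.comp_apply] at h1
        simp [φ, hy, h1]
    exact Module.Finite.of_injective (inclusion hle) (inclusion_injective hle)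
  obtain ⟨b, hb1, hb2, -⟩ := exists_fun_fin_finrank_span_eq ℚ T
  choose τ hτ using hb1
  let u : Fin r → ℂ := fun j => if hj : (j : ℕ) < finrank ℚ (span ℚ T) then
    ((mon (rts hm) (v ∘ τ ⟨j, hj⟩) : QBar) : ℂ) else 1
  have hmon0 : ∀ v : QBar → ℤ, ((mon (rts hm) v : QBar) : ℂ) ≠ 0 := fun v h1 =>
    mon_ne_zero h0 v ((algebraMap QBar ℂ).injective (by rw [map_zero]; exact h1))
  have hu : ∀ j, u j ≠ 0 := by
    intro j
    simp only [u]
    split_ifs
    · exact hmon0 _
    · exact one_ne_zero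
  -- the number
  obtain ⟨n, z, hn, hz, hprod⟩ := exists_tuple (rts hm) (fun y => (v y).toNat)
  have hn0 : 0 < n := by
    rw [Nat.pos_iff_ne_zero]
    intro hn00
    apply hv0
    have h1 : ∀ y ∈ rts hm, (v y).toNat = 0 := by
      rw [hn00] at hn
      exact fun y hy => Finset.sum_eq_zero_iff.1 hn.symm y hy
    funext y
    by_cases hy : y ∈ rts hm
    · have h2 := h1 y hy
      have h3 := h1 _ (hdual y hy)
      rw [hvodd.odd] at h3
      change v y = 0
      omega
    · exact hvodd.supp y hy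
  set P : QBar := ∏ k, z k with hP
  have hP0 : P ≠ 0 := Finset.prod_ne_zero_iff.2 fun k _ => h0 _ (hz k).1
  have hsq : ∀ σ : QBar ≃ₐ[ℚ] QBar, mon (rts hm) (v ∘ σ) * (q : QBar) ^ n = (σ.symm P) ^ 2 := by
    intro σ
    have h1 := mon_eq hq h0 hdual hvodd
    rw [← hn, ← hprod] at h1
    have h2 := congrArg σ.symm h1
    rw [map_mul, map_mon hR, map_pow, map_pow, map_natCast, AlgEquiv.symm_symm] at h2
    exact h2
  have hgroup : ∀ ρ : ℂ, aeval ρ (minpoly ℚ P⁻¹) = 0 → ∃ (N : ℕ) (y : ℂ) (m : Fin r → ℤ), 0 < N ∧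
      y ∈ E ∧ y ≠ 0 ∧ ρ ^ N = y * ∏ j, u j ^ m j := by
    intro ρ hρ
    obtain ⟨σ, hσ⟩ := exists_conj P⁻¹ hρ
    have h1 : w ∘ σ.symm ∈ span ℚ (Set.range b) := by
      rw [hb2]
      exact subset_span ⟨σ.symm, rfl⟩
    obtain ⟨a, ha⟩ := (mem_span_range_iff_exists_fun ℚ).1 h1
    set M : ℕ := ∏ i, (a i).den with hM
    have hM0 : M ≠ 0 := Finset.prod_ne_zero_iff.2 fun i _ => (a i).den_nz
    have hint' : ∀ i, ∃ c : ℤ, (c : ℚ) = M * a i := by
      intro i
      obtain ⟨b, hb⟩ := Finset.dvd_prod_of_mem (fun i => (a i).den) (Finset.mem_univ i)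
      refine ⟨b * (a i).num, ?_⟩
      rw [hM, hb]
      have h1 : ((a i).den : ℚ) * a i = (a i).num := by
        rw [mul_comm]
        exact Rat.mul_den_eq_num (a i)
      push_cast
      rw [mul_comm ((a i).den : ℚ) b, mul_assoc, h1]
    choose c hc using hint'
    have hrel : (M : ℤ) • (v ∘ σ.symm) = ∑ i, c i • (v ∘ τ i) := by
      funext y
      rw [Finset.sum_apply]
      simp only [Pi.smul_apply, Function.comp_apply, smul_eq_mul]
      have h2 := congrFun ha y
      rw [Finset.sum_apply] at h2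
      simp only [Pi.smul_apply, Function.comp_apply, smul_eq_mul] at h2
      have h3 : ∀ i, b i y = w (τ i y) := fun i => by rw [hτ i]; rfl
      rw [Finset.sum_congr rfl fun i _ => by rw [h3 i]] at h2
      have h4 : ((M * v (σ.symm y) : ℤ) : ℚ) = ((∑ i, c i * v (τ i y) : ℤ) : ℚ) := by
        push_cast
        rw [hv, ← h2, Finset.mul_sum, Finset.mul_sum]
        refine Finset.sum_congr rfl fun i _ => ?_
        rw [hc, hv]
        ring
      exact_mod_cast h4
    have hmonrel : mon (rts hm) (v ∘ σ.symm) ^ M = ∏ i, mon (rts hm) (v ∘ τ i) ^ c i := by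
      have h2 := congrArg (mon (rts hm)) hrel
      rw [mon_smul, mon_sum h0, zpow_natCast] at h2
      rw [h2]
      exact Finset.prod_congr rfl fun i _ => mon_smul _ _
    refine ⟨2 * M, (q : ℂ) ^ (-(n * M : ℤ)), fun j => if hj : (j : ℕ) < finrank ℚ (span ℚ T) then -c ⟨j, hj⟩ else 0,
      by omega, zpow_mem (natCast_mem E q) _, zpow_ne_zero _ hqC, ?_⟩
    have hprodu : ∏ j, u j ^ (if hj : (j : ℕ) < finrank ℚ (span ℚ T) then -c ⟨j, hj⟩ else 0) =
        ((∏ i, mon (rts hm) (v ∘ τ i) ^ (-c i) : QBar) : ℂ) := by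
      have h3 : ((∏ i, mon (rts hm) (v ∘ τ i) ^ (-c i) : QBar) : ℂ) =
          ∏ i, ((mon (rts hm) (v ∘ τ i) : QBar) : ℂ) ^ (-c i) := by
        have h4 := map_prod (algebraMap QBar ℂ) (fun i => mon (rts hm) (v ∘ τ i) ^ (-c i))
          Finset.univ
        refine h4.trans (Finset.prod_congr rfl fun i _ => ?_)
        rw [map_zpow₀]
        rfl
      rw [h3]
      let e : Fin (finrank ℚ (span ℚ T)) ↪ Fin r := Fin.castLEEmb hlt
      have h5 : ∀ j : Fin r, j ∉ Finset.univ.map e →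
          u j ^ (if hj : (j : ℕ) < finrank ℚ (span ℚ T) then -c ⟨j, hj⟩ else 0) = 1 := by
        intro j hj
        have h6 : ¬ (j : ℕ) < finrank ℚ (span ℚ T) := by
          intro h7
          apply hj
          rw [Finset.mem_map]
          exact ⟨⟨j, h7⟩, Finset.mem_univ _, rfl⟩
        rw [dif_neg h6, zpow_zero]
      rw [← Finset.prod_subset (Finset.subset_univ (Finset.univ.map e)) (fun j _ hj => h5 j hj),
        Finset.prod_map]
      refine Finset.prod_congr rfl fun i _ => ?_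
      have h7 : ((e i : Fin r) : ℕ) < finrank ℚ (span ℚ T) := i.2
      rw [dif_pos h7]
      have h8 : u (e i) = ((mon (rts hm) (v ∘ τ i) : QBar) : ℂ) := by
        simp only [u]
        rw [dif_pos h7]
        rfl
      rw [h8]
      rfl
    rw [hprodu, ← hσ]
    have hqQ : (q : QBar) ≠ 0 := fun h9 => hqC (by
      have := congrArg (algebraMap QBar ℂ) h9
      rw [map_natCast, map_zero] at this
      exact this)
    have hfinal : (σ P⁻¹) ^ (2 * M) = (q : QBar) ^ (-(n * M : ℤ)) *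
        ∏ i, mon (rts hm) (v ∘ τ i) ^ (-c i) := by
      have h10 := hsq σ.symm
      rw [AlgEquiv.symm_symm] at h10
      have h11 : ∏ i, mon (rts hm) (v ∘ τ i) ^ (-c i) =
          (mon (rts hm) (v ∘ σ.symm) ^ M)⁻¹ := by
        rw [hmonrel, ← Finset.prod_inv_distrib]
        exact Finset.prod_congr rfl fun i _ => zpow_neg _ _
      have h12 : (q : QBar) ^ (-(n * M : ℤ)) = (((q : QBar) ^ n) ^ M)⁻¹ := by
        rw [zpow_neg, ← pow_mul]
        congr 1
      rw [h11, h12, ← mul_inv, ← mul_pow, mul_comm ((q : QBar) ^ n), h10, map_inv₀, inv_pow,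
        ← pow_mul]
    have h13 := congrArg (algebraMap QBar ℂ) hfinal
    rw [map_pow, map_mul, map_zpow₀, map_natCast] at h13
    exact h13
  obtain ⟨k, l, hkl, h1⟩ := h (minpoly ℚ P⁻¹) (minpoly_ne _) ⟨u, hu, hgroup⟩
    ((P⁻¹ : QBar) : ℂ) (aeval_minpoly_coe _) 1 one_pos n hn0 0 1 one_pos (fun k => z k)
    (fun k => by
      obtain ⟨i, hi⟩ := (mem_rts hm).1 (hz k).1
      exact ⟨i, (aeval_coe_int _ _).2 hi⟩) (by
      have h2 : (∏ k, z k) * P⁻¹ = 1 := by rw [← hP, mul_inv_cancel₀ hP0]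
      have h3 := congrArg (algebraMap QBar ℂ) h2
      rw [map_mul, map_prod, map_one] at h3
      simp only [pow_one, zpow_zero]
      exact h3)
  have h2 : z k * z l = (q : QBar) := by
    apply (algebraMap QBar ℂ).injective
    rw [map_mul, map_natCast]
    exact h1
  have h3 : z l = q / z k := by
    rw [eq_div_iff (h0 _ (hz k).1), mul_comm, h2]
  have h4 := (hz l).2
  have h5 := (hz k).2
  rw [h3, hvodd.odd] at h4
  omega

/-- **The criterion.** -/
theorem noRelations_of (hm : ∀ i, f i ≠ 0) (hq : q ≠ 0) (hd : SelfDual q f) (h1 : Neat q f)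
    (h2 : ConjugateOver E q f) (h3 : LargeSpans q r f) : NoRelations E q r f :=
  fun _ hχ hrank _ hρ _ hs _ hn c _ hN z hz hrel =>
    exists_pair_complex hm hq hd E h1 h2 h3 hχ hrank hρ hs hn c hN z hz hrel

theorem noRelations_iff (hm : ∀ i, f i ≠ 0) (hq : q ≠ 0) (hd : SelfDual q f) [Normal ℚ E] :
    NoRelations E q r f ↔ Neat q f ∧ ConjugateOver E q f ∧ LargeSpans q r f :=
  ⟨fun h => ⟨neat_of hq h, conjugateOver_of hm hd (normal_stable E) h, largeSpans_of hm hd hq h⟩,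
    fun h => noRelations_of hm hq hd h.1 h.2.1 h.2.2⟩

end Pool.Agent.T2h14.NR
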