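import Mathlib
import Pool.Agent.T2h14.NR.Mon

/-!
# Stable spaces of odd functions
-/

set_option autoImplicit false
set_option linter.unusedSectionVars false

namespace Pool.Agent.T2h14.NR

open Module Submodule

variable {Ω : Type} [Field Ω] [Algebra ℚ Ω] {q : ℕ}

/-- The conjugates of each nonzero odd function on `R` span the space of all odd functions on `R`. -/
def OddIrreducible (q : ℕ) (R : Finset Ω) : Prop :=
  ∀ w v : Ω → ℚ, IsOddOn R q w → w ≠ 0 → IsOddOn R q v →
    v ∈ span ℚ {x : Ω → ℚ | ∃ σ : Ω ≃ₐ[ℚ] Ω, x = w ∘ σ}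

theorem IsOddOn.addQ {R : Finset Ω} {w v : Ω → ℚ} (hw : IsOddOn R q w) (hv : IsOddOn R q v) :
    IsOddOn R q (w + v) :=
  ⟨fun z hz => by rw [Pi.add_apply, hw.supp z hz, hv.supp z hz, add_zero], fun z => by
    rw [Pi.add_apply, Pi.add_apply, hw.odd, hv.odd]
    ring⟩

theorem IsOddOn.smulQ {R : Finset Ω} {w : Ω → ℚ} (hw : IsOddOn R q w) (c : ℚ) :
    IsOddOn R q (c • w) :=
  ⟨fun z hz => by rw [Pi.smul_apply, hw.supp z hz, smul_zero], fun z => by
    rw [Pi.smul_apply, Pi.smul_apply, hw.odd, smul_neg]⟩

/-- The restriction of functions to a set. -/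
noncomputable def res (R : Finset Ω) : (Ω → ℚ) →ₗ[ℚ] (Ω → ℚ) := by
  classical
  exact
  { toFun := fun w z => if z ∈ R then w z else 0
    map_add' := fun a b => by
      funext z
      by_cases hz : z ∈ R <;> simp [hz]
    map_smul' := fun c a => by
      funext z
      by_cases hz : z ∈ R <;> simp [hz] }

theorem res_apply_mem {R : Finset Ω} (w : Ω → ℚ) {z : Ω} (hz : z ∈ R) : res R w z = w z := by
  classical
  exact if_pos hz

theorem res_apply_notMem {R : Finset Ω} (w : Ω → ℚ) {z : Ω} (hz : z ∉ R) : res R w z = 0 := by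
  classical
  exact if_neg hz

theorem res_comp {R : Finset Ω} (hR : ∀ σ : Ω ≃ₐ[ℚ] Ω, ∀ z ∈ R, σ z ∈ R) (w : Ω → ℚ)
    (σ : Ω ≃ₐ[ℚ] Ω) : res R (w ∘ σ) = res R w ∘ σ := by
  funext z
  by_cases hz : z ∈ R
  · rw [res_apply_mem _ hz, Function.comp_apply, Function.comp_apply, res_apply_mem _ (hR σ z hz)]
  · rw [res_apply_notMem _ hz, Function.comp_apply, res_apply_notMem]
    intro h
    apply hz
    have := hR σ.symm _ h
    rwa [σ.symm_apply_apply] at this

theorem res_odd {R R' : Finset Ω} (hd : ∀ z ∈ R, (q : Ω) / z ∈ R) (hq : q ≠ 0) {w : Ω → ℚ}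
    (hw : IsOddOn R' q w) : IsOddOn R q (res R w) := by
  constructor
  · intro z hz
    exact res_apply_notMem _ hz
  · intro z
    by_cases hz : z ∈ R
    · rw [res_apply_mem _ hz, res_apply_mem _ (hd z hz), hw.odd]
    · rw [res_apply_notMem _ hz, res_apply_notMem _ ?_, neg_zero]
      intro h
      apply hz
      have h1 := hd _ h
      have : CharZero Ω := algebraRat.charZero Ω
      rwa [div_div_cancel₀ (by exact_mod_cast hq : (q : Ω) ≠ 0)] at h1

/-- The odd function of a root. -/
noncomputable def dlt (q : ℕ) (z : Ω) : Ω → ℤ := by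
  classical
  exact fun y => (if y = z then 1 else 0) - (if y = (q : Ω) / z then 1 else 0)

theorem dlt_self {z : Ω} (hz : z ≠ q / z) : dlt q z z = 1 := by
  classical
  unfold dlt
  rw [if_pos rfl, if_neg hz, sub_zero]

theorem dlt_eq_one {z y : Ω} (h : dlt q z y = 1) : y = z := by
  classical
  unfold dlt at h
  by_contra hne
  rw [if_neg hne] at h
  split_ifs at h <;> omega

theorem dlt_odd {R : Finset Ω} (hq : q ≠ 0) (hd : ∀ z ∈ R, (q : Ω) / z ∈ R) {z : Ω} (hz : z ∈ R) :
    IsOddOn R q (dlt q z) := by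
  classical
  have : CharZero Ω := algebraRat.charZero Ω
  have hqΩ : (q : Ω) ≠ 0 := by exact_mod_cast hq
  constructor
  · intro y hy
    unfold dlt
    rw [if_neg (by rintro rfl; exact hy hz), if_neg (by rintro rfl; exact hy (hd z hz)), sub_zero]
  · intro y
    unfold dlt
    have h1 : (q / y = z) = (y = q / z) := by
      apply propext
      constructor
      · rintro rfl
        rw [div_div_cancel₀ hqΩ]
      · rintro rfl
        rw [div_div_cancel₀ hqΩ]
    have h2 : (q / y = q / z) = (y = z) := by
      apply propext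
      constructor
      · intro h
        rw [← div_div_cancel₀ (b := y) hqΩ, h, div_div_cancel₀ hqΩ]
      · rintro rfl
        rfl
    simp only [h1, h2]
    ring

/-- The same with rational values. -/
noncomputable def dltQ (q : ℕ) (z : Ω) : Ω → ℚ := fun y => dlt q z y

theorem dltQ_odd {R : Finset Ω} (hq : q ≠ 0) (hd : ∀ z ∈ R, (q : Ω) / z ∈ R) {z : Ω} (hz : z ∈ R) :
    IsOddOn R q (dltQ q z) :=
  ⟨fun y hy => by simp [dltQ, (dlt_odd hq hd hz).supp y hy], fun y => by
    simp [dltQ, (dlt_odd hq hd hz).odd y]⟩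

section family

variable {I : Type} [Fintype I] {R : I → Finset Ω} (hq : q ≠ 0) (h0 : ∀ i, ∀ z ∈ R i, z ≠ 0)
  (hd : ∀ i, ∀ z ∈ R i, (q : Ω) / z ∈ R i) (hne : ∀ i, ∀ z ∈ R i, z ≠ q / z)
  (hR : ∀ i, ∀ σ : Ω ≃ₐ[ℚ] Ω, ∀ z ∈ R i, σ z ∈ R i)
  (hdis : ∀ i j, i ≠ j → Disjoint (R i) (R j))
  (hirr : ∀ i, OddIrreducible q (R i))
  (hsep : ∀ i j, i ≠ j → (∃ σ : Ω ≃ₐ[ℚ] Ω, (∀ z ∈ R i, σ z = z) ∧ ∃ z ∈ R j, σ z ≠ z) ∨
    ∃ σ : Ω ≃ₐ[ℚ] Ω, (∀ z ∈ R j, σ z = z) ∧ ∃ z ∈ R i, σ z ≠ z)

include hdis in
theorem eq_sum_res [DecidableEq Ω] {w : Ω → ℚ} (hw : IsOddOn (Finset.univ.biUnion R) q w) :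
    w = ∑ i, res (R i) w := by
  funext z
  rw [Finset.sum_apply]
  by_cases hz : ∃ i, z ∈ R i
  · obtain ⟨i, hi⟩ := hz
    rw [Finset.sum_eq_single i, res_apply_mem _ hi]
    · intro j _ hj
      exact res_apply_notMem _ fun h => (Finset.disjoint_left.1 (hdis i j hj.symm) hi) h
    · intro h
      exact absurd (Finset.mem_univ i) h
  · push Not at hz
    rw [hw.supp z (by simpa using hz), Finset.sum_eq_zero]
    intro i _
    exact res_apply_notMem _ (hz i)

include hq hd hne hR hdis hirr hsep in
/-- **Stable spaces of odd functions.** -/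
theorem exists_le [DecidableEq Ω] (U : Submodule ℚ (Ω → ℚ))
    (hU : ∀ w ∈ U, IsOddOn (Finset.univ.biUnion R) q w)
    (hst : ∀ σ : Ω ≃ₐ[ℚ] Ω, ∀ w ∈ U, w ∘ σ ∈ U) (hU0 : U ≠ ⊥) :
    ∃ i, ∀ w, IsOddOn (R i) q w → w ∈ U := by
  classical
  let S : (Ω → ℚ) → Finset I := fun w => Finset.univ.filter fun i => res (R i) w ≠ 0
  have key : ∀ (n : ℕ) (w : Ω → ℚ), w ∈ U → w ≠ 0 → (S w).card = n →
      ∃ i, ∀ w, IsOddOn (R i) q w → w ∈ U := by
    intro n
    induction n using Nat.strong_induction_on with
    | _ n ih =>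
      intro w hw hw0 hn
      have hsum := eq_sum_res hdis (hU w hw)
      have hS : (S w).Nonempty := by
        rw [Finset.nonempty_iff_ne_empty]
        intro hS
        apply hw0
        rw [hsum]
        refine Finset.sum_eq_zero fun i _ => ?_
        by_contra h1
        have : i ∈ S w := Finset.mem_filter.2 ⟨Finset.mem_univ i, h1⟩
        rw [hS] at this
        exact absurd this (Finset.notMem_empty i)
      obtain ⟨i, hi⟩ := hS
      by_cases hone : ∀ j ∈ S w, j = i
      · refine ⟨i, fun v hv => ?_⟩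
        have hw1 : w = res (R i) w := by
          conv_lhs => rw [hsum]
          refine Finset.sum_eq_single i (fun j _ hj => ?_) (fun h => absurd (Finset.mem_univ i) h)
          by_contra h1
          exact hj (hone j (Finset.mem_filter.2 ⟨Finset.mem_univ j, h1⟩))
        have hw2 : IsOddOn (R i) q w := by
          rw [hw1]
          exact res_odd (hd i) hq (hU w hw)
        have h1 := hirr i w v hw2 hw0 hv
        refine (span_le.2 ?_) h1
        rintro _ ⟨σ, rfl⟩
        exact hst σ w hw
      · push Not at hone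
        obtain ⟨i, hi, j, hj, hji, σ, hσi, z, hz, hσz⟩ : ∃ i ∈ S w, ∃ j ∈ S w, j ≠ i ∧
            ∃ σ : Ω ≃ₐ[ℚ] Ω, (∀ z ∈ R i, σ z = z) ∧ ∃ z ∈ R j, σ z ≠ z := by
          obtain ⟨j, hj, hji⟩ := hone
          rcases hsep i j hji.symm with h | h
          · exact ⟨i, hi, j, hj, hji, h⟩
          · exact ⟨j, hj, i, hi, hji.symm, h⟩
        have hwj : res (R j) w ≠ 0 := (Finset.mem_filter.1 hj).2
        have hoddj : IsOddOn (R j) q (res (R j) w) := res_odd (hd j) hq (hU w hw)
        -- the linear map `x ↦ x - x ∘ σ`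
        let φ : (Ω → ℚ) →ₗ[ℚ] (Ω → ℚ) :=
          { toFun := fun x => x - x ∘ σ
            map_add' := fun a b => by
              funext y
              simp only [Pi.sub_apply, Pi.add_apply, Function.comp_apply]
              ring
            map_smul' := fun c a => by
              funext y
              simp only [Pi.sub_apply, Pi.smul_apply, Function.comp_apply, smul_eq_mul,
                RingHom.id_apply]
              ring }
        have hφ : φ (dltQ q z) ≠ 0 := by
          intro h1
          have h2 := congrFun h1 (σ.symm z)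
          change dltQ q z (σ.symm z) - dltQ q z (σ (σ.symm z)) = 0 at h2
          rw [σ.apply_symm_apply, sub_eq_zero] at h2
          have h3 : dlt q z (σ.symm z) = 1 := by
            have h4 : dltQ q z z = 1 := by
              change ((dlt q z z : ℤ) : ℚ) = 1
              rw [dlt_self (hne j z hz)]
              simp
            rw [h4] at h2
            have h6 : ((dlt q z (σ.symm z) : ℤ) : ℚ) = 1 := h2
            exact_mod_cast h6
          have h5 := dlt_eq_one h3
          apply hσz
          rw [AlgEquiv.symm_apply_eq] at h5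
          exact h5.symm
        have hmem := hirr j _ _ hoddj hwj (dltQ_odd hq (hd j) hz)
        obtain ⟨τ, hτ⟩ : ∃ τ : Ω ≃ₐ[ℚ] Ω, φ (res (R j) w ∘ τ) ≠ 0 := by
          by_contra hall
          push Not at hall
          apply hφ
          have h1 : span ℚ {x : Ω → ℚ | ∃ σ : Ω ≃ₐ[ℚ] Ω, x = res (R j) w ∘ σ} ≤
              LinearMap.ker φ := by
            rw [span_le]
            rintro _ ⟨τ, rfl⟩
            exact hall τ
          exact h1 hmem
        set u := φ (w ∘ τ) with hu
        have huU : u ∈ U := by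
          refine sub_mem (hst τ w hw) ?_
          have := hst (σ.trans τ) w hw
          exact this
        have hresu : ∀ l, res (R l) u = φ (res (R l) w ∘ τ) := by
          intro l
          change res (R l) (w ∘ τ - (w ∘ τ) ∘ σ) = res (R l) w ∘ τ - (res (R l) w ∘ τ) ∘ σ
          rw [map_sub, res_comp (hR l), res_comp (hR l), res_comp (hR l)]
        have hu0 : u ≠ 0 := by
          intro h1
          apply hτ
          rw [← hresu j, h1, map_zero]
        have hsub : S u ⊆ (S w).erase i := by
          intro l hl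
          have h1 : res (R l) u ≠ 0 := (Finset.mem_filter.1 hl).2
          rw [hresu] at h1
          refine Finset.mem_erase.2 ⟨?_, Finset.mem_filter.2 ⟨Finset.mem_univ l, ?_⟩⟩
          · rintro rfl
            apply h1
            change res (R l) w ∘ τ - (res (R l) w ∘ τ) ∘ σ = 0
            rw [sub_eq_zero]
            funext y
            simp only [Function.comp_apply]
            by_cases hy : y ∈ R l
            · rw [hσi y hy]
            · rw [res_apply_notMem _ fun h => hy (by
                have := hR l τ.symm _ h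
                rwa [τ.symm_apply_apply] at this), res_apply_notMem _ fun h => hy (by
                have h2 := hR l τ.symm _ h
                rw [τ.symm_apply_apply] at h2
                have h3 := hR l σ.symm _ h2
                rwa [σ.symm_apply_apply] at h3)]
          · intro h2
            apply h1
            rw [h2]
            exact map_zero φ
        have hlt : (S u).card < n := by
          rw [← hn]
          exact lt_of_le_of_lt (Finset.card_le_card hsub) (Finset.card_erase_lt_of_mem hi)
        exact ih _ hlt u huU hu0 rfl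
  obtain ⟨w, hw, hw0⟩ := (Submodule.ne_bot_iff _).1 hU0
  exact key _ w hw hw0 rfl

end family

end Pool.Agent.T2h14.NR
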