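import Mathlib
import Pool.Agent.T2h14.NR.Conv
import Pool.Agent.T2h14.NR.Irr

/-!
# Families of Weil polynomials with irreducible spaces of odd functions
-/

set_option autoImplicit false
set_option linter.unusedSectionVars false

namespace Pool.Agent.T2h14.NR

open Polynomial Module Submodule Pool.Agent.W484.AA Pool.Agent.W484.HS Pool.Agent.W484.TB

section

variable {I : Type} [Fintype I] {f : I → ℤ[X]} (hm : ∀ i, f i ≠ 0) {q : ℕ}

/-- The roots of one of the polynomials. -/
noncomputable def rt (i : I) : Finset QBar := by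
  classical
  exact (rts hm).filter fun z => aeval z (f i) = 0

theorem mem_rt {i : I} {z : QBar} : z ∈ rt hm i ↔ aeval z (f i) = 0 := by
  classical
  unfold rt
  rw [Finset.mem_filter]
  exact ⟨fun h => h.2, fun h => ⟨(mem_rts hm).2 ⟨i, h⟩, h⟩⟩

theorem biUnion_rt [DecidableEq QBar] : Finset.univ.biUnion (rt hm) = rts hm := by
  ext z
  rw [Finset.mem_biUnion, mem_rts]
  constructor
  · rintro ⟨i, -, h⟩
    exact ⟨i, (mem_rt hm).1 h⟩
  · rintro ⟨i, h⟩
    exact ⟨i, Finset.mem_univ i, (mem_rt hm).2 h⟩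

/-- Complex conjugation. -/
theorem exists_conjugation : ∃ κ : QBar ≃ₐ[ℚ] QBar, ∀ z : QBar,
    ((κ z : QBar) : ℂ) = (starRingEnd ℂ) (z : ℂ) := by
  let c : ℂ ≃ₐ[ℚ] ℂ := Complex.conjAe.restrictScalars ℚ
  refine ⟨AlgEquiv.restrictNormal c QBar, fun z => ?_⟩
  exact AlgEquiv.restrictNormal_commutes c QBar z

/-- All roots have absolute value `√q`. -/
def HasAbs (q : ℕ) (f : I → ℤ[X]) : Prop := ∀ i, ∀ z : ℂ, aeval z (f i) = 0 → ‖z‖ ^ 2 = q

variable (hq : 1 < q) (habs : HasAbs q f)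

include hq habs in
theorem root_ne_zero' {i : I} {z : ℂ} (hz : aeval z (f i) = 0) : z ≠ 0 := by
  rintro rfl
  have := habs i 0 hz
  rw [norm_zero, zero_pow two_ne_zero] at this
  have h2 : (q : ℝ) ≠ 0 := by
    have : 0 < q := by omega
    positivity
  exact h2 this.symm

include hq habs in
theorem conj_root {i : I} {z : ℂ} (hz : aeval z (f i) = 0) : (starRingEnd ℂ) z = q / z := by
  have h0 := root_ne_zero' hq habs hz
  rw [eq_div_iff h0, mul_comm, Complex.mul_conj, Complex.normSq_eq_norm_sq, habs i z hz]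
  simp

include hq habs in
theorem selfDual_of_abs : SelfDual q f := by
  intro i z hz
  refine ⟨root_ne_zero' hq habs hz, ?_⟩
  rw [← conj_root hq habs hz]
  have h := Polynomial.hom_eval₂ (f i) (algebraMap ℤ ℂ) (starRingEnd ℂ) z
  rw [RingHom.ext_int ((starRingEnd ℂ).comp (algebraMap ℤ ℂ)) (algebraMap ℤ ℂ)] at h
  have h2 : eval₂ (algebraMap ℤ ℂ) z (f i) = 0 := hz
  rw [h2, map_zero] at h
  exact h.symm

/-- No root is supersingular: the numbers `z ^ 2 / q` are not roots of unity. -/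
def NonSupersingular (q : ℕ) (f : I → ℤ[X]) : Prop :=
  ∀ i, ∀ z : ℂ, aeval z (f i) = 0 → ∀ N : ℕ, 0 < N → z ^ (2 * N) ≠ (q : ℂ) ^ N

variable (hss : NonSupersingular q f) (hirr : ∀ i, OddIrreducible q (rt hm i))
  (hsep : ∀ i j, i ≠ j →
    (∃ σ : QBar ≃ₐ[ℚ] QBar, (∀ z ∈ rt hm i, σ z = z) ∧ ∃ z ∈ rt hm j, σ z ≠ z) ∨
    ∃ σ : QBar ≃ₐ[ℚ] QBar, (∀ z ∈ rt hm j, σ z = z) ∧ ∃ z ∈ rt hm i, σ z ≠ z)
  (hdis : ∀ i j, i ≠ j → Disjoint (rt hm i) (rt hm j)) (hnonempty : ∀ i, (rt hm i).Nonempty)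

theorem rt_stable (i : I) (σ : QBar ≃ₐ[ℚ] QBar) : ∀ z ∈ rt hm i, σ z ∈ rt hm i := by
  intro z hz
  have hi := (mem_rt hm).1 hz
  refine (mem_rt hm).2 ?_
  have h := Polynomial.hom_eval₂ (f i) (algebraMap ℤ QBar) (σ : QBar →+* QBar) z
  rw [RingHom.ext_int ((σ : QBar →+* QBar).comp (algebraMap ℤ QBar)) (algebraMap ℤ QBar)] at h
  have h2 : eval₂ (algebraMap ℤ QBar) z (f i) = 0 := hi
  rw [h2, map_zero] at h
  exact h.symm

include hq habs in
theorem rt_dual (i : I) : ∀ z ∈ rt hm i, (q : QBar) / z ∈ rt hm i := by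
  intro z hz
  have hi := (mem_rt hm).1 hz
  refine (mem_rt hm).2 ((aeval_coe_int _ _).1 ?_)
  have h := (selfDual_of_abs hq habs i z ((aeval_coe_int (f i) z).2 hi)).2
  push_cast
  exact h

include hq habs in
theorem rt_ne_zero (i : I) : ∀ z ∈ rt hm i, z ≠ 0 := by
  rintro z hz rfl
  exact root_ne_zero' hq habs ((aeval_coe_int (f i) 0).2 ((mem_rt hm).1 hz)) rfl

include hq habs hss in
theorem rt_ne (i : I) : ∀ z ∈ rt hm i, z ≠ (q : QBar) / z := by
  intro z hz h
  rw [eq_div_iff (rt_ne_zero hm hq habs i z hz)] at h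
  refine hss i z ((aeval_coe_int (f i) z).2 ((mem_rt hm).1 hz)) 1 one_pos ?_
  have h2 := congrArg (algebraMap QBar ℂ) h
  rw [map_mul, map_natCast] at h2
  rw [mul_one, pow_one, sq]
  exact h2

include hq habs in
theorem kappa_root {κ : QBar ≃ₐ[ℚ] QBar}
    (hκ : ∀ z : QBar, ((κ z : QBar) : ℂ) = (starRingEnd ℂ) (z : ℂ)) {z : QBar} (hz : z ∈ rts hm) :
    κ z = q / z := by
  obtain ⟨i, hi⟩ := (mem_rts hm).1 hz
  apply (algebraMap QBar ℂ).injective
  rw [map_div₀, map_natCast]
  exact (hκ z).trans (conj_root hq habs ((aeval_coe_int (f i) z).2 hi))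

theorem mon_dlt {R : Finset QBar} (h0 : ∀ z ∈ R, z ≠ 0) (hd : ∀ z ∈ R, (q : QBar) / z ∈ R) {z : QBar}
    (hz : z ∈ R) : mon R (dlt q z) * (q / z) = z := by
  classical
  have h1 : mon R (dlt q z) * ∏ y ∈ R, y ^ (if y = q / z then (1 : ℤ) else 0) =
      ∏ y ∈ R, y ^ (if y = z then (1 : ℤ) else 0) := by
    rw [mon, ← Finset.prod_mul_distrib]
    refine Finset.prod_congr rfl fun y hy => ?_
    rw [← zpow_add₀ (h0 y hy)]
    congr 1
    unfold dlt
    ring_nf
  have h2 : ∀ x ∈ R, ∏ y ∈ R, y ^ (if y = x then (1 : ℤ) else 0) = x := by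
    intro x hx
    rw [Finset.prod_eq_single x]
    · simp
    · intro y _ hy
      simp [hy]
    · intro h
      exact absurd hx h
  rw [h2 _ (hd z hz), h2 z hz] at h1
  exact h1

include hq habs hss hirr hsep hdis hnonempty in
/-- **Neatness.** -/
theorem neat_of_irreducible : Neat q f := by
  classical
  have hq0 : q ≠ 0 := by omega
  have hSD := selfDual_of_abs hq habs
  have h0 := rts_ne_zero hm hSD
  have hd := rts_dual hm hSD
  have hR := rts_stable hm
  have hqQ : (q : QBar) ≠ 0 := by exact_mod_cast hq0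
  -- the space of the exponents of the roots of unity
  let U : Submodule ℚ (QBar → ℚ) :=
    { carrier := {w | IsOddOn (rts hm) q w ∧ ∃ D : ℕ, 0 < D ∧ ∃ v : QBar → ℤ,
        (∀ y, (v y : ℚ) = D * w y) ∧ mon (rts hm) v = 1}
      zero_mem' := ⟨⟨fun _ _ => rfl, fun _ => by simp⟩, 1, one_pos, 0, fun y => by simp, mon_zero⟩
      add_mem' := by
        rintro w w' ⟨h1, D, hD, v, hv, hv1⟩ ⟨h1', D', hD', v', hv', hv1'⟩
        refine ⟨h1.addQ h1', D * D', Nat.mul_pos hD hD', (D' : ℤ) • v + (D : ℤ) • v', fun y => ?_, ?_⟩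
        · simp only [Pi.add_apply, Pi.smul_apply, smul_eq_mul]
          push_cast
          rw [hv, hv']
          ring
        · rw [mon_add h0, mon_smul, mon_smul, hv1, hv1', one_zpow, one_zpow, one_mul]
      smul_mem' := by
        rintro c w ⟨h1, D, hD, v, hv, hv1⟩
        refine ⟨h1.smulQ c, D * c.den, Nat.mul_pos hD c.pos, c.num • v, fun y => ?_, ?_⟩
        · simp only [Pi.smul_apply, smul_eq_mul]
          push_cast
          rw [hv]
          have h2 : (c.den : ℚ) * c = c.num := by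
            rw [mul_comm]
            exact Rat.mul_den_eq_num c
          rw [← h2]
          ring
        · rw [mon_smul, hv1, one_zpow] }
  have hUbot : U = ⊥ := by
    by_contra hne
    obtain ⟨j, hj⟩ := exists_le (R := rt hm) hq0 (rt_dual hm hq habs) (rt_ne hm hq habs hss)
      (rt_stable hm) hdis hirr hsep U (fun w hw => by
        rw [biUnion_rt]
        exact hw.1) (fun σ w hw => by
        obtain ⟨h1, D, hD, v, hv, hv1⟩ := hw
        refine ⟨h1.comp hR σ, D, hD, v ∘ σ, fun y => hv (σ y), ?_⟩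
        have h2 := map_mon hR σ.symm v
        rw [hv1, map_one, AlgEquiv.symm_symm] at h2
        exact h2.symm) hne
    obtain ⟨z, hz⟩ := hnonempty j
    obtain ⟨-, D, hD, v, hv, hv1⟩ := hj _ (dltQ_odd hq0 (rt_dual hm hq habs j) hz)
    have hzR : z ∈ rts hm := (mem_rts hm).2 ⟨j, (mem_rt hm).1 hz⟩
    have hvd : v = (D : ℤ) • dlt q z := by
      funext y
      have h1 := hv y
      have h2 : (v y : ℚ) = ((D : ℤ) * dlt q z y : ℤ) := by
        rw [h1]
        push_cast
        rfl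
      have h3 : v y = (D : ℤ) * dlt q z y := by exact_mod_cast h2
      exact h3
    rw [hvd, mon_smul, zpow_natCast] at hv1
    have h1 := mon_dlt h0 hd hzR
    refine hss j z ((aeval_coe_int (f j) z).2 ((mem_rt hm).1 hz)) D hD ?_
    have hz0 := h0 z hzR
    have h2 : z ^ (2 * D) = (q : QBar) ^ D := by
      have h3 : z ^ D = (q / z) ^ D := by
        conv_lhs => rw [← h1]
        rw [mul_pow, hv1, one_mul]
      calc z ^ (2 * D) = z ^ D * z ^ D := by ring
        _ = (q / z) ^ D * z ^ D := by rw [← h3]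
        _ = (q : QBar) ^ D := by rw [← mul_pow, div_mul_cancel₀ _ hz0]
    have h4 := congrArg (algebraMap QBar ℂ) h2
    rw [map_pow, map_pow, map_natCast] at h4
    exact h4
  -- the relation
  intro n z N c hn hN hz hrel
  by_contra hno
  push Not at hno
  have hzQ : ∀ k, z k ∈ QBar := fun k => by
    obtain ⟨i, hi⟩ := hz k
    exact mem_qbar_int (hm i) hi
  let y : Fin n → QBar := fun k => ⟨z k, hzQ k⟩
  have hyR : ∀ k, y k ∈ rts hm := fun k => by
    obtain ⟨i, hi⟩ := hz k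
    exact (mem_rts hm).2 ⟨i, (aeval_coe_int (f i) (y k)).1 hi⟩
  have hrel' : (∏ k, y k) ^ N = (q : QBar) ^ c := by
    apply (algebraMap QBar ℂ).injective
    rw [map_pow, map_prod, map_zpow₀, map_natCast]
    exact hrel
  have hodd : IsOddOn (rts hm) q (expo q y) := expo_odd hq0 hd y hyR
  have hne : expo q y ≠ 0 := by
    refine expo_ne_zero' hn y hyR h0 (fun x hx h => ?_) fun k l hkl h => ?_
    · obtain ⟨i, hi⟩ := (mem_rts hm).1 hx
      refine hss i x ((aeval_coe_int (f i) x).2 hi) 1 one_pos ?_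
      have h' := congrArg (algebraMap QBar ℂ) h
      rw [map_mul, map_natCast] at h'
      rw [mul_one, pow_one, sq]
      exact h'
    · have h' := congrArg (algebraMap QBar ℂ) h
      rw [map_mul, map_natCast] at h'
      exact hno k l hkl h'
  set v : QBar → ℤ := (N : ℤ) • expo q y with hv
  have hvodd : IsOddOn (rts hm) q v := hodd.smul N
  have hmonv : mon (rts hm) v = (q : QBar) ^ (2 * c - n * N) := by
    have h1 := mon_expo hq0 h0 hd y hyR
    rw [hv, mon_smul, zpow_natCast, zpow_sub₀ hqQ, eq_div_iff (zpow_ne_zero _ hqQ)]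
    have h2 : (q : QBar) ^ ((n : ℤ) * N) = ((q : QBar) ^ n) ^ N := by
      rw [← pow_mul]
      exact_mod_cast rfl
    rw [h2, ← mul_pow, h1, ← pow_mul, mul_comm 2 N, pow_mul, hrel', ← zpow_natCast, ← zpow_mul]
    congr 1
    push_cast
    ring
  obtain ⟨κ, hκ⟩ := exists_conjugation
  have hneg : v ∘ κ.symm = (-1 : ℤ) • v := by
    funext x
    simp only [Function.comp_apply, Pi.smul_apply, smul_eq_mul, neg_one_mul]
    by_cases hx : x ∈ rts hm
    · have h1 : κ.symm x = q / x := by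
        rw [AlgEquiv.symm_apply_eq, kappa_root hm hq habs hκ (hd x hx), dd hq0]
      rw [h1, hvodd.odd]
    · rw [hvodd.supp x hx, hvodd.supp, neg_zero]
      intro h1
      apply hx
      have := hR κ _ h1
      rwa [κ.apply_symm_apply] at this
  have he : 2 * c - n * N = 0 := by
    have h1 := map_mon hR κ v
    rw [hneg, mon_smul (-1) v, hmonv, map_zpow₀, map_natCast, ← zpow_mul] at h1
    have h2 : (q : ℝ) ^ (2 * c - n * N) = (q : ℝ) ^ ((2 * c - n * N) * (-1)) := by
      have h3 := congrArg (algebraMap QBar ℂ) h1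
      rw [map_zpow₀, map_zpow₀, map_natCast] at h3
      have h5 := congrArg norm h3
      rw [norm_zpow, norm_zpow, Complex.norm_natCast] at h5
      exact h5
    have h4 := (zpow_right_inj₀ (by positivity) (by
      have : (1 : ℝ) < q := by exact_mod_cast hq
      exact this.ne')).1 h2
    omega
  rw [he, zpow_zero] at hmonv
  have hmem : (fun x => (expo q y x : ℚ)) ∈ U := by
    refine ⟨⟨fun x hx => by simp [hodd.supp x hx], fun x => by simp [hodd.odd x]⟩, N, hN, v,
      fun x => ?_, hmonv⟩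
    rw [hv]
    simp
  rw [hUbot, Submodule.mem_bot] at hmem
  apply hne
  funext x
  have := congrFun hmem x
  simpa using this

variable (E : IntermediateField ℚ ℂ) [Normal ℚ E] (hE : ∀ i, ∃ z : ℂ, aeval z (f i) = 0 ∧ z ∉ E)

include hq habs hss hirr hsep hdis hE in
/-- **Conjugacy over `E`.** -/
theorem conjugateOver_of_irreducible : ConjugateOver E q f := by
  classical
  have hq0 : q ≠ 0 := by omega
  have hSD := selfDual_of_abs hq habs
  have h0 := rts_ne_zero hm hSD
  have hd := rts_dual hm hSD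
  have hR := rts_stable hm
  intro z hz
  have hzR : z ∈ rts hm := (mem_rts hm).2 hz
  by_contra hno
  push Not at hno
  set S : Set (QBar ≃ₐ[ℚ] QBar) := {σ | ∀ e : QBar, (e : ℂ) ∈ E → σ e = e} with hS
  have hmul : ∀ σ ∈ S, ∀ τ ∈ S, σ.trans τ ∈ S := fun σ hσ τ hτ e he => by
    rw [AlgEquiv.trans_apply, hσ e he, hτ e he]
  have hinv : ∀ σ ∈ S, σ.symm ∈ S := fun σ hσ e he => by
    rw [AlgEquiv.symm_apply_eq, hσ e he]
  let O : Set QBar := {y | ∃ σ ∈ S, y = σ z}
  have hOst : ∀ σ ∈ S, ∀ y, σ y ∈ O ↔ y ∈ O := by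
    intro σ hσ y
    constructor
    · rintro ⟨τ, hτ, h1⟩
      refine ⟨τ.trans σ.symm, hmul τ hτ _ (hinv σ hσ), ?_⟩
      rw [AlgEquiv.trans_apply, ← h1, σ.symm_apply_apply]
    · rintro ⟨τ, hτ, h1⟩
      exact ⟨τ.trans σ, hmul τ hτ σ hσ, by rw [AlgEquiv.trans_apply, ← h1]⟩
  have hOR : ∀ y ∈ O, y ∈ rts hm := by
    rintro _ ⟨σ, -, rfl⟩
    exact hR σ z hzR
  let w : QBar → ℚ := fun y => (if y ∈ O then 1 else 0) - (if (q : QBar) / y ∈ O then 1 else 0)
  have hwodd : IsOddOn (rts hm) q w := by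
    constructor
    · intro y hy
      simp only [w]
      rw [if_neg fun h => hy (hOR y h), if_neg, sub_zero]
      intro h
      apply hy
      have := hd _ (hOR _ h)
      rwa [dd hq0] at this
    · intro y
      simp only [w]
      rw [dd hq0]
      ring
  have hw0 : w ≠ 0 := by
    intro h
    have h1 := congrFun h z
    simp only [w] at h1
    rw [if_pos (show z ∈ O from ⟨AlgEquiv.refl, fun e _ => rfl, rfl⟩), if_neg, sub_zero] at h1
    · exact one_ne_zero h1
    · rintro ⟨σ, hσ, h2⟩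
      exact hno σ hσ h2.symm
  let U : Submodule ℚ (QBar → ℚ) :=
    { carrier := {w | IsOddOn (rts hm) q w ∧ ∀ σ ∈ S, w ∘ σ = w}
      zero_mem' := ⟨⟨fun _ _ => rfl, fun _ => by simp⟩, fun σ _ => rfl⟩
      add_mem' := by
        rintro w w' ⟨h1, h2⟩ ⟨h1', h2'⟩
        refine ⟨h1.addQ h1', fun σ hσ => ?_⟩
        funext y
        have e1 := congrFun (h2 σ hσ) y
        have e2 := congrFun (h2' σ hσ) y
        simp only [Function.comp_apply] at e1 e2
        simp only [Function.comp_apply, Pi.add_apply, e1, e2]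
      smul_mem' := by
        rintro c w ⟨h1, h2⟩
        refine ⟨h1.smulQ c, fun σ hσ => ?_⟩
        funext y
        have e1 := congrFun (h2 σ hσ) y
        simp only [Function.comp_apply] at e1
        simp only [Function.comp_apply, Pi.smul_apply, e1] }
  have hwU : w ∈ U := by
    refine ⟨hwodd, fun σ hσ => ?_⟩
    funext y
    simp only [w, Function.comp_apply]
    rw [if_congr (hOst σ hσ y) rfl rfl]
    congr 1
    refine if_congr ?_ rfl rfl
    rw [← hOst σ hσ (q / y), map_div₀, map_natCast]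
  obtain ⟨j, hj⟩ := exists_le (R := rt hm) hq0 (rt_dual hm hq habs) (rt_ne hm hq habs hss)
    (rt_stable hm) hdis hirr hsep U (fun w hw => by
      rw [biUnion_rt]
      exact hw.1) (fun τ w hw => by
      refine ⟨hw.1.comp hR τ, fun σ hσ => ?_⟩
      have h1 : τ.symm.trans (σ.trans τ) ∈ S := by
        intro e he
        rw [AlgEquiv.trans_apply, AlgEquiv.trans_apply, hσ _ (normal_stable E τ.symm e he),
          AlgEquiv.apply_symm_apply]
      have h2 := hw.2 _ h1
      funext y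
      have h3 := congrFun h2 (τ y)
      simp only [Function.comp_apply, AlgEquiv.trans_apply, AlgEquiv.symm_apply_apply] at h3
      exact h3) (fun hbot => hw0 (by rw [hbot] at hwU; exact hwU))
  obtain ⟨x, hx, hxE⟩ := hE j
  have hxQ : x ∈ QBar := mem_qbar_int (hm j) hx
  have hxR : (⟨x, hxQ⟩ : QBar) ∈ rt hm j := (mem_rt hm).2 ((aeval_coe_int (f j) ⟨x, hxQ⟩).1 hx)
  apply hxE
  have hfix : ∀ σ ∈ S, σ ⟨x, hxQ⟩ = (⟨x, hxQ⟩ : QBar) := by
    intro σ hσ
    obtain ⟨-, h1⟩ := hj _ (dltQ_odd hq0 (rt_dual hm hq habs j) hxR)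
    have h2 := congrFun (h1 _ (hinv σ hσ)) (σ ⟨x, hxQ⟩)
    rw [Function.comp_apply, σ.symm_apply_apply] at h2
    have h3 : ((dlt q (⟨x, hxQ⟩ : QBar) ⟨x, hxQ⟩ : ℤ) : ℚ) = (dlt q (⟨x, hxQ⟩ : QBar) (σ ⟨x, hxQ⟩) : ℤ) :=
      h2
    rw [dlt_self (rt_ne hm hq habs hss j _ hxR)] at h3
    refine dlt_eq_one (q := q) ?_
    exact_mod_cast h3.symm
  let E' : IntermediateField ℚ QBar := E.comap QBar.val
  have hxE' : (⟨x, hxQ⟩ : QBar) ∈ E' := by
    rw [← InfiniteGalois.fixedField_fixingSubgroup E', IntermediateField.mem_fixedField_iff]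
    intro σ hσ
    exact hfix σ fun e he => (IntermediateField.mem_fixingSubgroup_iff E' σ).1 hσ e he
  exact hxE'

end

end Pool.Agent.T2h14.NR
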