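import Mathlib
import Pool.Agent.T2h14.NR.Cls

/-!
# Dimensions of spaces of odd functions
-/

set_option autoImplicit false
set_option linter.unusedSectionVars false

namespace Pool.Agent.T2h14.NR

open Polynomial Module Submodule Pool.Agent.W484.AA Pool.Agent.W484.HS Pool.Agent.W484.TB

instance isAlgClosedQBar : IsAlgClosed QBar := IsAlgClosure.isAlgClosed ℚ

section

variable {I : Type} [Fintype I] {f : I → ℤ[X]} (hm : ∀ i, f i ≠ 0) {q : ℕ}

theorem card_rt (i : I) (hmon : (f i).Monic)
    (hirr : Irreducible ((f i).map (Int.castRingHom ℚ))) :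
    (rt hm i).card = (f i).natDegree := by
  classical
  have hsep : ((f i).map (algebraMap ℤ QBar)).Separable := by
    have h1 := hirr.separable
    have h2 := h1.map (f := algebraMap ℚ QBar)
    rwa [Polynomial.map_map, RingHom.ext_int ((algebraMap ℚ QBar).comp (Int.castRingHom ℚ))
      (algebraMap ℤ QBar)] at h2
  have hsplit : ((f i).map (algebraMap ℤ QBar)).Splits := IsAlgClosed.splits _
  have h1 : rt hm i = ((f i).map (algebraMap ℤ QBar)).roots.toFinset := by
    ext z
    rw [mem_rt, Multiset.mem_toFinset, mem_roots (hmon.map _).ne_zero, IsRoot.def, eval_map]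
    exact Iff.rfl
  rw [h1, Multiset.toFinset_card_of_nodup (nodup_roots hsep), ← hsplit.natDegree_eq_card_roots,
    hmon.natDegree_map]

theorem finite_span {R : Finset QBar} (hR : ∀ σ : QBar ≃ₐ[ℚ] QBar, ∀ z ∈ R, σ z ∈ R) {w : QBar → ℚ}
    (hodd : IsOddOn R q w) :
    Module.Finite ℚ (span ℚ {v : QBar → ℚ | ∃ σ : QBar ≃ₐ[ℚ] QBar, v = w ∘ σ}) := by
  classical
  let φ : (R → ℚ) →ₗ[ℚ] (QBar → ℚ) :=
    { toFun := fun a y => if hy : y ∈ R then a ⟨y, hy⟩ else 0
      map_add' := fun a b => by
        funext y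
        by_cases hy : y ∈ R <;> simp [hy]
      map_smul' := fun c a => by
        funext y
        by_cases hy : y ∈ R <;> simp [hy] }
  have hle : span ℚ {v : QBar → ℚ | ∃ σ : QBar ≃ₐ[ℚ] QBar, v = w ∘ σ} ≤ LinearMap.range φ := by
    rw [span_le]
    rintro _ ⟨σ, rfl⟩
    refine ⟨fun y => w (σ y), ?_⟩
    funext y
    by_cases hy : y ∈ R
    · simp [φ, hy]
    · have h1 := (hodd.comp hR σ).supp y hy
      simp only [Function.comp_apply] at h1
      simp [φ, hy, h1]
  exact Module.Finite.of_injective (inclusion hle) (inclusion_injective hle)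

variable (hq : 1 < q) (habs : HasAbs q f) (hss : NonSupersingular q f)

/-- The roots in the upper half plane. -/
noncomputable def upper (i : I) : Finset QBar := by
  classical
  exact (rt hm i).filter fun z => 0 < (z : ℂ).im

theorem mem_upper {i : I} {z : QBar} : z ∈ upper hm i ↔ z ∈ rt hm i ∧ 0 < (z : ℂ).im := by
  classical
  unfold upper
  rw [Finset.mem_filter]

include hq habs in
theorem im_dual {i : I} {z : QBar} (hz : z ∈ rt hm i) :
    (((q : QBar) / z : QBar) : ℂ).im = -(z : ℂ).im := by
  have h1 := conj_root hq habs ((aeval_coe_int (f i) z).2 ((mem_rt hm).1 hz))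
  have h2 : (((q : QBar) / z : QBar) : ℂ) = (q : ℂ) / (z : ℂ) := by
    have := map_div₀ (algebraMap QBar ℂ) (q : QBar) z
    rw [map_natCast] at this
    exact this
  rw [h2, ← h1, Complex.conj_im]

include hq habs hss in
theorem im_ne {i : I} {z : QBar} (hz : z ∈ rt hm i) : (z : ℂ).im ≠ 0 := by
  intro h
  have h1 := conj_root hq habs ((aeval_coe_int (f i) z).2 ((mem_rt hm).1 hz))
  rw [Complex.conj_eq_iff_im.2 h] at h1
  refine rt_ne hm hq habs hss i z hz ?_
  apply (algebraMap QBar ℂ).injective
  rw [map_div₀, map_natCast]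
  exact h1

include hq habs hss in
theorem two_mul_card_upper (i : I) : 2 * (upper hm i).card = (rt hm i).card := by
  classical
  have h1 : (rt hm i).card = (upper hm i).card +
      ((rt hm i).filter fun z : QBar => ¬ 0 < (z : ℂ).im).card := by
    unfold upper
    rw [Finset.card_filter_add_card_filter_not]
  have hq0 : q ≠ 0 := by omega
  have h2 : ((rt hm i).filter fun z : QBar => ¬ 0 < (z : ℂ).im).card = (upper hm i).card := by
    refine Finset.card_nbij' (fun z => (q : QBar) / z) (fun z => (q : QBar) / z) ?_ ?_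
      (fun z _ => dd hq0 z) (fun z _ => dd hq0 z)
    · intro z hz
      obtain ⟨h3, h4⟩ := Finset.mem_filter.1 (Finset.mem_coe.1 hz)
      refine Finset.mem_coe.2 ((mem_upper hm).2 ⟨rt_dual hm hq habs i z h3, ?_⟩)
      rw [im_dual hm hq habs h3]
      have := im_ne hm hq habs hss h3
      have h5 : (z : ℂ).im < 0 := lt_of_le_of_ne (not_lt.1 h4) this
      linarith
    · intro z hz
      obtain ⟨h3, h4⟩ := (mem_upper hm).1 (Finset.mem_coe.1 hz)
      refine Finset.mem_coe.2 (Finset.mem_filter.2 ⟨rt_dual hm hq habs i z h3, ?_⟩)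
      rw [im_dual hm hq habs h3]
      linarith
  omega

include hq habs hss in
/-- The dimension of the spans. -/
theorem card_upper_le (hirr : ∀ i, OddIrreducible q (rt hm i)) {w : QBar → ℚ}
    (hw : IsOddOn (rts hm) q w) {j : I} (hj : res (rt hm j) w ≠ 0) :
    (upper hm j).card ≤
      finrank ℚ (span ℚ {v : QBar → ℚ | ∃ σ : QBar ≃ₐ[ℚ] QBar, v = w ∘ σ}) := by
  classical
  have hq0 : q ≠ 0 := by omega
  have hR := rts_stable hm
  have hfin := finite_span hR hw
  set A : Set (QBar → ℚ) := {v : QBar → ℚ | ∃ σ : QBar ≃ₐ[ℚ] QBar, v = w ∘ σ} with hA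
  have hodd : IsOddOn (rt hm j) q (res (rt hm j) w) := res_odd (rt_dual hm hq habs j) hq0 hw
  have hmem : ∀ z ∈ upper hm j, dltQ q z ∈ map (res (rt hm j)) (span ℚ A) := by
    intro z hz
    have h1 := hirr j _ _ hodd hj (dltQ_odd hq0 (rt_dual hm hq habs j) ((mem_upper hm).1 hz).1)
    rw [map_span]
    have h2 : (res (rt hm j)) '' A = {x : QBar → ℚ | ∃ σ : QBar ≃ₐ[ℚ] QBar,
        x = res (rt hm j) w ∘ σ} := by
      ext x
      constructor
      · rintro ⟨_, ⟨σ, rfl⟩, rfl⟩
        exact ⟨σ, res_comp (rt_stable hm j) w σ⟩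
      · rintro ⟨σ, rfl⟩
        exact ⟨w ∘ σ, ⟨σ, rfl⟩, res_comp (rt_stable hm j) w σ⟩
    rw [h2]
    exact h1
  let b : upper hm j → map (res (rt hm j)) (span ℚ A) := fun z => ⟨dltQ q z, hmem z z.2⟩
  have hb : LinearIndependent ℚ b := by
    rw [Fintype.linearIndependent_iff]
    intro c hc y
    have h1 := congrArg (fun x : map (res (rt hm j)) (span ℚ A) => (x : QBar → ℚ) y) hc
    simp only [Submodule.coe_sum, Finset.sum_apply, Submodule.coe_smul, Pi.smul_apply, smul_eq_mul,
      Submodule.coe_zero, Pi.zero_apply, b] at h1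
    rw [Finset.sum_eq_single y] at h1
    · have h2 : dltQ q (y : QBar) y = 1 := by
        change ((dlt q (y : QBar) y : ℤ) : ℚ) = 1
        rw [dlt_self (rt_ne hm hq habs hss j _ ((mem_upper hm).1 y.2).1)]
        simp
      rw [h2, mul_one] at h1
      exact h1
    · intro z _ hzy
      have h3 : dlt q (z : QBar) y = 0 := by
        unfold dlt
        rw [if_neg (fun h => hzy (Subtype.ext h.symm)), if_neg, sub_zero]
        intro h
        have h4 := im_dual hm hq habs ((mem_upper hm).1 z.2).1
        rw [← h] at h4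
        have h5 := ((mem_upper hm).1 z.2).2
        have h6 := ((mem_upper hm).1 y.2).2
        linarith
      have h7 : dltQ q (z : QBar) y = 0 := by
        change ((dlt q (z : QBar) y : ℤ) : ℚ) = 0
        rw [h3]
        simp
      rw [h7, mul_zero]
    · intro h
      exact absurd (Finset.mem_univ y) h
  have h1 := hb.fintype_card_le_finrank
  rw [Fintype.card_coe] at h1
  exact h1.trans (finrank_map_le _ _)

include hq habs hss in
theorem largeSpans_of_irreducible (hirr : ∀ i, OddIrreducible q (rt hm i))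
    (hdis : ∀ i j, i ≠ j → Disjoint (rt hm i) (rt hm j)) {r : ℕ}
    (hr : ∀ i, 2 * r < (rt hm i).card) : LargeSpans q r f := by
  classical
  intro w hw hw0
  have hodd : IsOddOn (rts hm) q w := (isOddOn_rts hm).2 hw
  have hodd' : IsOddOn (Finset.univ.biUnion (rt hm)) q w := by
    rw [biUnion_rt]
    exact hodd
  obtain ⟨j, hj⟩ : ∃ j, res (rt hm j) w ≠ 0 := by
    by_contra hall
    push Not at hall
    apply hw0
    rw [eq_sum_res hdis hodd']
    exact Finset.sum_eq_zero fun i _ => hall i
  have h1 := card_upper_le hm hq habs hss hirr hodd hj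
  have h2 := two_mul_card_upper hm hq habs hss j
  have h3 := hr j
  omega

end

end Pool.Agent.T2h14.NR
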