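import Mathlib
import Pool.Agent.T2h14.NR.Dim

/-!
# Odd functions on `2 l` roots, `l` an odd prime
-/

set_option autoImplicit false
set_option linter.unusedSectionVars false

namespace Pool.Agent.T2h14.NR

open Polynomial Module Submodule

section cyclic

variable {q : ℕ} (hq : q ≠ 0) {R : Finset QBar} (hR : ∀ σ : QBar ≃ₐ[ℚ] QBar, ∀ z ∈ R, σ z ∈ R)
  (hd : ∀ z ∈ R, (q : QBar) / z ∈ R) (hne : ∀ z ∈ R, z ≠ (q : QBar) / z)
  (τ : QBar ≃ₐ[ℚ] QBar) {l : ℕ} (hl : l.Prime) (hl2 : l ≠ 2) (hcard : R.card = 2 * l)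
  (hper : ∀ z ∈ R, τ^[l] z = z) {z₀ : QBar} (hz₀ : z₀ ∈ R) (hmv : τ z₀ ≠ z₀)

/-- The orbit. -/
noncomputable def orb (τ : QBar ≃ₐ[ℚ] QBar) (l : ℕ) (z₀ : QBar) : Finset QBar := by
  classical
  exact (Finset.range l).image fun i => τ^[i] z₀

theorem mem_orb {z : QBar} : z ∈ orb τ l z₀ ↔ ∃ i < l, τ^[i] z₀ = z := by
  classical
  unfold orb
  simp

theorem iterate_dual (i : ℕ) (z : QBar) : τ^[i] ((q : QBar) / z) = q / τ^[i] z := by
  induction i with
  | zero => rfl
  | succ i ih => rw [Function.iterate_succ_apply', Function.iterate_succ_apply', ih, map_div₀,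
      map_natCast]

include hR in
theorem iterate_mem (i : ℕ) {z : QBar} (hz : z ∈ R) : τ^[i] z ∈ R := by
  induction i with
  | zero => exact hz
  | succ i ih =>
    rw [Function.iterate_succ_apply']
    exact hR τ _ ih

include hl hper hz₀ hmv in
theorem minPer : Function.minimalPeriod τ z₀ = l := by
  have : Fact l.Prime := ⟨hl⟩
  exact Function.minimalPeriod_eq_prime_iff.2 ⟨hper z₀ hz₀, hmv⟩

include hl hper hz₀ in
theorem iter_mem_orb (m : ℕ) : τ^[m] z₀ ∈ orb τ l z₀ := by
  refine (mem_orb τ).2 ⟨m % l, Nat.mod_lt _ hl.pos, ?_⟩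
  exact Function.IsPeriodicPt.iterate_mod_apply (show Function.IsPeriodicPt τ l z₀ from hper z₀ hz₀) m

include hl hper hz₀ hmv in
theorem card_orb : (orb τ l z₀).card = l := by
  classical
  unfold orb
  rw [Finset.card_image_of_injOn, Finset.card_range]
  intro i hi j hj hij
  have hm := minPer τ hl hper hz₀ hmv
  have h1 : i ∈ Set.Iio (Function.minimalPeriod τ z₀) := by
    rw [hm]
    simpa using hi
  have h2 : j ∈ Set.Iio (Function.minimalPeriod τ z₀) := by
    rw [hm]
    simpa using hj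
  exact Function.iterate_injOn_Iio_minimalPeriod h1 h2 hij

include hR hz₀ in
theorem orb_sub {z : QBar} (hz : z ∈ orb τ l z₀) : z ∈ R := by
  obtain ⟨i, -, rfl⟩ := (mem_orb τ).1 hz
  exact iterate_mem hR τ i hz₀

include hl hper hz₀ in
theorem orb_tau {z : QBar} (hz : z ∈ orb τ l z₀) (m : ℕ) : τ^[m] z ∈ orb τ l z₀ := by
  obtain ⟨i, -, rfl⟩ := (mem_orb τ).1 hz
  rw [← Function.iterate_add_apply]
  exact iter_mem_orb τ hl hper hz₀ _

include hq hne hl hl2 hper hz₀ hmv in
theorem orb_dual {z : QBar} (hz : z ∈ orb τ l z₀) : (q : QBar) / z ∉ orb τ l z₀ := by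
  intro h
  obtain ⟨i, hi, rfl⟩ := (mem_orb τ).1 hz
  obtain ⟨j, hj, h1⟩ := (mem_orb τ).1 h
  rw [← iterate_dual] at h1
  have hdz : τ^[l] ((q : QBar) / z₀) = q / z₀ := by rw [iterate_dual, hper z₀ hz₀]
  have h2 : (q : QBar) / z₀ = τ^[l - i + j] z₀ := by
    rw [Function.iterate_add_apply, h1, ← Function.iterate_add_apply,
      Nat.sub_add_cancel hi.le, hdz]
  set m := l - i + j with hm
  have h3 : z₀ = τ^[m + m] z₀ := by
    rw [Function.iterate_add_apply, ← h2, iterate_dual, ← h2, dd hq]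
  have h4 : Function.minimalPeriod τ z₀ ∣ m + m :=
    Function.IsPeriodicPt.minimalPeriod_dvd (show Function.IsPeriodicPt τ (m + m) z₀ from h3.symm)
  rw [minPer τ hl hper hz₀ hmv, ← two_mul] at h4
  have h5 : l ∣ m := (Nat.Coprime.dvd_mul_left ((Nat.coprime_primes hl Nat.prime_two).2 hl2)).1 h4
  have h6 : τ^[m] z₀ = z₀ := by
    rw [← Function.IsPeriodicPt.iterate_mod_apply
      (show Function.IsPeriodicPt τ l z₀ from hper z₀ hz₀) m, Nat.mod_eq_zero_of_dvd h5]
    rfl
  rw [h6] at h2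
  exact hne z₀ hz₀ h2.symm

include hq hR hd hne hl hl2 hcard hper hz₀ hmv in
theorem mem_orb_or {z : QBar} (hz : z ∈ R) : z ∈ orb τ l z₀ ∨ (q : QBar) / z ∈ orb τ l z₀ := by
  classical
  set C := orb τ l z₀ with hC
  set D := C.image (fun z => (q : QBar) / z) with hD
  have h1 : D.card = l := by
    rw [hD, Finset.card_image_of_injective _ (fun a b h => by
      have := congrArg (fun x => (q : QBar) / x) h
      simp only [dd hq] at this
      exact this), hC, card_orb τ hl hper hz₀ hmv]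
  have h2 : Disjoint C D := by
    rw [Finset.disjoint_left]
    intro x hx hxD
    obtain ⟨y, hy, h3⟩ := Finset.mem_image.1 hxD
    rw [← h3] at hx
    exact orb_dual hq hne τ hl hl2 hper hz₀ hmv hy hx
  have h3 : C ∪ D = R := by
    refine Finset.eq_of_subset_of_card_le ?_ ?_
    · intro x hx
      rcases Finset.mem_union.1 hx with h | h
      · exact orb_sub hR τ hz₀ h
      · obtain ⟨y, hy, rfl⟩ := Finset.mem_image.1 h
        exact hd y (orb_sub hR τ hz₀ hy)
    · rw [Finset.card_union_of_disjoint h2, h1, hcard, hC, card_orb τ hl hper hz₀ hmv]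
      omega
  rw [← h3] at hz
  rcases Finset.mem_union.1 hz with h | h
  · exact Or.inl h
  · obtain ⟨y, hy, rfl⟩ := Finset.mem_image.1 h
    right
    rw [dd hq]
    exact hy

/-- Two odd functions that agree on the orbit are equal. -/
theorem odd_ext (hall : ∀ z ∈ R, z ∈ orb τ l z₀ ∨ (q : QBar) / z ∈ orb τ l z₀) {v v' : QBar → ℚ}
    (hv : IsOddOn R q v) (hv' : IsOddOn R q v') (h : ∀ i, v (τ^[i] z₀) = v' (τ^[i] z₀)) :
    v = v' := by
  have h1 : ∀ z ∈ orb τ l z₀, v z = v' z := by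
    intro z hz
    obtain ⟨i, -, rfl⟩ := (mem_orb τ).1 hz
    exact h i
  funext z
  by_cases hz : z ∈ R
  · rcases hall z hz with h2 | h2
    · exact h1 z h2
    · have h3 := h1 _ h2
      rw [hv.odd, hv'.odd] at h3
      linarith
  · rw [hv.supp z hz, hv'.supp z hz]

/-- The operator `w ↦ w ∘ τ`. -/
noncomputable def op (τ : QBar ≃ₐ[ℚ] QBar) : Module.End ℚ (QBar → ℚ) where
  toFun w := w ∘ τ
  map_add' _ _ := rfl
  map_smul' _ _ := rfl

theorem op_pow (i : ℕ) (w : QBar → ℚ) : (op τ ^ i) w = w ∘ τ^[i] := by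
  induction i with
  | zero => rfl
  | succ i ih =>
    rw [pow_succ', Module.End.mul_apply, ih]
    funext z
    change w (τ^[i] (τ z)) = w (τ^[i + 1] z)
    rw [Function.iterate_succ_apply]

theorem aeval_op (p : ℚ[X]) (w : QBar → ℚ) (z : QBar) :
    (aeval (op τ) p w) z = ∑ i ∈ Finset.range (p.natDegree + 1), p.coeff i * w (τ^[i] z) := by
  rw [aeval_eq_sum_range, LinearMap.sum_apply, Finset.sum_apply]
  refine Finset.sum_congr rfl fun i _ => ?_
  rw [LinearMap.smul_apply, op_pow]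
  rfl

theorem aeval_op_mem (U : Submodule ℚ (QBar → ℚ)) (hst : ∀ σ : QBar ≃ₐ[ℚ] QBar, ∀ w ∈ U, w ∘ σ ∈ U)
    (p : ℚ[X]) {w : QBar → ℚ} (hw : w ∈ U) : aeval (op τ) p w ∈ U := by
  have h1 : ∀ i, (op τ ^ i) w ∈ U := by
    intro i
    induction i with
    | zero => exact hw
    | succ i ih =>
      rw [pow_succ', Module.End.mul_apply]
      exact hst τ _ ih
  rw [aeval_eq_sum_range, LinearMap.sum_apply]
  exact sum_mem fun i _ => U.smul_mem _ (h1 i)

theorem op_sum (w : QBar → ℚ) (l : ℕ) (z : QBar) :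
    (aeval (op τ) (∑ i ∈ Finset.range l, (X : ℚ[X]) ^ i) w) z =
      ∑ i ∈ Finset.range l, w (τ^[i] z) := by
  rw [map_sum, LinearMap.sum_apply, Finset.sum_apply]
  refine Finset.sum_congr rfl fun i _ => ?_
  rw [map_pow, aeval_X, op_pow]
  rfl

/-- The odd function that is `1` on the orbit. -/
noncomputable def wz (R : Finset QBar) (τ : QBar ≃ₐ[ℚ] QBar) (l : ℕ) (z₀ : QBar) : QBar → ℚ := by
  classical
  exact fun z => if z ∈ orb τ l z₀ then 1 else if z ∈ R then -1 else 0

theorem wz_orb {z : QBar} (hz : z ∈ orb τ l z₀) : wz R τ l z₀ z = 1 := by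
  classical
  exact if_pos hz

theorem wz_not {z : QBar} (hz : z ∉ orb τ l z₀) (hzR : z ∈ R) : wz R τ l z₀ z = -1 := by
  classical
  unfold wz
  rw [if_neg hz, if_pos hzR]

include hq hR hd hne hl hl2 hcard hper hz₀ hmv in
theorem wz_odd : IsOddOn R q (wz R τ l z₀) := by
  classical
  constructor
  · intro z hz
    unfold wz
    rw [if_neg fun h => hz (orb_sub hR τ hz₀ h), if_neg hz]
  · intro z
    by_cases hz : z ∈ R
    · rcases mem_orb_or hq hR hd hne τ hl hl2 hcard hper hz₀ hmv hz with h | h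
      · rw [wz_orb τ h, wz_not τ (orb_dual hq hne τ hl hl2 hper hz₀ hmv h) (hd z hz)]
      · have h2 : z ∉ orb τ l z₀ := by
          have := orb_dual hq hne τ hl hl2 hper hz₀ hmv h
          rwa [dd hq] at this
        rw [wz_orb τ h, wz_not τ h2 hz, neg_neg]
    · have h2 : (q : QBar) / z ∉ R := fun h => hz (by
        have := hd _ h
        rwa [dd hq] at this)
      unfold wz
      rw [if_neg fun h => hz (orb_sub hR τ hz₀ h), if_neg hz,
        if_neg fun h => h2 (orb_sub hR τ hz₀ h), if_neg h2, neg_zero]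

/-- The sum of the values on the orbit. -/
noncomputable def sv (τ : QBar ≃ₐ[ℚ] QBar) (l : ℕ) (z₀ : QBar) (v : QBar → ℚ) : ℚ :=
  ∑ i ∈ Finset.range l, v (τ^[i] z₀)

theorem sum_shift (F : ℕ → ℚ) (hF : ∀ i, F (i + l) = F i) (k : ℕ) :
    ∑ i ∈ Finset.range l, F (i + k) = ∑ i ∈ Finset.range l, F i := by
  induction k with
  | zero => rfl
  | succ k ih =>
    rw [← ih]
    have h1 := Finset.sum_range_succ (fun i => F (i + k)) l
    have h2 := Finset.sum_range_succ' (fun i => F (i + k)) l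
    rw [h1] at h2
    have h3 : F (l + k) = F (0 + k) := by rw [add_comm l k, hF, zero_add]
    rw [h3] at h2
    have h4 := add_right_cancel h2
    rw [h4]
    exact Finset.sum_congr rfl fun i _ => by rw [add_right_comm, add_assoc]

theorem comp_iter_odd (hR : ∀ σ : QBar ≃ₐ[ℚ] QBar, ∀ z ∈ R, σ z ∈ R) {v : QBar → ℚ}
    (hv : IsOddOn R q v) (i : ℕ) : IsOddOn R q (v ∘ τ^[i]) := by
  induction i with
  | zero => exact hv
  | succ i ih => exact ih.comp hR τ

theorem aeval_odd (hR : ∀ σ : QBar ≃ₐ[ℚ] QBar, ∀ z ∈ R, σ z ∈ R) {v : QBar → ℚ}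
    (hv : IsOddOn R q v) (p : ℚ[X]) : IsOddOn R q (aeval (op τ) p v) := by
  constructor
  · intro z hz
    rw [aeval_op]
    exact Finset.sum_eq_zero fun i _ => by
      have := (comp_iter_odd τ hR hv i).supp z hz
      rw [Function.comp_apply] at this
      rw [this, mul_zero]
  · intro z
    rw [aeval_op, aeval_op, ← Finset.sum_neg_distrib]
    refine Finset.sum_congr rfl fun i _ => ?_
    have := (comp_iter_odd τ hR hv i).odd z
    rw [Function.comp_apply, Function.comp_apply] at this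
    rw [this]
    ring

include hq hR hd hne hl hl2 hcard hper hz₀ hmv in
theorem sum_eq {v : QBar → ℚ} (hv : IsOddOn R q v) :
    aeval (op τ) (∑ i ∈ Finset.range l, (X : ℚ[X]) ^ i) v = sv τ l z₀ v • wz R τ l z₀ := by
  refine odd_ext τ (fun z hz => mem_orb_or hq hR hd hne τ hl hl2 hcard hper hz₀ hmv hz)
    (aeval_odd τ hR hv _) ((wz_odd hq hR hd hne τ hl hl2 hcard hper hz₀ hmv).smulQ _) fun k => ?_
  rw [op_sum, Pi.smul_apply, wz_orb τ (iter_mem_orb τ hl hper hz₀ k), smul_eq_mul, mul_one, sv]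
  have h := sum_shift (l := l) (fun i => v (τ^[i] z₀)) (fun i => by
    rw [Function.iterate_add_apply, hper z₀ hz₀]) k
  rw [← h]
  exact Finset.sum_congr rfl fun i _ => by rw [Function.iterate_add_apply]

theorem odd_ext' (hall : ∀ z ∈ R, z ∈ orb τ l z₀ ∨ (q : QBar) / z ∈ orb τ l z₀) {v v' : QBar → ℚ}
    (hv : IsOddOn R q v) (hv' : IsOddOn R q v') (h : ∀ i < l, v (τ^[i] z₀) = v' (τ^[i] z₀)) :
    v = v' := by
  have h1 : ∀ z ∈ orb τ l z₀, v z = v' z := by
    intro z hz
    obtain ⟨i, hi, rfl⟩ := (mem_orb τ).1 hz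
    exact h i hi
  funext z
  by_cases hz : z ∈ R
  · rcases hall z hz with h2 | h2
    · exact h1 z h2
    · have h3 := h1 _ h2
      rw [hv.odd, hv'.odd] at h3
      linarith
  · rw [hv.supp z hz, hv'.supp z hz]

include hq hne hl hl2 hper hz₀ hmv in
theorem dltQ_iter (j : ℕ) : dltQ q z₀ (τ^[j] z₀) = if l ∣ j then 1 else 0 := by
  classical
  have h1 : (τ^[j] z₀ = z₀) ↔ l ∣ j := by
    rw [← minPer τ hl hper hz₀ hmv]
    exact Function.isPeriodicPt_iff_minimalPeriod_dvd
  have h2 : τ^[j] z₀ ≠ (q : QBar) / z₀ := by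
    intro h
    have h3 := orb_dual hq hne τ hl hl2 hper hz₀ hmv (iter_mem_orb τ hl hper hz₀ 0)
    exact h3 (by
      have := iter_mem_orb τ hl hper hz₀ j
      rwa [h] at this)
  unfold dltQ dlt
  rw [if_neg h2, sub_zero]
  by_cases h3 : l ∣ j
  · rw [if_pos h3, if_pos (h1.2 h3)]
    simp
  · rw [if_neg h3, if_neg fun h => h3 (h1.1 h)]
    simp

include hq hR hd hne hl hl2 hcard hper hz₀ hmv in
/-- The space of odd functions is cyclic. -/
theorem exists_gen {v : QBar → ℚ} (hv : IsOddOn R q v) :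
    ∃ g : ℚ[X], aeval (op τ) g (dltQ q z₀) = v := by
  refine ⟨∑ k ∈ Finset.range l, Polynomial.C (v (τ^[k] z₀)) * X ^ (l - k), ?_⟩
  refine odd_ext' τ (fun z hz => mem_orb_or hq hR hd hne τ hl hl2 hcard hper hz₀ hmv hz)
    (aeval_odd τ hR (dltQ_odd hq hd hz₀) _) hv fun m hm => ?_
  rw [map_sum, LinearMap.sum_apply, Finset.sum_apply, Finset.sum_eq_single m]
  · rw [map_mul, aeval_C, map_pow, aeval_X, Module.End.mul_apply, op_pow, Module.algebraMap_end_apply,
      Pi.smul_apply, Function.comp_apply, ← Function.iterate_add_apply, Nat.sub_add_cancel hm.le,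
      dltQ_iter hq hne τ hl hl2 hper hz₀ hmv, if_pos dvd_rfl, smul_eq_mul, mul_one]
  · intro k hk hkm
    rw [Finset.mem_range] at hk
    rw [map_mul, aeval_C, map_pow, aeval_X, Module.End.mul_apply, op_pow, Module.algebraMap_end_apply,
      Pi.smul_apply, Function.comp_apply, ← Function.iterate_add_apply,
      dltQ_iter hq hne τ hl hl2 hper hz₀ hmv, if_neg, smul_zero]
    intro h
    rcases lt_or_gt_of_ne hkm with h1 | h1
    · have h2 : l - k + m = (m - k) + l := by omega
      rw [h2, Nat.dvd_add_self_right] at h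
      have := Nat.le_of_dvd (by omega) h
      omega
    · have := Nat.le_of_dvd (by omega) h
      omega
  · intro h
    exact absurd (Finset.mem_range.2 hm) h

include hq hR hd hne hl hl2 hcard hper hz₀ hmv in
theorem aeval_period {v : QBar → ℚ} (hv : IsOddOn R q v) :
    aeval (op τ) ((∑ i ∈ Finset.range l, (X : ℚ[X]) ^ i) * (X - 1)) v = 0 := by
  rw [geom_sum_mul, map_sub, map_pow, aeval_X, map_one, LinearMap.sub_apply, op_pow,
    Module.End.one_apply, sub_eq_zero]
  refine odd_ext τ (fun z hz => mem_orb_or hq hR hd hne τ hl hl2 hcard hper hz₀ hmv hz)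
    (comp_iter_odd τ hR hv l) hv fun i => ?_
  rw [Function.comp_apply, hper _ (iterate_mem hR τ i hz₀)]

theorem geom_irreducible (hl : l.Prime) : Irreducible (∑ i ∈ Finset.range l, (X : ℚ[X]) ^ i) := by
  have : Fact l.Prime := ⟨hl⟩
  rw [← Polynomial.cyclotomic_prime ℚ l]
  exact Polynomial.cyclotomic.irreducible_rat hl.pos

include hq hR hd hne hl hl2 hcard hper hz₀ hmv in
/-- Spans of functions that are not invariant and have nonzero sum. -/
theorem mem_of_generic (U : Submodule ℚ (QBar → ℚ))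
    (hst : ∀ σ : QBar ≃ₐ[ℚ] QBar, ∀ w ∈ U, w ∘ σ ∈ U) {w v : QBar → ℚ} (hw : IsOddOn R q w)
    (hwU : w ∈ U) (h1 : w ∘ τ ≠ w) (h2 : sv τ l z₀ w ≠ 0) (hv : IsOddOn R q v) : v ∈ U := by
  set δ := dltQ q z₀ with hδ
  set P : ℚ[X] := ∑ i ∈ Finset.range l, (X : ℚ[X]) ^ i with hP
  have hδodd : IsOddOn R q δ := dltQ_odd hq hd hz₀
  obtain ⟨h, rfl⟩ := exists_gen hq hR hd hne τ hl hl2 hcard hper hz₀ hmv hw
  obtain ⟨g, rfl⟩ := exists_gen hq hR hd hne τ hl hl2 hcard hper hz₀ hmv hv
  rw [← hδ] at h1 h2 hwU hw hv ⊢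
  have hzero := aeval_period hq hR hd hne τ hl hl2 hcard hper hz₀ hmv hδodd
  rw [← hP] at hzero
  have hc1 : IsCoprime P h := by
    rcases (geom_irreducible hl).isCoprime_or_dvd h with h3 | ⟨k, hk⟩
    · exact h3
    · exfalso
      apply h1
      have h4 : aeval (op τ) (X - 1 : ℚ[X]) (aeval (op τ) h δ) = 0 := by
        rw [hk, ← hP, ← Module.End.mul_apply, ← map_mul,
          show (X - 1) * (P * k) = k * (P * (X - 1)) by ring, map_mul, Module.End.mul_apply, hzero,
          map_zero]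
      rw [map_sub, aeval_X, map_one, LinearMap.sub_apply, Module.End.one_apply, sub_eq_zero] at h4
      exact h4
  have hc2 : IsCoprime (X - 1 : ℚ[X]) h := by
    have hirr : Irreducible (X - 1 : ℚ[X]) := by
      have := irreducible_X_sub_C (1 : ℚ)
      rwa [map_one] at this
    rcases hirr.isCoprime_or_dvd h with h3 | ⟨k, hk⟩
    · exact h3
    · exfalso
      apply h2
      have h4 := sum_eq hq hR hd hne τ hl hl2 hcard hper hz₀ hmv hw
      have h5 : aeval (op τ) P (aeval (op τ) h δ) = 0 := by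
        rw [hk, ← Module.End.mul_apply, ← map_mul,
          show P * ((X - 1) * k) = k * (P * (X - 1)) by ring, map_mul, Module.End.mul_apply, hzero,
          map_zero]
      rw [← hP, h5] at h4
      have h6 := congrFun h4 z₀
      have h8 : wz R τ l z₀ z₀ = 1 := wz_orb τ (iter_mem_orb τ hl hper hz₀ 0)
      rw [Pi.smul_apply, h8, smul_eq_mul, mul_one] at h6
      exact h6.symm
  obtain ⟨a, b, hab⟩ := hc1.mul_left hc2
  have h7 : aeval (op τ) g δ = aeval (op τ) (g * b) (aeval (op τ) h δ) := by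
    rw [← Module.End.mul_apply, ← map_mul]
    conv_lhs => rw [show g = (g * a) * (P * (X - 1)) + g * b * h by
      rw [mul_assoc g b h, mul_assoc g a, ← mul_add, hab, mul_one]]
    rw [map_add, LinearMap.add_apply, map_mul _ (g * a), Module.End.mul_apply, hzero, map_zero,
      zero_add]
  rw [h7]
  exact aeval_op_mem τ U hst _ hwU

include hq hR hd hne hl hl2 hcard hper hz₀ hmv in
/-- Spans of functions with sum zero. -/
theorem mem_of_sum_zero (U : Submodule ℚ (QBar → ℚ))
    (hst : ∀ σ : QBar ≃ₐ[ℚ] QBar, ∀ w ∈ U, w ∘ σ ∈ U) {w v : QBar → ℚ} (hw : IsOddOn R q w)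
    (hwU : w ∈ U) (h1 : w ≠ 0) (h2 : sv τ l z₀ w = 0) (hv : IsOddOn R q v)
    (h3 : sv τ l z₀ v = 0) : v ∈ U := by
  set δ := dltQ q z₀ with hδ
  set P : ℚ[X] := ∑ i ∈ Finset.range l, (X : ℚ[X]) ^ i with hP
  have hδodd : IsOddOn R q δ := dltQ_odd hq hd hz₀
  have hPw : aeval (op τ) P w = 0 := by
    rw [hP, sum_eq hq hR hd hne τ hl hl2 hcard hper hz₀ hmv hw, h2, zero_smul]
  have hPv : aeval (op τ) P v = 0 := by
    rw [hP, sum_eq hq hR hd hne τ hl hl2 hcard hper hz₀ hmv hv, h3, zero_smul]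
  obtain ⟨h, hh⟩ := exists_gen hq hR hd hne τ hl hl2 hcard hper hz₀ hmv hw
  obtain ⟨g, hg⟩ := exists_gen hq hR hd hne τ hl hl2 hcard hper hz₀ hmv hv
  rw [← hδ] at hh hg
  have hzero := aeval_period hq hR hd hne τ hl hl2 hcard hper hz₀ hmv hδodd
  rw [← hP] at hzero
  have hc1 : IsCoprime P h := by
    rcases (geom_irreducible hl).isCoprime_or_dvd h with h3 | ⟨k, hk⟩
    · exact h3
    · exfalso
      apply h1
      have h4 : aeval (op τ) (X - 1 : ℚ[X]) w = 0 := by
        rw [← hh, hk, ← hP, ← Module.End.mul_apply, ← map_mul,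
          show (X - 1) * (P * k) = k * (P * (X - 1)) by ring, map_mul, Module.End.mul_apply, hzero,
          map_zero]
      rw [map_sub, aeval_X, map_one, LinearMap.sub_apply, Module.End.one_apply, sub_eq_zero] at h4
      have h4' : w ∘ τ = w := h4
      have h5 : ∀ i, w ∘ τ^[i] = w := by
        intro i
        induction i with
        | zero => rfl
        | succ i ih =>
          rw [Function.iterate_succ, ← Function.comp_assoc, ih, h4']
      funext z
      have h6 := congrFun hPw z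
      have h5' : ∀ i, w (τ^[i] z) = w z := fun i => congrFun (h5 i) z
      rw [hP, op_sum] at h6
      simp only [h5'] at h6
      rw [Finset.sum_const, Finset.card_range, nsmul_eq_mul] at h6
      rcases mul_eq_zero.1 h6 with h7 | h7
      · exact absurd h7 (by exact_mod_cast hl.ne_zero)
      · exact h7
  obtain ⟨a, b, hab⟩ := hc1
  have h7 : v = aeval (op τ) (g * b) w := by
    have h8 : aeval (op τ) (a * P + b * h) v = v := by
      rw [hab, map_one]
      rfl
    rw [map_add, LinearMap.add_apply, map_mul (aeval (op τ)) a P, Module.End.mul_apply, hPv, map_zero,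
      zero_add] at h8
    rw [← h8, ← hh]
    nth_rewrite 1 [← hg]
    rw [← Module.End.mul_apply, ← Module.End.mul_apply, ← map_mul, ← map_mul]
    congr 2
    ring
  rw [h7]
  exact aeval_op_mem τ U hst _ hwU

end cyclic

end Pool.Agent.T2h14.NR
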