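import Mathlib
import Pool.Agent.T2h14.NR.Prime

/-!
# Odd functions on `2 l` roots, `l` an odd prime: irreducibility
-/

set_option autoImplicit false
set_option linter.unusedSectionVars false

namespace Pool.Agent.T2h14.NR

open Polynomial Module Submodule

section

variable {q : ℕ} (hq : q ≠ 0) {R : Finset QBar} (hR : ∀ σ : QBar ≃ₐ[ℚ] QBar, ∀ z ∈ R, σ z ∈ R)
  (hd : ∀ z ∈ R, (q : QBar) / z ∈ R) (hne : ∀ z ∈ R, z ≠ (q : QBar) / z)
  (τ : QBar ≃ₐ[ℚ] QBar) {l : ℕ} (hl : l.Prime) (hl2 : l ≠ 2) (hcard : R.card = 2 * l)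
  (hper : ∀ z ∈ R, τ^[l] z = z) {z₀ : QBar} (hz₀ : z₀ ∈ R) (hmv : τ z₀ ≠ z₀)

theorem wz_val {z : QBar} (hz : z ∈ R) : wz R τ l z₀ z = 1 ∨ wz R τ l z₀ z = -1 := by
  by_cases h : z ∈ orb τ l z₀
  · exact Or.inl (wz_orb τ h)
  · exact Or.inr (wz_not τ h hz)

/-- A sum of an odd number of signs is not zero. -/
theorem sum_signs {n : ℕ} (hn : ¬ 2 ∣ n) (F : ℕ → ℚ) (hF : ∀ i, F i = 1 ∨ F i = -1) :
    ∑ i ∈ Finset.range n, F i ≠ 0 := by
  have h1 : ∀ n : ℕ, ∃ k : ℤ, ∑ i ∈ Finset.range n, F i = n + 2 * k := by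
    intro n
    induction n with
    | zero => exact ⟨0, by simp⟩
    | succ n ih =>
      obtain ⟨k, hk⟩ := ih
      rw [Finset.sum_range_succ, hk]
      rcases hF n with h | h
      · exact ⟨k, by rw [h]; push_cast; ring⟩
      · exact ⟨k - 1, by rw [h]; push_cast; ring⟩
  obtain ⟨k, hk⟩ := h1 n
  rw [hk]
  intro h
  have h2 : (n : ℤ) + 2 * k = 0 := by exact_mod_cast h
  apply hn
  omega

/-- The value of the sum of a function that is invariant under `τ`. -/
theorem sv_inv {w : QBar → ℚ} (h : w ∘ τ = w) : sv τ l z₀ w = l * w z₀ := by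
  have h5 : ∀ i, w (τ^[i] z₀) = w z₀ := by
    intro i
    induction i with
    | zero => rfl
    | succ i ih =>
      rw [Function.iterate_succ_apply']
      have := congrFun h (τ^[i] z₀)
      rw [Function.comp_apply] at this
      rw [this, ih]
  unfold sv
  rw [Finset.sum_congr rfl fun i _ => h5 i, Finset.sum_const, Finset.card_range, nsmul_eq_mul]

theorem inv_const {w : QBar → ℚ} (h : w ∘ τ = w) (i : ℕ) : w (τ^[i] z₀) = w z₀ := by
  induction i with
  | zero => rfl
  | succ i ih =>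
    rw [Function.iterate_succ_apply']
    have := congrFun h (τ^[i] z₀)
    rw [Function.comp_apply] at this
    rw [this, ih]

theorem sv_add (v w : QBar → ℚ) : sv τ l z₀ (v + w) = sv τ l z₀ v + sv τ l z₀ w := by
  unfold sv
  rw [← Finset.sum_add_distrib]
  rfl

theorem sv_smul (c : ℚ) (w : QBar → ℚ) : sv τ l z₀ (c • w) = c * sv τ l z₀ w := by
  unfold sv
  rw [Finset.mul_sum]
  rfl

include hq hR hd hne hl hl2 hcard hper hz₀ hmv in
/-- The sum of the odd function of a root. -/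
theorem sv_dltQ {z : QBar} (hz : z ∈ R) : sv τ l z₀ (dltQ q z) = wz R τ l z₀ z := by
  classical
  have h1 : ∀ y ∈ orb τ l z₀, sv τ l z₀ (dltQ q y) = 1 := by
    intro y hy
    obtain ⟨i, hi, rfl⟩ := (mem_orb τ).1 hy
    unfold sv
    rw [Finset.sum_eq_single i]
    · change ((dlt q (τ^[i] z₀) (τ^[i] z₀) : ℤ) : ℚ) = 1
      rw [dlt_self (hne _ (iterate_mem hR τ i hz₀))]
      simp
    · intro j hj hji
      rw [Finset.mem_range] at hj
      unfold dltQ dlt
      rw [if_neg, if_neg]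
      · simp
      · intro h
        have := orb_dual hq hne τ hl hl2 hper hz₀ hmv hy
        rw [← h] at this
        exact this (iter_mem_orb τ hl hper hz₀ j)
      · intro h
        apply hji
        have hm := minPer τ hl hper hz₀ hmv
        have h1 : i ∈ Set.Iio (Function.minimalPeriod τ z₀) := by
          rw [hm]
          exact hi
        have h2 : j ∈ Set.Iio (Function.minimalPeriod τ z₀) := by
          rw [hm]
          exact hj
        exact Function.iterate_injOn_Iio_minimalPeriod h2 h1 h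
    · intro h
      exact absurd (Finset.mem_range.2 hi) h
  rcases mem_orb_or hq hR hd hne τ hl hl2 hcard hper hz₀ hmv hz with h | h
  · rw [h1 z h, wz_orb τ h]
  · have h2 : dltQ q z = (-1 : ℚ) • dltQ q ((q : QBar) / z) := by
      funext y
      rw [Pi.smul_apply]
      unfold dltQ dlt
      rw [dd hq, smul_eq_mul]
      push_cast
      ring
    have h3 : z ∉ orb τ l z₀ := by
      have := orb_dual hq hne τ hl hl2 hper hz₀ hmv h
      rwa [dd hq] at this
    rw [h2, sv_smul, h1 _ h, wz_not τ h3 hz]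
    norm_num

include hq hR hd hne hl hl2 hcard hper hz₀ hmv in
/-- **Irreducibility.** -/
theorem irreducible_of {σ₀ : QBar ≃ₐ[ℚ] QBar} (h1 : wz R τ l z₀ ∘ σ₀ ≠ wz R τ l z₀)
    (h2 : wz R τ l z₀ ∘ σ₀ ≠ -wz R τ l z₀) : OddIrreducible q R := by
  classical
  intro w v hw hw0 hv
  set U := span ℚ {x : QBar → ℚ | ∃ σ : QBar ≃ₐ[ℚ] QBar, x = w ∘ σ} with hU
  have hst : ∀ σ : QBar ≃ₐ[ℚ] QBar, ∀ w ∈ U, w ∘ σ ∈ U := by
    intro σ x hx
    let φ : (QBar → ℚ) →ₗ[ℚ] (QBar → ℚ) := op σ
    have h3 : U ≤ comap φ U := by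
      rw [hU, span_le]
      rintro _ ⟨τ, rfl⟩
      exact subset_span ⟨σ.trans τ, rfl⟩
    exact h3 hx
  have hwU : w ∈ U := subset_span ⟨AlgEquiv.refl, rfl⟩
  set w₀ := wz R τ l z₀ with hw₀
  have hw₀odd : IsOddOn R q w₀ := wz_odd hq hR hd hne τ hl hl2 hcard hper hz₀ hmv
  have hall := fun z hz => mem_orb_or hq hR hd hne τ hl hl2 hcard hper hz₀ hmv (z := z) hz
  have horb0 : z₀ ∈ orb τ l z₀ := iter_mem_orb τ hl hper hz₀ 0
  have hlQ : (l : ℚ) ≠ 0 := by exact_mod_cast hl.ne_zero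
  have hnd : ¬ 2 ∣ l := fun h => hl2 ((Nat.prime_dvd_prime_iff_eq Nat.prime_two hl).1 h).symm
  set u := w₀ ∘ σ₀ with hu
  have huodd : IsOddOn R q u := hw₀odd.comp hR σ₀
  have huval : ∀ z ∈ R, u z = 1 ∨ u z = -1 := fun z hz => wz_val τ (hR σ₀ z hz)
  -- `u` is not invariant
  have hunc : ¬ ∀ i, u (τ^[i] z₀) = u z₀ := by
    intro h
    rcases huval z₀ hz₀ with h3 | h3
    · apply h1
      refine odd_ext τ hall huodd hw₀odd fun i => ?_
      rw [h i, h3, hw₀, wz_orb τ (iter_mem_orb τ hl hper hz₀ i)]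
    · apply h2
      have h4 : -w₀ = (-1 : ℚ) • w₀ := by simp
      rw [h4]
      refine odd_ext τ hall huodd (hw₀odd.smulQ (-1)) fun i => ?_
      rw [h i, h3, hw₀, Pi.smul_apply, wz_orb τ (iter_mem_orb τ hl hper hz₀ i)]
      simp
  by_cases hs : sv τ l z₀ w = 0
  · -- sum zero
    push Not at hunc
    obtain ⟨k, hk⟩ := hunc
    set a := τ^[k] z₀ with ha
    have haR : a ∈ R := iterate_mem hR τ k hz₀
    have haC : a ∈ orb τ l z₀ := iter_mem_orb τ hl hper hz₀ k
    set h := dltQ q a + (-1 : ℚ) • dltQ q z₀ with hh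
    have hhodd : IsOddOn R q h := (dltQ_odd hq hd haR).addQ ((dltQ_odd hq hd hz₀).smulQ _)
    have hhs : sv τ l z₀ h = 0 := by
      rw [hh, sv_add, sv_smul, sv_dltQ hq hR hd hne τ hl hl2 hcard hper hz₀ hmv haR,
        sv_dltQ hq hR hd hne τ hl hl2 hcard hper hz₀ hmv hz₀, wz_orb τ haC, wz_orb τ horb0]
      norm_num
    have hhU : h ∈ U := mem_of_sum_zero hq hR hd hne τ hl hl2 hcard hper hz₀ hmv U hst hw hwU hw0 hs
      hhodd hhs
    have hcomp : ∀ z : QBar, dltQ q z ∘ σ₀.symm = dltQ q (σ₀ z) := by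
      intro z
      funext y
      change dltQ q z (σ₀.symm y) = dltQ q (σ₀ z) y
      unfold dltQ dlt
      have e1 : (σ₀.symm y = z) ↔ (y = σ₀ z) := by
        rw [AlgEquiv.symm_apply_eq]
      have e2 : (σ₀.symm y = (q : QBar) / z) ↔ (y = (q : QBar) / σ₀ z) := by
        rw [AlgEquiv.symm_apply_eq, map_div₀, map_natCast]
      rcases Classical.em (y = σ₀ z) with k1 | k1 <;>
        rcases Classical.em (y = (q : QBar) / σ₀ z) with k2 | k2
      · rw [if_pos (e1.2 k1), if_pos (e2.2 k2), if_pos k1, if_pos k2]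
      · rw [if_pos (e1.2 k1), if_neg (mt e2.1 k2), if_pos k1, if_neg k2]
      · rw [if_neg (mt e1.1 k1), if_pos (e2.2 k2), if_neg k1, if_pos k2]
      · rw [if_neg (mt e1.1 k1), if_neg (mt e2.1 k2), if_neg k1, if_neg k2]
    set h' := h ∘ σ₀.symm with hh'
    have hh'U : h' ∈ U := hst σ₀.symm h hhU
    have hh'odd : IsOddOn R q h' := hhodd.comp hR σ₀.symm
    have hh'eq : h' = dltQ q (σ₀ a) + (-1 : ℚ) • dltQ q (σ₀ z₀) := by
      rw [← hcomp, ← hcomp]
      rfl
    have hh's : sv τ l z₀ h' = u a - u z₀ := by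
      rw [hh'eq, sv_add, sv_smul, sv_dltQ hq hR hd hne τ hl hl2 hcard hper hz₀ hmv (hR σ₀ a haR),
        sv_dltQ hq hR hd hne τ hl hl2 hcard hper hz₀ hmv (hR σ₀ z₀ hz₀), ← hw₀]
      simp only [hu, Function.comp_apply]
      ring
    refine mem_of_generic hq hR hd hne τ hl hl2 hcard hper hz₀ hmv U hst hh'odd hh'U ?_ ?_ hv
    · intro hinv
      have h3 := sv_inv τ (l := l) (z₀ := z₀) hinv
      rw [hh's] at h3
      have h4 : ∃ m : ℤ, h' z₀ = m := by
        rw [hh'eq]
        refine ⟨dlt q (σ₀ a) z₀ - dlt q (σ₀ z₀) z₀, ?_⟩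
        rw [Pi.add_apply, Pi.smul_apply]
        unfold dltQ
        push_cast
        rw [smul_eq_mul]
        ring
      obtain ⟨m, hm⟩ := h4
      rw [hm] at h3
      have h5 : (l : ℤ) * m = 2 ∨ (l : ℤ) * m = -2 := by
        rcases huval a haR with h6 | h6 <;> rcases huval z₀ hz₀ with h7 | h7
        · exact absurd (h6.trans h7.symm) hk
        · left
          rw [h6, h7] at h3
          have h8 : ((l : ℤ) * m : ℚ) = 2 := by
            push_cast
            rw [← h3]
            norm_num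
          exact_mod_cast h8
        · right
          rw [h6, h7] at h3
          have h8 : ((l : ℤ) * m : ℚ) = -2 := by
            push_cast
            rw [← h3]
            norm_num
          exact_mod_cast h8
        · exact absurd (h6.trans h7.symm) hk
      have h9 : (l : ℤ) ∣ 2 := by
        rcases h5 with h | h
        · exact ⟨m, h.symm⟩
        · exact ⟨-m, by rw [mul_neg, h]; norm_num⟩
      have h10 : l ∣ 2 := by exact_mod_cast h9
      exact hl2 ((Nat.prime_dvd_prime_iff_eq hl Nat.prime_two).1 h10)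
    · rw [hh's]
      exact sub_ne_zero.2 hk
  · by_cases hinv : w ∘ τ = w
    · -- `w` is a multiple of `w₀`
      have hwz : w z₀ ≠ 0 := by
        intro h
        apply hs
        rw [sv_inv τ hinv, h, mul_zero]
      have hww : w = w z₀ • w₀ := by
        refine odd_ext τ hall hw (hw₀odd.smulQ _) fun i => ?_
        rw [inv_const τ hinv i, Pi.smul_apply, hw₀, wz_orb τ (iter_mem_orb τ hl hper hz₀ i),
          smul_eq_mul, mul_one]
      have huU : u ∈ U := by
        have h3 : w ∘ σ₀ ∈ U := hst σ₀ w hwU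
        have h4 : w ∘ σ₀ = w z₀ • u := by
          conv_lhs => rw [hww]
          rfl
        rw [h4] at h3
        have h5 := U.smul_mem (w z₀)⁻¹ h3
        rwa [smul_smul, inv_mul_cancel₀ hwz, one_smul] at h5
      refine mem_of_generic hq hR hd hne τ hl hl2 hcard hper hz₀ hmv U hst huodd huU ?_ ?_ hv
      · intro h
        exact hunc (inv_const τ h)
      · exact sum_signs hnd _ fun i => huval _ (iterate_mem hR τ i hz₀)
    · exact mem_of_generic hq hR hd hne τ hl hl2 hcard hper hz₀ hmv U hst hw hwU hinv hs hv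

end

end Pool.Agent.T2h14.NR
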