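import Mathlib
import Pool.Agent.T2h14.NR.PrimeB

/-!
# Weil polynomials of degree `2 l` without imaginary quadratic subfields
-/

set_option autoImplicit false
set_option linter.unusedSectionVars false

namespace Pool.Agent.T2h14.NR

open Polynomial Module Submodule

section

variable {R : Finset QBar} (hR : ∀ σ : QBar ≃ₐ[ℚ] QBar, ∀ z ∈ R, σ z ∈ R)

/-- The action on `R`. -/
noncomputable def permHom : (QBar ≃ₐ[ℚ] QBar) →* Equiv.Perm R where
  toFun σ :=
    { toFun := fun z => ⟨σ z, hR σ z z.2⟩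
      invFun := fun z => ⟨σ.symm z, hR σ.symm z z.2⟩
      left_inv := fun _ => Subtype.ext (σ.symm_apply_apply _)
      right_inv := fun _ => Subtype.ext (σ.apply_symm_apply _) }
  map_one' := rfl
  map_mul' _ _ := rfl

theorem permHom_apply (σ : QBar ≃ₐ[ℚ] QBar) (z : R) :
    ((permHom hR σ z : R) : QBar) = σ z := rfl

theorem permHom_pow (σ : QBar ≃ₐ[ℚ] QBar) (i : ℕ) (z : R) :
    (((permHom hR σ ^ i) z : R) : QBar) = σ^[i] z := by
  induction i with
  | zero => rfl
  | succ i ih =>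
    rw [pow_succ', Equiv.Perm.mul_apply, permHom_apply, ih, Function.iterate_succ_apply']

include hR in
/-- **An element of order `l`.** -/
theorem exists_tau {l : ℕ} (hl : l.Prime) (hcard : R.card = 2 * l)
    (htrans : ∀ z ∈ R, ∀ z' ∈ R, ∃ σ : QBar ≃ₐ[ℚ] QBar, σ z = z') :
    ∃ τ : QBar ≃ₐ[ℚ] QBar, (∀ z ∈ R, τ^[l] z = z) ∧ ∃ z₀ ∈ R, τ z₀ ≠ z₀ := by
  classical
  set H := (permHom hR).range with hH
  have : MulAction.IsPretransitive H R := by
    constructor
    rintro ⟨x, hx⟩ ⟨y, hy⟩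
    obtain ⟨σ, hσ⟩ := htrans x hx y hy
    exact ⟨⟨permHom hR σ, ⟨σ, rfl⟩⟩, Subtype.ext hσ⟩
  have hpos : 0 < R.card := by
    rw [hcard]
    have := hl.pos
    omega
  obtain ⟨z, hz⟩ := Finset.card_pos.1 hpos
  have h1 : Nat.card R ∣ Nat.card H := by
    rw [← MulAction.index_stabilizer_of_transitive H (⟨z, hz⟩ : R)]
    exact Subgroup.index_dvd_card _
  have h2 : l ∣ Nat.card H := by
    refine dvd_trans ?_ h1
    rw [Nat.card_eq_fintype_card, Fintype.card_coe, hcard]
    exact dvd_mul_left l 2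
  have : Fact l.Prime := ⟨hl⟩
  obtain ⟨⟨g, τ, rfl⟩, hg⟩ := exists_prime_orderOf_dvd_card' l h2
  have h3 : orderOf (permHom hR τ) = l := by
    rw [← hg, ← Subgroup.orderOf_coe]
  refine ⟨τ, fun z hz => ?_, ?_⟩
  · rw [← permHom_pow hR τ l ⟨z, hz⟩, ← h3, pow_orderOf_eq_one]
    rfl
  · by_contra hall
    push Not at hall
    have h4 : permHom hR τ = 1 := by
      ext z
      exact congrArg _ (hall z z.2)
    rw [h4, orderOf_one] at h3
    exact hl.one_lt.ne h3

end

section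

variable {q : ℕ} (hq : q ≠ 0) {R : Finset QBar} (hR : ∀ σ : QBar ≃ₐ[ℚ] QBar, ∀ z ∈ R, σ z ∈ R)
  (hd : ∀ z ∈ R, (q : QBar) / z ∈ R) (hne : ∀ z ∈ R, z ≠ (q : QBar) / z)
  (τ : QBar ≃ₐ[ℚ] QBar) {l : ℕ} (hl : l.Prime) (hl2 : l ≠ 2) (hcard : R.card = 2 * l)
  (hper : ∀ z ∈ R, τ^[l] z = z) {z₀ : QBar} (hz₀ : z₀ ∈ R) (hmv : τ z₀ ≠ z₀)

/-- The difference of the two products. -/
noncomputable def yy (q : ℕ) (C : Finset QBar) (t : ℕ) : QBar :=
  ∏ z ∈ C, ((t : QBar) - z) - ∏ z ∈ C, ((t : QBar) - q / z)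

theorem map_yy {C : Finset QBar} {σ : QBar ≃ₐ[ℚ] QBar} (h : ∀ z ∈ C, σ z ∈ C) (t : ℕ) :
    σ (yy q C t) = yy q C t := by
  classical
  have hsurj : C.image σ = C := Finset.eq_of_subset_of_card_le (by
    intro x hx
    obtain ⟨y, hy, rfl⟩ := Finset.mem_image.1 hx
    exact h y hy) (by rw [Finset.card_image_of_injective _ σ.injective])
  have key : ∀ F : QBar → QBar, ∏ z ∈ C, F (σ z) = ∏ z ∈ C, F z := by
    intro F
    conv_rhs => rw [← hsurj]
    rw [Finset.prod_image fun a _ b _ hab => σ.injective hab]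
  unfold yy
  rw [map_sub, map_prod, map_prod]
  congr 1
  · rw [← key fun z => (t : QBar) - z]
    exact Finset.prod_congr rfl fun z _ => by rw [map_sub, map_natCast]
  · rw [← key fun z => (t : QBar) - q / z]
    exact Finset.prod_congr rfl fun z _ => by rw [map_sub, map_natCast, map_div₀, map_natCast]

include hq in
theorem map_yy' {C : Finset QBar} {σ : QBar ≃ₐ[ℚ] QBar} (h : ∀ z ∈ C, (q : QBar) / σ z ∈ C)
    (t : ℕ) : σ (yy q C t) = -yy q C t := by
  classical
  have hinj : Function.Injective fun z : QBar => (q : QBar) / σ z := by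
    intro a b hab
    have h1 := congrArg (fun x => (q : QBar) / x) hab
    simp only [dd hq] at h1
    exact σ.injective h1
  have hsurj : C.image (fun z : QBar => (q : QBar) / σ z) = C := Finset.eq_of_subset_of_card_le (by
    intro x hx
    obtain ⟨y, hy, rfl⟩ := Finset.mem_image.1 hx
    exact h y hy) (by rw [Finset.card_image_of_injective _ hinj])
  have key : ∀ F : QBar → QBar, ∏ z ∈ C, F (q / σ z) = ∏ z ∈ C, F z := by
    intro F
    conv_rhs => rw [← hsurj]
    rw [Finset.prod_image fun a _ b _ hab => hinj hab]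
  unfold yy
  rw [map_sub, map_prod, map_prod, neg_sub]
  congr 1
  · rw [← key fun z => (t : QBar) - q / z]
    exact Finset.prod_congr rfl fun z _ => by rw [map_sub, map_natCast, dd hq]
  · rw [← key fun z => (t : QBar) - z]
    exact Finset.prod_congr rfl fun z _ => by rw [map_sub, map_natCast, map_div₀, map_natCast]

include hq hne hl hl2 hper hz₀ hmv in
theorem exists_yy_ne : ∃ t : ℕ, yy q (orb τ l z₀) t ≠ 0 := by
  classical
  by_contra hall
  push Not at hall
  set C := orb τ l z₀ with hC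
  have h0 : z₀ ∈ C := iter_mem_orb τ hl hper hz₀ 0
  set p₁ : QBar[X] := ∏ z ∈ C, (X - Polynomial.C z) with hp₁
  set p₂ : QBar[X] := ∏ z ∈ C, (X - Polynomial.C (q / z)) with hp₂
  have hp : p₁ = p₂ := by
    apply Polynomial.eq_of_infinite_eval_eq
    have hinf : (Set.range (Nat.cast : ℕ → QBar)).Infinite :=
      Set.infinite_range_of_injective Nat.cast_injective
    refine hinf.mono ?_
    rintro _ ⟨t, rfl⟩
    change eval (t : QBar) p₁ = eval (t : QBar) p₂
    have h1 := hall t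
    unfold yy at h1
    rw [hp₁, hp₂, eval_prod, eval_prod]
    simp only [eval_sub, eval_X, eval_C]
    exact sub_eq_zero.1 h1
  have h1 : eval z₀ p₁ = 0 := by
    rw [hp₁, eval_prod]
    exact Finset.prod_eq_zero h0 (by simp)
  rw [hp, hp₂, eval_prod, Finset.prod_eq_zero_iff] at h1
  obtain ⟨z, hz, h2⟩ := h1
  simp only [eval_sub, eval_X, eval_C] at h2
  have h3 := orb_dual hq hne τ hl hl2 hper hz₀ hmv hz
  rw [← sub_eq_zero.1 h2] at h3
  exact h3 h0

include hq hR hd hne hl hl2 hcard hper hz₀ hmv in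
/-- **The imaginary quadratic subfield.** -/
theorem exists_sigma (κ : QBar ≃ₐ[ℚ] QBar)
    (hκ : ∀ z : QBar, ((κ z : QBar) : ℂ) = (starRingEnd ℂ) (z : ℂ)) (hκR : ∀ z ∈ R, κ z = q / z)
    (hquad : ∀ y ∈ IntermediateField.adjoin ℚ ({z₀} : Set QBar), ∀ d : ℚ, d < 0 →
      y ^ 2 ≠ algebraMap ℚ QBar d) :
    ∃ σ₀ : QBar ≃ₐ[ℚ] QBar, wz R τ l z₀ ∘ σ₀ ≠ wz R τ l z₀ ∧
      wz R τ l z₀ ∘ σ₀ ≠ -wz R τ l z₀ := by
  classical
  by_contra hall
  push Not at hall
  set C := orb τ l z₀ with hC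
  have h0 : z₀ ∈ C := iter_mem_orb τ hl hper hz₀ 0
  obtain ⟨t, ht⟩ := exists_yy_ne hq hne τ hl hl2 hper hz₀ hmv
  set y := yy q C t with hy
  -- the two cases
  have hplus : ∀ σ : QBar ≃ₐ[ℚ] QBar, wz R τ l z₀ ∘ σ = wz R τ l z₀ → σ y = y := by
    intro σ hσ
    refine map_yy (fun z hz => ?_) t
    by_contra hn
    have h1 := congrFun hσ z
    rw [Function.comp_apply, wz_orb τ hz, wz_not τ hn (hR σ z (orb_sub hR τ hz₀ hz))] at h1
    norm_num at h1
  have hminus : ∀ σ : QBar ≃ₐ[ℚ] QBar, wz R τ l z₀ ∘ σ = -wz R τ l z₀ → σ y = -y := by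
    intro σ hσ
    refine map_yy' hq (fun z hz => ?_) t
    have hσR := hR σ z (orb_sub hR τ hz₀ hz)
    rcases mem_orb_or hq hR hd hne τ hl hl2 hcard hper hz₀ hmv hσR with h1 | h1
    · have h2 := congrFun hσ z
      rw [Function.comp_apply, wz_orb τ h1, Pi.neg_apply, wz_orb τ hz] at h2
      norm_num at h2
    · exact h1
  have hcase : ∀ σ : QBar ≃ₐ[ℚ] QBar, σ y = y ∨ σ y = -y := by
    intro σ
    by_cases h : wz R τ l z₀ ∘ σ = wz R τ l z₀
    · exact Or.inl (hplus σ h)
    · exact Or.inr (hminus σ (hall σ h))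
  -- the square is rational
  have hsq : ∃ d : ℚ, algebraMap ℚ QBar d = y ^ 2 := by
    have h1 : y ^ 2 ∈ (⊥ : IntermediateField ℚ QBar) := by
      rw [← InfiniteGalois.fixedField_bot, IntermediateField.mem_fixedField_iff]
      intro σ _
      rw [map_pow]
      rcases hcase σ with h | h
      · rw [h]
      · rw [h, neg_sq]
    exact IntermediateField.mem_bot.1 h1
  obtain ⟨d, hd'⟩ := hsq
  -- complex conjugation
  have hκ' : κ y = -y := by
    refine hminus κ ?_
    funext z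
    have hodd := wz_odd hq hR hd hne τ hl hl2 hcard hper hz₀ hmv
    by_cases hz : z ∈ R
    · rw [Function.comp_apply, hκR z hz, hodd.odd]
      rfl
    · rw [(hodd.comp hR κ).supp z hz, Pi.neg_apply, hodd.supp z hz, neg_zero]
  have hneg : d < 0 := by
    have h1 : (starRingEnd ℂ) (y : ℂ) = -(y : ℂ) := by
      rw [← hκ, hκ']
      rfl
    have h2 : (y : ℂ).re = 0 := by
      have h3 := congrArg Complex.re h1
      rw [Complex.conj_re, Complex.neg_re] at h3
      linarith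
    have h3 : ((d : ℚ) : ℂ) = (y : ℂ) ^ 2 := by
      have h4 := congrArg (algebraMap QBar ℂ) hd'
      rw [map_pow] at h4
      have h5 : algebraMap QBar ℂ (algebraMap ℚ QBar d) = (d : ℂ) := by simp
      rw [h5] at h4
      exact h4
    have h6 : (d : ℝ) = -((y : ℂ).im) ^ 2 := by
      have h7 := congrArg Complex.re h3
      rw [sq, Complex.mul_re, h2] at h7
      simp only [Complex.ratCast_re] at h7
      rw [h7]
      ring
    have h8 : (y : ℂ).im ≠ 0 := by
      intro h9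
      apply ht
      apply (algebraMap QBar ℂ).injective
      rw [map_zero]
      exact Complex.ext h2 h9
    have h10 : (d : ℝ) < 0 := by
      rw [h6]
      have := sq_pos_of_ne_zero h8
      linarith
    exact_mod_cast h10
  refine hquad y ?_ d hneg hd'.symm
  rw [← InfiniteGalois.fixedField_fixingSubgroup (IntermediateField.adjoin ℚ ({z₀} : Set QBar)),
    IntermediateField.mem_fixedField_iff]
  intro σ hσ
  have h1 : σ z₀ = z₀ := (IntermediateField.mem_fixingSubgroup_iff _ σ).1 hσ z₀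
    (IntermediateField.mem_adjoin_simple_self ℚ z₀)
  by_cases h : wz R τ l z₀ ∘ σ = wz R τ l z₀
  · exact hplus σ h
  · exfalso
    have h2 := congrFun (hall σ h) z₀
    rw [Function.comp_apply, h1, Pi.neg_apply, wz_orb τ h0] at h2
    norm_num at h2

end

section

variable {I : Type} [Fintype I] {f : I → ℤ[X]} (hm : ∀ i, f i ≠ 0) {q : ℕ} (hq : 1 < q)
  (habs : HasAbs q f) (hss : NonSupersingular q f)

theorem rt_trans (i : I) (hmon : (f i).Monic) (hirr : Irreducible ((f i).map (Int.castRingHom ℚ)))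
    {z z' : QBar} (hz : z ∈ rt hm i) (hz' : z' ∈ rt hm i) :
    ∃ σ : QBar ≃ₐ[ℚ] QBar, σ z = z' := by
  have hmon' : ((f i).map (Int.castRingHom ℚ)).Monic := hmon.map _
  have h1 : ∀ x : QBar, aeval x ((f i).map (Int.castRingHom ℚ)) = 0 ↔ aeval x (f i) = 0 := by
    intro x
    rw [show (Int.castRingHom ℚ) = algebraMap ℤ ℚ from rfl, aeval_map_algebraMap]
  have h2 : minpoly ℚ z = (f i).map (Int.castRingHom ℚ) :=
    (minpoly.eq_of_irreducible_of_monic hirr ((h1 z).2 ((mem_rt hm).1 hz)) hmon').symm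
  refine minpoly.exists_algEquiv_of_root' (Algebra.IsAlgebraic.isAlgebraic z) ?_
  rw [h2]
  exact (h1 z').2 ((mem_rt hm).1 hz')

include hq habs hss in
/-- **Irreducibility for prime dimensions.** -/
theorem oddIrreducible_of_prime (i : I) (hmon : (f i).Monic)
    (hirr : Irreducible ((f i).map (Int.castRingHom ℚ))) {l : ℕ} (hl : l.Prime) (hl2 : l ≠ 2)
    (hdeg : (f i).natDegree = 2 * l)
    (hquad : ∀ z : ℂ, aeval z (f i) = 0 → ∀ y ∈ IntermediateField.adjoin ℚ ({z} : Set ℂ),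
      ∀ d : ℚ, d < 0 → y ^ 2 ≠ (d : ℂ)) : OddIrreducible q (rt hm i) := by
  have hq0 : q ≠ 0 := by omega
  have hcard : (rt hm i).card = 2 * l := by rw [card_rt hm i hmon hirr, hdeg]
  have hR := rt_stable hm i
  have hd := rt_dual hm hq habs i
  have hne := rt_ne hm hq habs hss i
  obtain ⟨τ, hper, z₀, hz₀, hmv⟩ := exists_tau hR hl hcard fun z hz z' hz' =>
    rt_trans hm i hmon hirr hz hz'
  obtain ⟨κ, hκ⟩ := exists_conjugation
  obtain ⟨σ₀, h1, h2⟩ := exists_sigma hq0 hR hd hne τ hl hl2 hcard hper hz₀ hmv κ hκ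
    (fun z hz => kappa_root hm hq habs hκ ((mem_rts hm).2 ⟨i, (mem_rt hm).1 hz⟩)) (by
    intro y hy d hd0 hyd
    have h3 : (y : ℂ) ∈ IntermediateField.adjoin ℚ ({(z₀ : ℂ)} : Set ℂ) := by
      let ν : QBar →ₐ[ℚ] ℂ := (algebraMap QBar ℂ).toRatAlgHom
      have h4 : (IntermediateField.adjoin ℚ ({z₀} : Set QBar)).map ν =
          IntermediateField.adjoin ℚ ({(z₀ : ℂ)} : Set ℂ) := by
        rw [IntermediateField.adjoin_map, Set.image_singleton]
        rfl
      rw [← h4]
      exact ⟨y, hy, rfl⟩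
    refine hquad z₀ ((aeval_coe_int (f i) z₀).2 ((mem_rt hm).1 hz₀)) y h3 d hd0 ?_
    have h5 := congrArg (algebraMap QBar ℂ) hyd
    rw [map_pow] at h5
    have h6 : algebraMap QBar ℂ (algebraMap ℚ QBar d) = (d : ℂ) := by simp
    rw [h6] at h5
    exact h5)
  exact irreducible_of hq0 hR hd hne τ hl hl2 hcard hper hz₀ hmv h1 h2

end

end Pool.Agent.T2h14.NR
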