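import Mathlib
import Pool.Agent.T2h14.NR.PrimeC
import Pool.Agent.W521.Descent

/-!
# Families of irreducible Weil polynomials
-/

set_option autoImplicit false
set_option linter.unusedSectionVars false

namespace Pool.Agent.T2h14.NR

open Polynomial Module Submodule Pool.Agent.W521.Descent

/-- The splitting field of `p` in `ℂ`. -/
noncomputable def splitField (p : ℤ[X]) : IntermediateField ℚ ℂ :=
  IntermediateField.adjoin ℚ {z : ℂ | aeval z p = 0}

/-- The field `ℚ(z)` of each root `z` of `p` contains no square root of a negative rational number: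
it has no imaginary quadratic subfield. -/
def NoImaginaryQuadratic (p : ℤ[X]) : Prop :=
  ∀ z : ℂ, aeval z p = 0 → ∀ y ∈ IntermediateField.adjoin ℚ ({z} : Set ℂ), ∀ d : ℚ, d < 0 →
    y ^ 2 ≠ (d : ℂ)

/-- The Galois representation of the odd functions on the roots of `p` is irreducible: the
conjugates `w ∘ σ` of every nonzero odd function `w` on the roots span the space of all of them. -/
def IsIrreducibleOdd (q : ℕ) (p : ℤ[X]) : Prop :=
  ∀ w v : QBar → ℚ, IsOdd q (fun _ : Unit => p) w → w ≠ 0 → IsOdd q (fun _ : Unit => p) v →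
    v ∈ span ℚ {x : QBar → ℚ | ∃ σ : QBar ≃ₐ[ℚ] QBar, x = w ∘ σ}

/-- No root of `p` is supersingular: the numbers `z ^ 2 / q` are not roots of unity. -/
def NotSupersingular (q : ℕ) (p : ℤ[X]) : Prop :=
  ∀ z : ℂ, aeval z p = 0 → ∀ N : ℕ, 0 < N → z ^ (2 * N) ≠ (q : ℂ) ^ N

section

variable {I : Type} [Fintype I] {f : I → ℤ[X]} (hm : ∀ i, f i ≠ 0) {q : ℕ}

theorem isOddOn_rt (i : I) {w : QBar → ℚ} :
    IsOddOn (rt hm i) q w ↔ IsOdd q (fun _ : Unit => f i) w := by
  constructor
  · intro h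
    refine ⟨fun z hz => ?_, h.odd⟩
    by_contra h1
    exact hz (h.supp z fun h2 => h1 ⟨(), (mem_rt hm).1 h2⟩)
  · intro h
    refine ⟨fun z hz => ?_, h.2⟩
    by_contra h1
    obtain ⟨_, h2⟩ := h.1 z h1
    exact hz ((mem_rt hm).2 h2)

theorem oddIrreducible_iff (i : I) : OddIrreducible q (rt hm i) ↔ IsIrreducibleOdd q (f i) := by
  unfold OddIrreducible IsIrreducibleOdd
  constructor
  · intro h w v hw hw0 hv
    exact h w v ((isOddOn_rt hm i).2 hw) hw0 ((isOddOn_rt hm i).2 hv)
  · intro h w v hw hw0 hv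
    exact h w v ((isOddOn_rt hm i).1 hw) hw0 ((isOddOn_rt hm i).1 hv)

/-- The inclusion. -/
noncomputable def incl : QBar →ₐ[ℚ] ℂ := (algebraMap QBar ℂ).toRatAlgHom

theorem map_adjoin (i : I) :
    (IntermediateField.adjoin ℚ (rt hm i : Set QBar)).map incl = splitField (f i) := by
  rw [IntermediateField.adjoin_map, splitField]
  congr 1
  ext z
  constructor
  · rintro ⟨y, hy, rfl⟩
    exact (aeval_coe_int (f i) y).2 ((mem_rt hm).1 (Finset.mem_coe.1 hy))
  · intro hz
    have hzQ : z ∈ QBar := mem_qbar_int (hm i) hz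
    exact ⟨⟨z, hzQ⟩, Finset.mem_coe.2 ((mem_rt hm).2 ((aeval_coe_int (f i) ⟨z, hzQ⟩).1 hz)), rfl⟩

theorem exists_sep {i j : I} (h : ¬ IntermediateField.adjoin ℚ (rt hm j : Set QBar) ≤
    IntermediateField.adjoin ℚ (rt hm i : Set QBar)) :
    ∃ σ : QBar ≃ₐ[ℚ] QBar, (∀ z ∈ rt hm i, σ z = z) ∧ ∃ z ∈ rt hm j, σ z ≠ z := by
  by_contra hall
  push Not at hall
  apply h
  intro x hx
  rw [← InfiniteGalois.fixedField_fixingSubgroup (IntermediateField.adjoin ℚ (rt hm i : Set QBar)),
    IntermediateField.mem_fixedField_iff]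
  intro σ hσ
  have h1 : ∀ z ∈ rt hm i, σ z = z := fun z hz =>
    (IntermediateField.mem_fixingSubgroup_iff _ σ).1 hσ z
      (IntermediateField.subset_adjoin ℚ _ (Finset.mem_coe.2 hz))
  have h2 := hall σ h1
  have h3 : IntermediateField.adjoin ℚ (rt hm j : Set QBar) ≤
      IntermediateField.fixedField (Subgroup.zpowers σ) := by
    rw [IntermediateField.adjoin_le_iff]
    intro z hz
    change z ∈ IntermediateField.fixedField (Subgroup.zpowers σ)
    rw [IntermediateField.mem_fixedField_iff]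
    intro τ hτ
    obtain ⟨n, rfl⟩ := Subgroup.mem_zpowers_iff.1 hτ
    have h4 : σ z = z := h2 z (Finset.mem_coe.1 hz)
    have h5 : σ ∈ MulAction.stabilizer (QBar ≃ₐ[ℚ] QBar) z := h4
    exact Subgroup.zpow_mem _ h5 n
  exact (IntermediateField.mem_fixedField_iff _ _).1 (h3 hx) σ (Subgroup.mem_zpowers σ)

theorem sep_of_ne {i j : I} (h : splitField (f i) ≠ splitField (f j)) :
    (∃ σ : QBar ≃ₐ[ℚ] QBar, (∀ z ∈ rt hm i, σ z = z) ∧ ∃ z ∈ rt hm j, σ z ≠ z) ∨
    ∃ σ : QBar ≃ₐ[ℚ] QBar, (∀ z ∈ rt hm j, σ z = z) ∧ ∃ z ∈ rt hm i, σ z ≠ z := by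
  by_cases h1 : IntermediateField.adjoin ℚ (rt hm j : Set QBar) ≤
      IntermediateField.adjoin ℚ (rt hm i : Set QBar)
  · right
    refine exists_sep hm fun h2 => h ?_
    rw [← map_adjoin hm i, ← map_adjoin hm j, le_antisymm h1 h2]
  · exact Or.inl (exists_sep hm h1)

theorem disjoint_rt (hmon : ∀ i, (f i).Monic)
    (hirr : ∀ i, Irreducible ((f i).map (Int.castRingHom ℚ))) {i j : I}
    (h : splitField (f i) ≠ splitField (f j)) : Disjoint (rt hm i) (rt hm j) := by
  rw [Finset.disjoint_left]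
  intro z hzi hzj
  apply h
  have h1 : ∀ k, z ∈ rt hm k → minpoly ℚ z = (f k).map (Int.castRingHom ℚ) := by
    intro k hk
    refine (minpoly.eq_of_irreducible_of_monic (hirr k) ?_ ((hmon k).map _)).symm
    rw [show (Int.castRingHom ℚ) = algebraMap ℤ ℚ from rfl, aeval_map_algebraMap]
    exact (mem_rt hm).1 hk
  have h2 : f i = f j := by
    apply Polynomial.map_injective (Int.castRingHom ℚ) (RingHom.injective_int _)
    rw [← h1 i hzi, ← h1 j hzj]
  rw [h2]

end

variable {I : Type} [Fintype I]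

/-- **The criterion for irreducible polynomials.** -/
theorem noRelations_of_family (q : ℕ) (hq : 1 < q) (g : I → ℕ) (f : I → ℤ[X])
    (hf : ∀ i, f i ∈ weilPolys q (g i)) (hirr : ∀ i, Irreducible ((f i).map (Int.castRingHom ℚ)))
    (hss : ∀ i, NotSupersingular q (f i))
    (hodd : ∀ i, ((g i).Prime ∧ g i ≠ 2 ∧ NoImaginaryQuadratic (f i)) ∨ IsIrreducibleOdd q (f i))
    (hsplit : ∀ i j, i ≠ j → splitField (f i) ≠ splitField (f j)) (E : IntermediateField ℚ ℂ)
    [Normal ℚ E] (hE : ∀ i, ¬ splitField (f i) ≤ E) (r : ℕ) (hr : ∀ i, r < g i) :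
    NoRelations E q r f := by
  classical
  have hmon : ∀ i, (f i).Monic := fun i => (hf i).1
  have hm : ∀ i, f i ≠ 0 := fun i => (hmon i).ne_zero
  have hdeg : ∀ i, (f i).natDegree = 2 * g i := fun i => (hf i).2.1
  have habs : HasAbs q f := fun i => (hf i).2.2.2
  have hss' : NonSupersingular q f := hss
  have hodd' : ∀ i, OddIrreducible q (rt hm i) := by
    intro i
    rcases hodd i with ⟨h1, h2, h3⟩ | h
    · exact oddIrreducible_of_prime hm hq habs hss' i (hmon i) (hirr i) h1 h2 (hdeg i) h3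
    · exact (oddIrreducible_iff hm i).2 h
  have hcard : ∀ i, (rt hm i).card = 2 * g i := fun i => by
    rw [card_rt hm i (hmon i) (hirr i), hdeg]
  have hne : ∀ i, (rt hm i).Nonempty := by
    intro i
    rw [← Finset.card_pos, hcard]
    have := hr i
    omega
  have hdis : ∀ i j, i ≠ j → Disjoint (rt hm i) (rt hm j) := fun i j hij =>
    disjoint_rt hm hmon hirr (hsplit i j hij)
  have hsep := fun i j (hij : i ≠ j) => sep_of_ne hm (hsplit i j hij)
  have hE' : ∀ i, ∃ z : ℂ, aeval z (f i) = 0 ∧ z ∉ E := by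
    intro i
    by_contra hall
    push Not at hall
    apply hE i
    rw [splitField, IntermediateField.adjoin_le_iff]
    exact fun z hz => hall z hz
  exact noRelations_of hm (by omega) (selfDual_of_abs hq habs)
    (neat_of_irreducible hm hq habs hss' hodd' hsep hdis hne)
    (conjugateOver_of_irreducible hm hq habs hss' hodd' hsep hdis E hE')
    (largeSpans_of_irreducible hm hq habs hss' hodd' hdis fun i => by
      rw [hcard]
      have := hr i
      omega)

end Pool.Agent.T2h14.NR
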