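import Mathlib

/-!
# Relations between the roots of Weil polynomials, over a field of numbers: statements
-/

set_option autoImplicit false

namespace Pool.Agent.T2h14.NR.Stm

open Polynomial

/-- The field of all algebraic numbers in `ℂ`. -/
noncomputable abbrev QBar : IntermediateField ℚ ℂ := algebraicClosure ℚ ℂ

/-- Its group of automorphisms, the Galois group of `ℚ`. -/
def GalQ : Type := QBar ≃ₐ[ℚ] QBar

/-- The action of the Galois group. -/
noncomputable def act (σ : GalQ) (z : QBar) : QBar := AlgEquiv.toRingEquiv σ z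

/-- `z` is a root of one of the `f i`. -/
def IsRootOf {I : Type} (f : I → ℤ[X]) (z : ℂ) : Prop := ∃ i, aeval z (f i) = 0

/-- There are no multiplicative relations between the roots of the `f i` except the trivial ones: if
a power of a product of roots `z 1 ⋯ z n`, `n > 0`, is a power of `q`, then `z k * z l = q` for some
`k ≠ l`. -/
def Neat (q : ℕ) {I : Type} (f : I → ℤ[X]) : Prop :=
  ∀ (n : ℕ) (z : Fin n → ℂ) (N : ℕ) (c : ℤ), 0 < n → 0 < N → (∀ k, IsRootOf f (z k)) →
    (∏ k, z k) ^ N = (q : ℂ) ^ c → ∃ k l, k ≠ l ∧ z k * z l = q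

/-- All roots `z` of the `f i` are conjugate to `q / z` over `E`: there is an element `σ` of the
Galois group that fixes the algebraic numbers in `E`, with `σ z = q / z`. -/
def ConjugateOver (E : IntermediateField ℚ ℂ) (q : ℕ) {I : Type} (f : I → ℤ[X]) : Prop :=
  ∀ z : QBar, IsRootOf f z → ∃ σ : GalQ, (∀ e : QBar, (e : ℂ) ∈ E → act σ e = e) ∧
    (act σ z : ℂ) = q / z

/-- `w` is an odd function on the set of the roots of the `f i`: it vanishes outside this set, and
`w z' = -w z` if `z * z' = q`. -/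
def IsOdd (q : ℕ) {I : Type} (f : I → ℤ[X]) (w : QBar → ℚ) : Prop :=
  (∀ z, w z ≠ 0 → IsRootOf f z) ∧ ∀ z z' : QBar, (z : ℂ) * z' = q → w z' = -w z

/-- Every nonzero odd function `w` on the set of the roots has more than `r` linearly independent
conjugates `w ∘ σ`; in other words, all nonzero Galois-stable spaces of odd functions have
dimension larger than `r`. -/
def ManyConjugates (q r : ℕ) {I : Type} (f : I → ℤ[X]) : Prop :=
  ∀ w : QBar → ℚ, IsOdd q f w → w ≠ 0 → ∃ σ : Fin (r + 1) → GalQ, ∀ c : Fin (r + 1) → ℚ,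
    (∀ z, ∑ i, c i * w (act (σ i) z) = 0) → ∀ i, c i = 0

/-- The Galois representation of the odd functions on the roots of `p` is irreducible: all odd
functions on the roots are linear combinations of conjugates of each of them, if this is not zero. -/
def IrreducibleOdd (q : ℕ) (p : ℤ[X]) : Prop :=
  ∀ w v : QBar → ℚ, IsOdd q (fun _ : Unit => p) w → w ≠ 0 → IsOdd q (fun _ : Unit => p) v →
    ∃ (n : ℕ) (σ : Fin n → GalQ) (c : Fin n → ℚ), ∀ z, v z = ∑ i, c i * w (act (σ i) z)

/-- Up to powers, the numbers in the set `S` lie in a group generated by the nonzero elements of the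
field `E` and `r` numbers. -/
def RankLE (E : IntermediateField ℚ ℂ) (r : ℕ) (S : Set ℂ) : Prop :=
  ∃ u : Fin r → ℂ, (∀ j, u j ≠ 0) ∧ ∀ ρ ∈ S, ∃ (N : ℕ) (y : ℂ) (m : Fin r → ℤ), 0 < N ∧ y ∈ E ∧
    y ≠ 0 ∧ ρ ^ N = y * ∏ j, u j ^ m j

/-- Let `ρ` be a root of a nonzero rational polynomial all of whose roots lie, up to powers, in a group
generated by the nonzero elements of `E` and `r` numbers. Then each relation
`((z 1 ⋯ z n) ^ s * ρ) ^ N = (Q ^ c) ^ N`, `Q = q ^ s`, where `n, s, N > 0` and the `z k` are roots of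
the `f i`, contains a pair `z k * z l = q` with `k ≠ l`. -/
def NoRelations (E : IntermediateField ℚ ℂ) (q r : ℕ) {I : Type} (f : I → ℤ[X]) : Prop :=
  ∀ χ : ℚ[X], χ ≠ 0 → RankLE E r {ρ : ℂ | aeval ρ χ = 0} → ∀ ρ : ℂ, aeval ρ χ = 0 →
    ∀ s : ℕ, 0 < s → ∀ n : ℕ, 0 < n → ∀ (c : ℤ) (N : ℕ), 0 < N → ∀ z : Fin n → ℂ,
      (∀ k, IsRootOf f (z k)) →
      ((∏ k, z k) ^ s * ρ) ^ N = (((q : ℂ) ^ s) ^ c) ^ N → ∃ k l, k ≠ l ∧ z k * z l = q

/-- The splitting field of `p` in `ℂ`. -/
noncomputable def splitField (p : ℤ[X]) : IntermediateField ℚ ℂ :=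
  IntermediateField.adjoin ℚ {z : ℂ | aeval z p = 0}

/-- The field `ℚ(z)` of each root `z` of `p` contains no square root of a negative rational number:
it has no imaginary quadratic subfield. -/
def NoImaginaryQuadratic (p : ℤ[X]) : Prop :=
  ∀ z : ℂ, aeval z p = 0 → ∀ y ∈ IntermediateField.adjoin ℚ ({z} : Set ℂ), ∀ d : ℚ, d < 0 →
    y ^ 2 ≠ (d : ℂ)

/-- No root `z` of `p` is supersingular: the numbers `z ^ 2 / q` are not roots of unity. -/
def NotSupersingular (q : ℕ) (p : ℤ[X]) : Prop :=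
  ∀ z : ℂ, aeval z p = 0 → ∀ N : ℕ, 0 < N → z ^ (2 * N) ≠ (q : ℂ) ^ N

end Pool.Agent.T2h14.NR.Stm
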