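import Mathlib
import Pool.Agent.T2h14.NR.Dim
import Pool.Agent.W521.Descent

/-!
# Rank zero
-/

set_option autoImplicit false

namespace Pool.Agent.T2h14.NR

open Polynomial Module Submodule Pool.Agent.W521.Descent

/-- For `r = 0` the condition on the dimensions holds. -/
theorem largeSpans_zero {I : Type} [Finite I] {f : I → ℤ[X]} (hm : ∀ i, f i ≠ 0) {q : ℕ} :
    LargeSpans q 0 f := by
  intro w hw hw0
  have hodd : IsOddOn (rts hm) q w := (isOddOn_rts hm).2 hw
  have hfin := finite_span (rts_stable hm) hodd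
  rw [Module.finrank_pos_iff]
  refine Submodule.nontrivial_iff_ne_bot.2 fun h => hw0 ?_
  have h1 : w ∈ span ℚ {v : QBar → ℚ | ∃ σ : QBar ≃ₐ[ℚ] QBar, v = w ∘ σ} :=
    subset_span ⟨AlgEquiv.refl, rfl⟩
  rw [h] at h1
  exact h1

/-- **The criterion for families of Weil polynomials.** -/
theorem noRelations_iff_weil {I : Type} [Finite I] {q : ℕ} (hq : 1 < q) {g : I → ℕ} {f : I → ℤ[X]}
    (hf : ∀ i, f i ∈ weilPolys q (g i)) (E : IntermediateField ℚ ℂ) (r : ℕ) :
    (Neat q f ∧ ConjugateOver E q f ∧ LargeSpans q r f → NoRelations E q r f) ∧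
      (Normal ℚ E → (NoRelations E q r f → Neat q f ∧ ConjugateOver E q f ∧ LargeSpans q r f)) := by
  cases nonempty_fintype I
  have hm : ∀ i, f i ≠ 0 := fun i => (hf i).1.ne_zero
  have habs : HasAbs q f := fun i => (hf i).2.2.2
  have hSD := selfDual_of_abs hq habs
  refine ⟨fun h => noRelations_of hm (by omega) hSD h.1 h.2.1 h.2.2, fun hE h => ?_⟩
  exact (noRelations_iff hm (by omega) hSD).1 h

end Pool.Agent.T2h14.NR
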