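import Mathlib
import Pool.Agent.T2h14.NR.Stm
import Pool.Agent.T2h14.NR.Zero
import Pool.Agent.T2h14.NR.Fam

/-!
# The statements and the definitions used in the proofs
-/

set_option autoImplicit false
set_option linter.unusedSectionVars false

namespace Pool.Agent.T2h14.NR

open Polynomial Module Submodule Pool.Agent.W484.AA Pool.Agent.W484.HS Pool.Agent.W484.TB
  Pool.Agent.W521.Descent

theorem neat_iff {q : ℕ} {I : Type} {f : I → ℤ[X]} : Stm.Neat q f ↔ Neat q f := Iff.rfl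

theorem noRelations_iff' {E : IntermediateField ℚ ℂ} {q r : ℕ} {I : Type} {f : I → ℤ[X]} :
    Stm.NoRelations E q r f ↔ NoRelations E q r f := Iff.rfl

theorem coe_div (q : ℕ) (z : QBar) : (((q : QBar) / z : QBar) : ℂ) = (q : ℂ) / (z : ℂ) := by
  have := map_div₀ (algebraMap QBar ℂ) (q : QBar) z
  rw [map_natCast] at this
  exact this

theorem isRootOf_iff {I : Type} {f : I → ℤ[X]} {z : QBar} :
    Stm.IsRootOf f (z : ℂ) ↔ ∃ i, aeval z (f i) = 0 := by
  unfold Stm.IsRootOf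
  exact exists_congr fun i => aeval_coe_int (f i) z

theorem conjugateOver_iff {E : IntermediateField ℚ ℂ} {q : ℕ} {I : Type} {f : I → ℤ[X]} :
    Stm.ConjugateOver E q f ↔ ConjugateOver E q f := by
  unfold Stm.ConjugateOver ConjugateOver
  refine forall_congr' fun z => imp_congr isRootOf_iff (exists_congr fun σ =>
    and_congr Iff.rfl ?_)
  rw [← coe_div]
  exact Subtype.coe_inj

theorem isOdd_iff {q : ℕ} (hq : q ≠ 0) {I : Type} {f : I → ℤ[X]} (h0 : ∀ i, aeval (0 : ℂ) (f i) ≠ 0)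
    {w : QBar → ℚ} : Stm.IsOdd q f w ↔ IsOdd q f w := by
  have hqC : (q : ℂ) ≠ 0 := by exact_mod_cast hq
  have h00 : ¬ ∃ i, aeval (0 : QBar) (f i) = 0 := by
    rintro ⟨i, hi⟩
    exact h0 i ((aeval_coe_int (f i) 0).2 hi)
  constructor
  · rintro ⟨h1, h2⟩
    refine ⟨fun z hz => isRootOf_iff.1 (h1 z hz), fun z => ?_⟩
    by_cases hz : z = 0
    · subst hz
      have h3 : w 0 = 0 := by
        by_contra h4
        exact h00 (isRootOf_iff.1 (h1 0 h4))
      rw [div_zero, h3, neg_zero]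
    · refine h2 z _ ?_
      rw [coe_div, mul_div_cancel₀]
      intro h
      exact hz ((algebraMap QBar ℂ).injective (by rw [map_zero]; exact h))
  · rintro ⟨h1, h2⟩
    refine ⟨fun z hz => isRootOf_iff.2 (h1 z hz), fun z z' h => ?_⟩
    have hz : (z : ℂ) ≠ 0 := by
      intro h3
      rw [h3, zero_mul] at h
      exact hqC h.symm
    have h3 : z' = (q : QBar) / z := by
      apply (algebraMap QBar ℂ).injective
      change (z' : ℂ) = (((q : QBar) / z : QBar) : ℂ)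
      rw [coe_div, eq_div_iff hz, mul_comm]
      exact h
    rw [h3, h2]

theorem lt_finrank_iff {f : QBar → ℚ} {r : ℕ}
    (hfin : Module.Finite ℚ (span ℚ {v : QBar → ℚ | ∃ σ : QBar ≃ₐ[ℚ] QBar, v = f ∘ σ})) :
    r < finrank ℚ (span ℚ {v : QBar → ℚ | ∃ σ : QBar ≃ₐ[ℚ] QBar, v = f ∘ σ}) ↔
      ∃ σ : Fin (r + 1) → Stm.GalQ, ∀ c : Fin (r + 1) → ℚ,
        (∀ z, ∑ i, c i * f (Stm.act (σ i) z) = 0) → ∀ i, c i = 0 := by
  have key : ∀ {n : ℕ} (σ : Fin n → (QBar ≃ₐ[ℚ] QBar)),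
      LinearIndependent ℚ (fun i => f ∘ σ i) ↔ ∀ c : Fin n → ℚ,
        (∀ z, ∑ i, c i * f (σ i z) = 0) → ∀ i, c i = 0 := by
    intro n σ
    rw [Fintype.linearIndependent_iff]
    refine forall_congr' fun c => imp_congr ?_ Iff.rfl
    constructor
    · intro h z
      have h1 := congrFun h z
      rw [Finset.sum_apply] at h1
      exact h1
    · intro h
      funext z
      rw [Finset.sum_apply]
      exact h z
  constructor
  · intro h
    obtain ⟨b, hb1, -, hb3⟩ := exists_fun_fin_finrank_span_eq ℚ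
      {v : QBar → ℚ | ∃ σ : QBar ≃ₐ[ℚ] QBar, v = f ∘ σ}
    choose τ hτ using hb1
    let e : Fin (r + 1) → Fin (finrank ℚ (span ℚ {v : QBar → ℚ | ∃ σ : QBar ≃ₐ[ℚ] QBar,
      v = f ∘ σ})) := Fin.castLE h
    have h1 : LinearIndependent ℚ (b ∘ e) := hb3.comp e (Fin.castLE_injective h)
    have h2 : b ∘ e = fun i => f ∘ τ (e i) := funext fun i => hτ (e i)
    rw [h2] at h1
    exact ⟨fun i => τ (e i), (key _).1 h1⟩
  · rintro ⟨σ', hσ⟩
    let σ : Fin (r + 1) → (QBar ≃ₐ[ℚ] QBar) := σ'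
    have h1 : LinearIndependent ℚ (fun i => f ∘ σ i) := (key σ).2 hσ
    let b : Fin (r + 1) → span ℚ {v : QBar → ℚ | ∃ σ : QBar ≃ₐ[ℚ] QBar, v = f ∘ σ} := fun i =>
      ⟨f ∘ σ i, subset_span ⟨σ i, rfl⟩⟩
    have h2 : LinearIndependent ℚ b := by
      refine LinearIndependent.of_comp (Submodule.subtype _) ?_
      exact h1
    have h3 := h2.fintype_card_le_finrank
    rw [Fintype.card_fin] at h3
    omega

section

variable {I : Type} [Fintype I] {f : I → ℤ[X]} (hm : ∀ i, f i ≠ 0) {q : ℕ} (hq : q ≠ 0)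
  (h0 : ∀ i, aeval (0 : ℂ) (f i) ≠ 0)

include hm hq h0 in
theorem manyConjugates_iff {r : ℕ} : Stm.ManyConjugates q r f ↔ LargeSpans q r f := by
  unfold Stm.ManyConjugates LargeSpans
  refine forall_congr' fun w => ?_
  rw [isOdd_iff hq h0]
  refine forall_congr' fun hw => forall_congr' fun _ => ?_
  exact (lt_finrank_iff (finite_span (rts_stable hm) ((isOddOn_rts hm).2 hw))).symm

end

theorem irreducibleOdd_iff {q : ℕ} (hq : q ≠ 0) {p : ℤ[X]} (h0 : aeval (0 : ℂ) p ≠ 0)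
    (h : Stm.IrreducibleOdd q p) : IsIrreducibleOdd q p := by
  intro w v hw hw0 hv
  obtain ⟨n, σ', c, h1⟩ := h w v ((isOdd_iff hq fun _ => h0).2 hw) hw0
    ((isOdd_iff hq fun _ => h0).2 hv)
  let σ : Fin n → (QBar ≃ₐ[ℚ] QBar) := σ'
  have h2 : v = ∑ i, c i • (w ∘ σ i) := by
    funext z
    rw [Finset.sum_apply, h1 z]
    rfl
  rw [h2]
  exact sum_mem fun i _ => smul_mem _ _ (subset_span ⟨σ i, rfl⟩)

/-- **The criterion.** -/
theorem stm_iff {I : Type} [Finite I] {q : ℕ} (hq : 1 < q) {g : I → ℕ} {f : I → ℤ[X]}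
    (hf : ∀ i, f i ∈ weilPolys q (g i)) (E : IntermediateField ℚ ℂ) (r : ℕ) :
    (Stm.Neat q f ∧ Stm.ConjugateOver E q f ∧ Stm.ManyConjugates q r f → NoRelations E q r f) ∧
      (Normal ℚ E → (Stm.NoRelations E q r f → Stm.Neat q f ∧ Stm.ConjugateOver E q f ∧
        Stm.ManyConjugates q r f)) ∧ Stm.ManyConjugates q 0 f := by
  cases nonempty_fintype I
  have hm : ∀ i, f i ≠ 0 := fun i => (hf i).1.ne_zero
  have habs : HasAbs q f := fun i => (hf i).2.2.2
  have hq0 : q ≠ 0 := by omega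
  have h0 : ∀ i, aeval (0 : ℂ) (f i) ≠ 0 := fun i h => root_ne_zero' hq habs h rfl
  rw [neat_iff, conjugateOver_iff, manyConjugates_iff hm hq0 h0, noRelations_iff',
    manyConjugates_iff hm hq0 h0]
  exact ⟨(noRelations_iff_weil hq hf E r).1, (noRelations_iff_weil hq hf E r).2,
    largeSpans_zero hm⟩

/-- **The criterion for irreducible polynomials.** -/
theorem stm_family {I : Type} [Fintype I] (q : ℕ) (hq : 1 < q) (g : I → ℕ) (f : I → ℤ[X])
    (hf : ∀ i, f i ∈ weilPolys q (g i)) (hirr : ∀ i, Irreducible ((f i).map (Int.castRingHom ℚ)))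
    (hss : ∀ i, Stm.NotSupersingular q (f i))
    (hodd : ∀ i, ((g i).Prime ∧ g i ≠ 2 ∧ Stm.NoImaginaryQuadratic (f i)) ∨
      Stm.IrreducibleOdd q (f i))
    (hsplit : ∀ i j, i ≠ j → Stm.splitField (f i) ≠ Stm.splitField (f j))
    (E : IntermediateField ℚ ℂ) [Normal ℚ E] (hE : ∀ i, ¬ Stm.splitField (f i) ≤ E) (r : ℕ)
    (hr : ∀ i, r < g i) : NoRelations E q r f := by
  have habs : HasAbs q f := fun i => (hf i).2.2.2
  have hq0 : q ≠ 0 := by omega
  have h0 : ∀ i, aeval (0 : ℂ) (f i) ≠ 0 := fun i h => root_ne_zero' hq habs h rfl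
  exact noRelations_of_family q hq g f hf hirr hss (fun i => (hodd i).imp id fun h =>
    irreducibleOdd_iff hq0 (h0 i) h) hsplit E hE r hr

end Pool.Agent.T2h14.NR
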