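import Mathlib
import Pool.Agent.T2h14.NR.Kun
import Pool.Agent.W484.CK.NCTateMain
import Pool.Agent.Y154.BQ.Fin

/-!
# The noncommutative Tate conjecture and the Chow groups of products with abelian varieties without
relations
-/

set_option autoImplicit false
set_option linter.unusedSectionVars false

open CategoryTheory AlgebraicGeometry

namespace Pool.Agent.T2h14.NR

open Module Polynomial Pool.Agent.H914 Pool.Agent.H914.VarClass Pool.Agent.H914.VarClass.Obj
  Pool.Agent.W492.BB Pool.Agent.W550.Corr Pool.Agent.W484.TB Pool.Agent.W484.HS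
  Pool.Agent.W484.CK Pool.Agent.W484 Pool.Agent.Y154.BQ

variable {I : Type} {f : I → ℤ[X]} (hm : ∀ i, (f i).Monic) (E : IntermediateField ℚ ℂ)
  {q : ℕ} (hq : 1 < q) (r : ℕ) (hno : NoRelations E q r f)

include hm hq hno

theorem ncTateForRankOver_of : NCTateForRankOver E q r f := by
  intro k _ 𝒱 C _ hI K _ _ _ H _ s A Z πA πZ hsit
  obtain ⟨J, hJ, deg, D, E', hne, hdual, hD, hE, hK⟩ := kunneth_eigen hm E hq r hno
    (isStandard_bridge hsit.standard) hsit.pos (isAbelian_bridge hsit.abelian)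
    (πZ := πZ) hsit.rank
  have hK' := fun i w hw => (hK i w hw).1
  have hQ : q ^ s ≠ 0 := pow_ne_zero _ (by omega)
  have hπA := isFrobenius_bridge hsit.abelian.frobenius
  exact ⟨J, hJ, deg, D, hD, fun e he => ⟨tateKunneth_of hI hdual hQ hπA hK' e,
    ncTate_iff hI hdual hQ hπA hK' he⟩⟩

theorem chowForRankOver_of : ChowForRankOver E q r f := by
  intro k _ 𝒱 C _ K _ _ _ H _ s A Z πA πZ hsit hF
  obtain ⟨J, hJ, deg, D, E', hdual, hD, hK⟩ := kunneth_main hm E hq r hno
    (isStandard_bridge hsit.standard) hsit.pos (isAbelian_bridge hsit.abelian)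
    (πZ := πZ) hsit.rank (nilpotence_bridge hsit.nilpotence)
  have h1 : CH.HasKunneth (CH.chowData C) A Z deg D := CH.hasKunneth_of hdual
    CH.chowData_isCorrTheory (hK (CH.chowData C) CH.chowData_isCorrTheory
      (CH.chowData_actsAsPower (isFrobenius_bridge hF)))
  refine ⟨⟨J, hJ, deg, D, hD, fun i y hy => ?_⟩, CH.ratEqNum_iff hdual h1,
    CH.ratEqHom_iff hdual h1⟩
  obtain ⟨z, ⟨hz1, hz2⟩, hz3⟩ := h1 i y hy
  have h2 : ∀ z' : J → C.A Z, ∑ j, times C (D j) (z' j) =
      ∑ j, (CH.chowData C).act (CH.extBy C Z (D j)) (z' j) := fun z' =>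
    Finset.sum_congr rfl fun j _ => (CH.act_extBy C (D j) (z' j)).symm
  refine ⟨z, ⟨hz1, ?_⟩, fun z' hz' => hz3 z' ⟨hz'.1, ?_⟩⟩
  · rw [h2 z]
    exact hz2
  · rw [← h2 z']
    exact hz'.2

theorem pairingForRankOver_of : PairingForRankOver E q r f := by
  intro k _ 𝒱 C _ K _ _ _ H _ s A Z πA πZ hsit hF
  refine ⟨(chowForRankOver_of hm E hq r hno k 𝒱 C K H s A Z πA πZ hsit hF).1, ?_⟩
  obtain ⟨J, hJ, deg, D, E', hdual, hD, hK⟩ := kunneth_main hm E hq r hno
    (isStandard_bridge hsit.standard) hsit.pos (isAbelian_bridge hsit.abelian)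
    (πZ := πZ) hsit.rank (nilpotence_bridge hsit.nilpotence)
  have h1 : CH.HasKunneth (CH.chowData C) A Z deg D := CH.hasKunneth_of hdual
    CH.chowData_isCorrTheory (hK (CH.chowData C) CH.chowData_isCorrTheory
      (CH.chowData_actsAsPower (isFrobenius_bridge hF)))
  intro n
  exact perfectIn_prod_iff' (isStandard_bridge hsit.standard) hdual h1 hD n

end Pool.Agent.T2h14.NR
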